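import Mathlib

/- The control system `x₁^(α₁) = u₁`, `x₂^(α₂) = u₂`, `x₃' = u₁ u₂` and its flat outputs. -/

namespace Pool.Agent.Work.MP_3007d7_an

open scoped ContDiff

/-- The state space: `(x₁, ..., x₁^(α₁-1))`, `(x₂, ..., x₂^(α₂-1))`, `x₃`. -/
abbrev State (α₁ α₂ : ℕ) : Type := (Fin α₁ → ℝ) × (Fin α₂ → ℝ) × ℝ

/-- A smooth trajectory of the system. -/
structure Traj (α₁ α₂ : ℕ) : Type where
  x₁ : ℝ → ℝ
  x₂ : ℝ → ℝ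
  x₃ : ℝ → ℝ
  u₁ : ℝ → ℝ
  u₂ : ℝ → ℝ
  smooth₁ : ContDiff ℝ ∞ x₁
  smooth₂ : ContDiff ℝ ∞ x₂
  smooth₃ : ContDiff ℝ ∞ x₃
  eq₁ : ∀ t, iteratedDeriv α₁ x₁ t = u₁ t
  eq₂ : ∀ t, iteratedDeriv α₂ x₂ t = u₂ t
  eq₃ : ∀ t, deriv x₃ t = u₁ t * u₂ t

/-- The state `x(t)`. -/
noncomputable def Traj.state {α₁ α₂ : ℕ} (T : Traj α₁ α₂) (t : ℝ) : State α₁ α₂ :=
  (fun i => iteratedDeriv i T.x₁ t, fun i => iteratedDeriv i T.x₂ t, T.x₃ t)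

/-- The `k`-th derivative `u^(k)(t)` of the input. -/
noncomputable def Traj.input {α₁ α₂ : ℕ} (T : Traj α₁ α₂) (k : ℕ) (t : ℝ) : ℝ × ℝ :=
  (iteratedDeriv k T.u₁ t, iteratedDeriv k T.u₂ t)

/-- There is a flat output `y = h(x, u, ..., u^(s))` on a nonempty open subset `U` of the space of
`(x, u, u', u'', ...)` (product topology): `h` is smooth on an open set `V` containing the
projection of `U`, and `(x, u) = Ψ(y, y', ..., y^(k))` with `Ψ` smooth on an open set `O`, at every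
time at which a trajectory is in `U`. For `s = -1` the map `h` depends on `x` alone. -/
def HasFlatOutputOfOrderLE (α₁ α₂ : ℕ) (s : ℤ) : Prop :=
  ∃ (U : Set (State α₁ α₂ × (ℕ → ℝ × ℝ)))
    (V : Set (State α₁ α₂ × (Fin (s + 1).toNat → ℝ × ℝ)))
    (h : State α₁ α₂ × (Fin (s + 1).toNat → ℝ × ℝ) → ℝ × ℝ)
    (k : ℕ) (O : Set (Fin (k + 1) → ℝ × ℝ))
    (Ψ : (Fin (k + 1) → ℝ × ℝ) → State α₁ α₂ × (ℝ × ℝ)),
    IsOpen U ∧ U.Nonempty ∧ IsOpen V ∧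
    (∀ p ∈ U, (p.1, fun i : Fin (s + 1).toNat => p.2 i) ∈ V) ∧
    ContDiffOn ℝ ∞ h V ∧ IsOpen O ∧ ContDiffOn ℝ ∞ Ψ O ∧
    ∀ (T : Traj α₁ α₂) (y : ℝ → ℝ × ℝ),
      (∀ τ, y τ = h (T.state τ, fun i : Fin (s + 1).toNat => T.input i τ)) →
      ∀ t, (T.state t, fun i : ℕ => T.input i t) ∈ U →
        (fun i : Fin (k + 1) => iteratedDeriv i y t) ∈ O ∧
        (T.state t, T.input 0 t) = Ψ fun i : Fin (k + 1) => iteratedDeriv i y t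

end Pool.Agent.Work.MP_3007d7_an
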