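import Mathlib
import Pool.Agent.Work.MP_3007d7_an.Defs

-- merged part: Pool.Agent.Work.MP_3007d7_an.Core1
section
-- merged part: Pool.Agent.Work.MP_3007d7_an.Alg
section
/- Abstract calculus of vector fields over a field of functions. -/

namespace Pool.Agent.Work.MP_3007d7_an

open Module

/-- A field `K` of functions, a space of one-forms spanned by exact forms, vector fields being
the linear functionals on forms, closed under brackets. -/
structure LR (K : Type*) [Field K] (Ω : Type*) [AddCommGroup Ω] [Module K Ω] where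
  d : K →+ Ω
  d_mul : ∀ f g, d (f * g) = f • d g + g • d f
  span_d : Submodule.span K (Set.range d) = ⊤
  br : Dual K Ω → Dual K Ω → Dual K Ω
  br_apply : ∀ X Y f, br X Y (d f) = X (d (Y (d f))) - Y (d (X (d f)))

variable {K : Type*} [Field K] {Ω : Type*} [AddCommGroup Ω] [Module K Ω]

namespace LR

variable (S : LR K Ω)

theorem d_one : S.d 1 = 0 := by
  have h := S.d_mul 1 1
  simp only [mul_one, one_smul] at h
  exact left_eq_add.mp h

theorem d_natCast (n : ℕ) : S.d (n : K) = 0 := by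
  induction n with
  | zero => simp
  | succ n ih => simp [ih, S.d_one]

theorem d_ite (P : Prop) [Decidable P] : S.d (if P then 1 else 0) = 0 := by
  split_ifs <;> simp [S.d_one]

theorem d_negOnePow (n : ℕ) : S.d ((-1 : K) ^ n) = 0 := by
  rcases neg_one_pow_eq_or K n with h | h <;> simp [h, S.d_one]

theorem ext {X Y : Dual K Ω} (h : ∀ f, X (S.d f) = Y (S.d f)) : X = Y := by
  apply LinearMap.ext_on S.span_d
  rintro _ ⟨f, rfl⟩
  exact h f

theorem ap_mul (X : Dual K Ω) (f g : K) :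
    X (S.d (f * g)) = f * X (S.d g) + g * X (S.d f) := by
  simp [S.d_mul]

theorem br_add_left (X Y Z : Dual K Ω) : S.br (X + Y) Z = S.br X Z + S.br Y Z := by
  apply S.ext; intro f
  simp only [S.br_apply, LinearMap.add_apply, map_add]; ring

theorem br_zero_left (Z : Dual K Ω) : S.br 0 Z = 0 := by
  apply S.ext; intro f
  simp [S.br_apply]

theorem br_smul_left (c : K) (X Z : Dual K Ω) :
    S.br (c • X) Z = c • S.br X Z - Z (S.d c) • X := by
  apply S.ext; intro f
  simp only [S.br_apply, LinearMap.smul_apply, LinearMap.sub_apply, smul_eq_mul, S.ap_mul]; ring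

theorem br_skew (X Y : Dual K Ω) : S.br X Y = - S.br Y X := by
  apply S.ext; intro f
  simp only [S.br_apply, LinearMap.neg_apply]; ring

theorem br_sub_left (X Y Z : Dual K Ω) : S.br (X - Y) Z = S.br X Z - S.br Y Z := by
  apply S.ext; intro f
  simp only [S.br_apply, LinearMap.sub_apply, map_sub]; ring

/-- Jacobi identity. -/
theorem br_br (X Y Z : Dual K Ω) :
    S.br (S.br X Y) Z = S.br (S.br X Z) Y + S.br X (S.br Y Z) := by
  apply S.ext; intro f
  simp only [S.br_apply, LinearMap.add_apply, map_sub]; ring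

/-- Brackets of a span with a fixed field. -/
theorem br_mem_of_span {T : Set (Dual K Ω)} {U : Submodule K (Dual K Ω)} (Z : Dual K Ω)
    (hT : ∀ X ∈ T, X ∈ U) (hb : ∀ X ∈ T, S.br X Z ∈ U) {X : Dual K Ω}
    (hX : X ∈ Submodule.span K T) : S.br X Z ∈ U := by
  have : X ∈ U ∧ S.br X Z ∈ U := by
    induction hX using Submodule.span_induction with
    | mem x hx => exact ⟨hT x hx, hb x hx⟩
    | zero => simp [S.br_zero_left]
    | add x y _ _ hx hy =>
      rw [S.br_add_left]; exact ⟨U.add_mem hx.1 hy.1, U.add_mem hx.2 hy.2⟩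
    | smul c x _ hx =>
      rw [S.br_smul_left]
      exact ⟨U.smul_mem _ hx.1, U.sub_mem (U.smul_mem _ hx.2) (U.smul_mem _ hx.1)⟩
  exact this.2

/-- The `m`-th iterate of the derivation `D` on functions. -/
def it (D : Dual K Ω) (m : ℕ) (f : K) : K := (fun h => D (S.d h))^[m] f

@[simp] theorem it_zero (D : Dual K Ω) (f : K) : S.it D 0 f = f := rfl

theorem it_succ (D : Dual K Ω) (m : ℕ) (f : K) : S.it D (m + 1) f = D (S.d (S.it D m f)) := by
  simp [it, Function.iterate_succ_apply']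

theorem it_succ' (D : Dual K Ω) (m : ℕ) (f : K) : S.it D (m + 1) f = S.it D m (D (S.d f)) := by
  simp [it, Function.iterate_succ_apply]

theorem it_add (D : Dual K Ω) (m n : ℕ) (f : K) : S.it D (m + n) f = S.it D m (S.it D n f) := by
  simp [it, Function.iterate_add_apply]

theorem ap_it_succ (D X : Dual K Ω) (m : ℕ) (f : K) :
    X (S.d (S.it D (m + 1) f)) = S.br X D (S.d (S.it D m f)) + D (S.d (X (S.d (S.it D m f)))) := by
  rw [S.br_apply, S.it_succ]; ring

theorem it_neg (D : Dual K Ω) (m : ℕ) (f : K) : S.it D m (-f) = - S.it D m f := by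
  induction m with
  | zero => simp
  | succ m ih => simp [S.it_succ, ih]

theorem it_sign (D : Dual K Ω) (m e : ℕ) (f : K) :
    S.it D m ((-1) ^ e * f) = (-1) ^ e * S.it D m f := by
  rcases neg_one_pow_eq_or K e with h | h <;> simp [h, S.it_neg]

/-- Relative degree lemma. -/
theorem rel_deg (D : Dual K Ω) (g : ℤ → Dual K Ω) (hg : ∀ i, S.br (g i) D = g (i + 1))
    (ψ : K) (r : ℤ) (h0 : ∀ i < r, g i (S.d ψ) = 0) (m : ℕ) :
    (∀ i : ℤ, i + m < r → g i (S.d (S.it D m ψ)) = 0) ∧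
    (∀ i : ℤ, i + m = r → g i (S.d (S.it D m ψ)) = g r (S.d ψ)) := by
  induction m with
  | zero =>
    refine ⟨fun i hi => h0 i (by simpa using hi), fun i hi => ?_⟩
    have : i = r := by simpa using hi
    simp [this]
  | succ m ih =>
    refine ⟨fun i hi => ?_, fun i hi => ?_⟩
    · rw [S.ap_it_succ, hg, ih.1 (i + 1) (by push_cast at hi; omega),
        ih.1 i (by push_cast at hi; omega)]
      simp
    · rw [S.ap_it_succ, hg, ih.2 (i + 1) (by push_cast at hi; omega),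
        ih.1 i (by push_cast at hi; omega)]
      simp

end LR

/-- Membership in a span is detected by functionals. -/
theorem mem_of_forall_dual {W : Submodule K Ω} {v : Ω}
    (h : ∀ X : Dual K Ω, (∀ w ∈ W, X w = 0) → X v = 0) : v ∈ W := by
  by_contra hv
  obtain ⟨X, hX, hW⟩ := Submodule.exists_dual_map_eq_bot_of_notMem hv inferInstance
  refine hX (h X fun w hw => ?_)
  have : X w ∈ W.map X := Submodule.mem_map_of_mem hw
  rw [hW] at this
  simpa using this

theorem kill_span {T : Set Ω} {X : Dual K Ω} (h : ∀ w ∈ T, X w = 0) {v : Ω}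
    (hv : v ∈ Submodule.span K T) : X v = 0 := by
  have : Submodule.span K T ≤ LinearMap.ker X := Submodule.span_le.mpr fun w hw => h w hw
  exact this hv

/-- Pigeonhole principle for vectors in a small space modulo a subspace. -/
theorem pigeon {ι κ : Type*} [Fintype ι] [Fintype κ] (R : Submodule K Ω) (v : ι → Ω) (w : κ → Ω)
    (h : ∀ i, v i ∈ R ⊔ Submodule.span K (Set.range w))
    (hc : Fintype.card κ < Fintype.card ι) : ∃ c : ι → K, c ≠ 0 ∧ ∑ i, c i • v i ∈ R := by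
  classical
  have hdep : ¬ LinearIndependent K (fun i => R.mkQ (v i)) := by
    intro hli
    have hle : ∀ i, R.mkQ (v i) ∈ Submodule.span K (Set.range fun k => R.mkQ (w k)) := by
      intro i
      obtain ⟨r, hr, u, hu, huv⟩ := Submodule.mem_sup.mp (h i)
      rw [← huv, map_add, Submodule.mkQ_apply, (Submodule.Quotient.mk_eq_zero R).mpr hr, zero_add]
      have := Submodule.mem_map_of_mem (f := R.mkQ) hu
      rw [Submodule.map_span, ← Set.range_comp] at this
      exact this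
    have := Module.Finite.span_of_finite K (Set.finite_range fun k => R.mkQ (w k))
    have h1 := LinearIndependent.fintype_card_le_finrank
      (R := K) (M := Submodule.span K (Set.range fun k => R.mkQ (w k)))
      (b := fun i => ⟨R.mkQ (v i), hle i⟩)
      (LinearIndependent.of_comp (Submodule.subtype _) hli)
    have h2 := finrank_range_le_card (R := K) (fun k => R.mkQ (w k))
    unfold Set.finrank at h2
    omega
  rw [Fintype.not_linearIndependent_iff] at hdep
  obtain ⟨c, hc0, i, hi⟩ := hdep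
  refine ⟨c, fun h0 => hi (by simp [h0]), ?_⟩
  rw [← Submodule.Quotient.mk_eq_zero R, ← Submodule.mkQ_apply, map_sum]
  simpa using hc0

/-- Triangular elimination. -/
theorem tri_mem (M : Submodule K Ω) (ω : ℕ → Ω) (ξ : ℕ → Dual K Ω) (i0 : ℕ)
    (h1 : ∀ l, i0 ≤ l → ξ l (ω l) ≠ 0) (h2 : ∀ l l', i0 ≤ l → l' < l → ξ l (ω l') = 0)
    (h3 : ∀ l, i0 ≤ l → ∀ m ∈ M, ξ l m = 0) {ρ : Ω}
    (hρ : ρ ∈ M ⊔ Submodule.span K (Set.range ω)) (h4 : ∀ l, i0 ≤ l → ξ l ρ = 0) :
    ρ ∈ M ⊔ Submodule.span K (ω '' Set.Iio i0) := by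
  have hex : ∃ L, ρ ∈ M ⊔ Submodule.span K (ω '' Set.Iio L) := by
    obtain ⟨m, hm, u, hu, rfl⟩ := Submodule.mem_sup.mp hρ
    have : ∃ L, u ∈ Submodule.span K (ω '' Set.Iio L) := by
      clear hρ h4
      induction hu using Submodule.span_induction with
      | mem x hx =>
        obtain ⟨l, rfl⟩ := hx
        exact ⟨l + 1, Submodule.subset_span ⟨l, by simp, rfl⟩⟩
      | zero => exact ⟨0, Submodule.zero_mem _⟩
      | add x y _ _ hx hy =>
        obtain ⟨a, ha⟩ := hx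
        obtain ⟨b, hb⟩ := hy
        refine ⟨max a b, Submodule.add_mem _ ?_ ?_⟩
        · exact Submodule.span_mono (Set.image_mono (Set.Iio_subset_Iio (le_max_left a b))) ha
        · exact Submodule.span_mono (Set.image_mono (Set.Iio_subset_Iio (le_max_right a b))) hb
      | smul c x _ hx =>
        obtain ⟨a, ha⟩ := hx
        exact ⟨a, Submodule.smul_mem _ _ ha⟩
    obtain ⟨L, hL⟩ := this
    exact ⟨L, Submodule.add_mem_sup hm hL⟩
  obtain ⟨L, hL⟩ := hex
  induction L with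
  | zero =>
    exact sup_le_sup_left (Submodule.span_mono (Set.image_mono
      (Set.Iio_subset_Iio (Nat.zero_le _)))) M hL
  | succ L ih =>
    by_cases hle : L + 1 ≤ i0
    · exact sup_le_sup_left (Submodule.span_mono (Set.image_mono (Set.Iio_subset_Iio hle))) M hL
    apply ih
    have hI : Set.Iio (L + 1) = insert L (Set.Iio L) := by
      ext x; simp only [Set.mem_Iio, Set.mem_insert_iff]; omega
    rw [hI, Set.image_insert_eq, Submodule.span_insert, ← sup_assoc, sup_comm M, sup_assoc] at hL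
    obtain ⟨a, ha, u, hu, hau⟩ := Submodule.mem_sup.mp hL
    obtain ⟨c, rfl⟩ := Submodule.mem_span_singleton.mp ha
    have hξu : ξ L u = 0 := by
      obtain ⟨m, hm, u', hu', rfl⟩ := Submodule.mem_sup.mp hu
      rw [map_add, h3 L (by omega) m hm, zero_add]
      refine kill_span ?_ hu'
      rintro _ ⟨l', hl', rfl⟩
      exact h2 L l' (by omega) hl'
    have h5 := h4 L (by omega)
    rw [← hau, map_add, hξu, add_zero, map_smul, smul_eq_mul] at h5
    have hc : c = 0 := (mul_eq_zero.mp h5).resolve_right (h1 L (by omega))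
    rw [← hau, hc, zero_smul, zero_add]
    exact hu

end Pool.Agent.Work.MP_3007d7_an
end

-- merged part: Pool.Agent.Work.MP_3007d7_an.Poly
section
/- Kernel vectors of twisted Hankel matrices, and a degree bound for antisymmetric polynomials. -/

namespace Pool.Agent.Work.MP_3007d7_an

open Finset Polynomial

variable {K : Type*} [Field K]

theorem top_index (c : ℕ → K) (d : ℕ) (h : ∃ j ≤ d, c j ≠ 0) :
    ∃ e ≤ d, c e ≠ 0 ∧ ∀ F : ℕ → K,
      ∑ j ∈ range (d + 1), c j * F j = ∑ j ∈ range (e + 1), c j * F j := by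
  induction d with
  | zero =>
    obtain ⟨j, hj, hc⟩ := h
    obtain rfl : j = 0 := by omega
    exact ⟨0, le_rfl, hc, fun _ => rfl⟩
  | succ d ih =>
    by_cases hd : c (d + 1) = 0
    · obtain ⟨j, hj, hc⟩ := h
      have hj' : j ≤ d := by
        by_contra hlt
        obtain rfl : j = d + 1 := by omega
        exact hc hd
      obtain ⟨e, he, hce, hF⟩ := ih ⟨j, hj', hc⟩
      refine ⟨e, by omega, hce, fun F => ?_⟩
      rw [sum_range_succ, hd, zero_mul, add_zero, hF]
    · exact ⟨d + 1, le_rfl, hd, fun _ => rfl⟩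

section Hankel

variable (δ : K →+ K) (hδ : ∀ a b, δ (a * b) = a * δ b + b * δ a)
  (H : ℕ → ℕ → K) (hH : ∀ m j, H (m + 1) j = H m (j + 1) + δ (H m j))

include hδ hH

theorem hankel_shift (c : ℕ → K) (d M : ℕ) (hc : c d = 1)
    (hk : ∀ m < M, ∑ j ∈ range (d + 1), c j * H m j = 0) (t : ℕ) :
    ∃ c' : ℕ → K, c' (d + t) = 1 ∧
      ∀ m, m + t < M → ∑ j ∈ range (d + t + 1), c' j * H m j = 0 := by
  induction t with
  | zero => exact ⟨c, hc, fun m hm => hk m hm⟩
  | succ t ih =>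
    obtain ⟨c', h1, h2⟩ := ih
    refine ⟨fun j => (if j = 0 then 0 else c' (j - 1)) - (if j ≤ d + t then δ (c' j) else 0),
      ?_, fun m hm => ?_⟩
    · have : ¬ (d + (t + 1) ≤ d + t) := by omega
      simp [this, h1]
    · have e1 := h2 (m + 1) (by omega)
      have e2 := congrArg δ (h2 m (by omega))
      rw [map_sum, map_zero] at e2
      have e3 : d + (t + 1) + 1 = (d + t + 1) + 1 := by omega
      simp only [sub_mul, sum_sub_distrib]
      rw [e3, sum_range_succ' (fun j => (if j = 0 then 0 else c' (j - 1)) * H m j),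
        sum_range_succ (fun j => (if j ≤ d + t then δ (c' j) else 0) * H m j)]
      have e4 : ∑ j ∈ range (d + t + 1), (if j ≤ d + t then δ (c' j) else 0) * H m j =
          ∑ j ∈ range (d + t + 1), δ (c' j) * H m j := by
        refine sum_congr rfl fun j hj => ?_
        rw [if_pos (by have := mem_range.mp hj; omega)]
      have e5 : ∑ j ∈ range (d + t + 1), (c' j * H m (j + 1) - δ (c' j) * H m j) =
          ∑ j ∈ range (d + t + 1), c' j * H (m + 1) j -
            ∑ j ∈ range (d + t + 1), δ (c' j * H m j) := by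
        rw [← sum_sub_distrib]
        refine sum_congr rfl fun j _ => ?_
        rw [hH, hδ]; ring
      rw [e1, e2, sum_sub_distrib] at e5
      rw [e4]
      simpa using e5

theorem hankel_extend (c f : ℕ → K) (d e M : ℕ) (hc : c d = 1)
    (hk : ∀ m < M, ∑ j ∈ range (d + 1), c j * H m j = 0)
    (hf : ∀ j < d, ∑ m ∈ range (e + 1), f m * H m j = 0) (j : ℕ) (hj : e + j < M + d) :
    ∑ m ∈ range (e + 1), f m * H m j = 0 := by
  induction j using Nat.strong_induction_on with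
  | _ j ih =>
    by_cases hjd : j < d
    · exact hf j hjd
    obtain ⟨t, rfl⟩ : ∃ t, j = d + t := ⟨j - d, by omega⟩
    obtain ⟨c', h1, h2⟩ := hankel_shift δ hδ H hH c d M hc hk t
    have e1 : ∑ m ∈ range (e + 1), f m * ∑ j ∈ range (d + t + 1), c' j * H m j = 0 := by
      refine sum_eq_zero fun m hm => ?_
      rw [h2 m (by have := mem_range.mp hm; omega), mul_zero]
    have e2 : ∑ m ∈ range (e + 1), f m * ∑ j ∈ range (d + t + 1), c' j * H m j =
        ∑ j ∈ range (d + t + 1), c' j * ∑ m ∈ range (e + 1), f m * H m j := by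
      simp only [mul_sum]
      rw [sum_comm]
      exact sum_congr rfl fun j _ => sum_congr rfl fun m _ => by ring
    rw [e2, sum_range_succ, h1, one_mul, sum_eq_zero, zero_add] at e1
    · exact e1
    · intro j hj'
      have := mem_range.mp hj'
      rw [ih j this (by omega), mul_zero]

theorem hankel_pade (c : ℕ → K) (d M : ℕ) (hc : ∃ j ≤ d, c j ≠ 0)
    (hk : ∀ m < M, ∑ j ∈ range (d + 1), c j * H m j = 0) :
    ∃ f : ℕ → K, (∃ m ≤ d, f m ≠ 0) ∧ ∀ j < M, ∑ m ∈ range (d + 1), f m * H m j = 0 := by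
  obtain ⟨e, hed, hce, hF⟩ := top_index c d hc
  have hdep : ¬ LinearIndependent K (fun (m : Fin (e + 1)) (j : Fin e) => H m j) := by
    intro hli
    have := hli.fintype_card_le_finrank
    simp at this
  rw [Fintype.not_linearIndependent_iff] at hdep
  obtain ⟨g, hg, m0, hm0⟩ := hdep
  let f : ℕ → K := fun m => if h : m < e + 1 then g ⟨m, h⟩ else 0
  have hf1 : ∀ j, ∑ m ∈ range (d + 1), f m * H m j = ∑ m ∈ range (e + 1), f m * H m j := by
    intro j
    symm
    refine sum_subset (range_subset_range.mpr (by omega)) fun m _ hm => ?_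
    have : ¬ m < e + 1 := by simpa using hm
    simp only [f, dif_neg this, zero_mul]
  have hf2 : ∀ j < e, ∑ m ∈ range (e + 1), f m * H m j = 0 := by
    intro j hj
    have := congrFun hg ⟨j, hj⟩
    simp only [Finset.sum_apply, Pi.smul_apply, smul_eq_mul, Pi.zero_apply] at this
    rw [← this, ← Fin.sum_univ_eq_sum_range (fun m => f m * H m j)]
    refine sum_congr rfl fun m _ => ?_
    simp only [f, dif_pos m.2]
  refine ⟨f, ⟨m0, by have := m0.2; omega, by simpa only [f, dif_pos m0.2] using hm0⟩,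
    fun j hj => ?_⟩
  rw [hf1]
  refine hankel_extend δ hδ H hH (fun j => c j / c e) f e e M (div_self hce) (fun m hm => ?_)
    hf2 j (by omega)
  have := hk m hm
  rw [hF] at this
  simp only [div_mul_eq_mul_div]
  rw [← sum_div, this, zero_div]

theorem hankel_rigid (c : ℕ → K) (D J : ℕ) (hc : c D = 1)
    (hk : ∀ m < J, ∑ j ∈ range (D + 1), c j * H m j = 0)
    (hmin : ∀ c' : ℕ → K, (∀ m < J, ∑ j ∈ range D, c' j * H m j = 0) → ∀ j < D, c' j = 0)
    (c' : ℕ → K) (hc' : ∀ m < D, ∑ j ∈ range D, c' j * H m j = 0) : ∀ j < D, c' j = 0 := by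
  intro j hj
  by_contra hne
  obtain ⟨d, rfl⟩ : ∃ d, D = d + 1 := ⟨D - 1, by omega⟩
  obtain ⟨f, hf0, hf⟩ := hankel_pade δ hδ H hH c' d (d + 1) ⟨j, by omega, hne⟩ hc'
  have hf' : ∀ j < J, ∑ m ∈ range (d + 1), f m * H m j = 0 := fun j hj =>
    hankel_extend δ hδ H hH c f (d + 1) d J hc hk hf j (by omega)
  obtain ⟨c'', ⟨j', hj', hc0⟩, hc''⟩ := hankel_pade (-δ)
    (fun a b => by simp only [AddMonoidHom.neg_apply, hδ]; ring) (fun j m => H m j)
    (fun j m => by simp only [AddMonoidHom.neg_apply, hH]; ring) f d J hf0 hf'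
  exact hc0 (hmin c'' hc'' j' (by omega))

end Hankel

theorem coeff_X_mul_derivative' (p : K[X]) (n : ℕ) :
    (X * derivative p).coeff n = n * p.coeff n := by
  cases n with
  | zero => simp
  | succ n => rw [coeff_X_mul, coeff_derivative]; push_cast; ring

/-- Degree bound for antisymmetric Pade numerators. -/
theorem poly_bound [CharZero K] (p : K[X]) (hp : p ≠ 0) (hs : p.comp (1 - X) = -p) (α M : ℕ)
    (a : K) (hd : X ^ (M + 1) ∣ p * (1 - X) ^ (α + 1) - C a) : 2 * M + 1 ≤ p.natDegree := by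
  have hcop : IsCoprime (X : K[X]) (1 - X) := ⟨1, 1, by ring⟩
  obtain ⟨q, hq⟩ := hd
  have h1 : X ^ M ∣ (1 - X) ^ α * ((1 - X) * derivative p - ((α : K[X]) + 1) * p) := by
    refine ⟨((M : K[X]) + 1) * q + X * derivative q, ?_⟩
    have := congrArg derivative hq
    simp only [derivative_sub, derivative_mul, derivative_pow_succ, derivative_C, derivative_X,
      derivative_one, map_add, map_natCast, map_one] at this
    linear_combination this
  obtain ⟨φ, hφ⟩ := (hcop.pow (m := M) (n := α)).dvd_of_dvd_mul_left h1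
  have hs' : (derivative p).comp (1 - X) = derivative p := by
    have := congrArg derivative hs
    rw [derivative_comp] at this
    simp only [derivative_sub, derivative_one, derivative_X, derivative_neg] at this
    linear_combination -this
  have hφ' : X * derivative p + ((α : K[X]) + 1) * p = (1 - X) ^ M * φ.comp (1 - X) := by
    have := congrArg (fun r => r.comp (1 - X)) hφ
    simp only [sub_comp, mul_comp, add_comp, pow_comp, X_comp, one_comp, natCast_comp, hs,
      hs'] at this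
    linear_combination this
  have h2 : derivative p = X ^ M * φ + (1 - X) ^ M * φ.comp (1 - X) := by
    linear_combination hφ + hφ'
  have h3 : ((α : K[X]) + 1) * p = (1 - X) ^ (M + 1) * φ.comp (1 - X) - X ^ (M + 1) * φ := by
    linear_combination hφ' - X * h2
  have hα : ((α : K[X]) + 1) ≠ 0 := by exact_mod_cast Nat.succ_ne_zero α
  have hφ0 : φ ≠ 0 := by
    rintro rfl
    simp only [zero_comp, mul_zero, sub_zero] at h3
    exact hp ((mul_eq_zero.mp h3).resolve_left hα)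
  obtain ⟨ψ, hψ⟩ : ∃ ψ : K[X], ψ = ((α + M + 2 : ℕ) : K[X]) * φ + X * derivative φ := ⟨_, rfl⟩
  have h4 : X ^ M * ψ = (1 - X) ^ M * (-ψ.comp (1 - X)) := by
    have := congrArg derivative h3
    simp only [derivative_sub, derivative_mul, derivative_pow_succ, derivative_X, derivative_comp,
      derivative_one, map_add, map_natCast, map_one, derivative_natCast] at this
    simp only [hψ, mul_comp, add_comp, X_comp, natCast_comp]
    push_cast
    linear_combination this - ((α : K[X]) + 1) * h2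
  have hψc : ∀ n, ψ.coeff n = ((α + M + 2 + n : ℕ) : K) * φ.coeff n := by
    intro n
    rw [hψ, coeff_add, coeff_X_mul_derivative', ← C_eq_natCast, coeff_C_mul]
    push_cast; ring
  have hψ0 : ψ ≠ 0 := by
    intro h
    have := hψc φ.natDegree
    rw [h, coeff_zero] at this
    refine hφ0 (leadingCoeff_eq_zero.mp ((mul_eq_zero.mp this.symm).resolve_left ?_))
    exact Nat.cast_ne_zero.mpr (by omega)
  have hψd : ψ.natDegree ≤ φ.natDegree := by
    rw [natDegree_le_iff_coeff_eq_zero]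
    intro n hn
    rw [hψc, coeff_eq_zero_of_natDegree_lt hn, mul_zero]
  have hX1 : (1 - X : K[X]).natDegree = 1 := by
    rw [← neg_sub, natDegree_neg, ← C_1, natDegree_X_sub_C]
  have h5 : M ≤ ψ.natDegree := by
    have hdv : (1 - X) ^ M ∣ ψ :=
      (hcop.symm.pow (m := M) (n := M)).dvd_of_dvd_mul_left ⟨_, h4⟩
    have := natDegree_le_of_dvd hdv hψ0
    rwa [natDegree_pow, hX1, mul_one] at this
  have h6 : M + φ.natDegree ≤ p.natDegree := by
    have : (X ^ M * φ).natDegree = M + φ.natDegree := by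
      rw [natDegree_mul (pow_ne_zero _ X_ne_zero) hφ0, natDegree_X_pow]
    rw [← this, ← hφ, natDegree_le_iff_coeff_eq_zero]
    intro n hn
    have e : ((α : K[X]) + 1) = C ((α + 1 : ℕ) : K) := by simp
    rw [sub_mul, one_mul, coeff_sub, coeff_sub, coeff_X_mul_derivative', coeff_derivative, e,
      coeff_C_mul, coeff_eq_zero_of_natDegree_lt hn,
      coeff_eq_zero_of_natDegree_lt (by omega : p.natDegree < n + 1)]
    simp
  have h7 : p.natDegree ≠ 2 * M := by
    intro h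
    have hl : (1 - X : K[X]).leadingCoeff = -1 := by
      rw [← neg_sub, leadingCoeff_neg, ← C_1, leadingCoeff_X_sub_C]
    have := congrArg leadingCoeff hs
    rw [leadingCoeff_comp (by omega), hl, h, pow_mul, leadingCoeff_neg] at this
    have h2' : (2 : K) * p.leadingCoeff = 0 := by linear_combination this
    exact hp (leadingCoeff_eq_zero.mp ((mul_eq_zero.mp h2').resolve_left two_ne_zero))
  omega

theorem tri_eval (c : ℕ → K) (d : ℕ) (hc : ∃ j ≤ d, c j ≠ 0) (F : ℕ → ℕ → K) (r : ℕ)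
    (hd : d ≤ r) (h0 : ∀ a b, a + b < r → F a b = 0) (h1 : ∀ a b, a + b = r → F a b ≠ 0)
    (h : ∀ b, ∑ a ∈ range (d + 1), c a * F a b = 0) : False := by
  obtain ⟨e, he, hce, hF⟩ := top_index c d hc
  have := h (r - e)
  rw [hF (fun a => F a (r - e)), sum_range_succ, sum_eq_zero, zero_add] at this
  · exact mul_ne_zero hce (h1 e _ (by omega)) this
  · intro a ha
    have := mem_range.mp ha
    rw [h0 a _ (by omega), mul_zero]

section Comb

variable (c : ℕ → ℤ → K) (J : ℕ) (rec0 : ∀ k, c 0 k + c 0 (k - 1) = 0)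
  (recS : ∀ t k, t + 1 ≤ J → c t k = c (t + 1) k + c (t + 1) (k - 1))

include rec0 recS

theorem comb_zero (k0 : ℤ) (h : ∀ t ≤ J, c t k0 = 0) (k : ℤ) : ∀ t ≤ J, c t k = 0 := by
  have hstep : ∀ k, (∀ t ≤ J, c t k = 0) ↔ (∀ t ≤ J, c t (k - 1) = 0) := by
    intro k
    constructor
    · intro hk t ht
      cases t with
      | zero => have := rec0 k; rwa [hk 0 ht, zero_add] at this
      | succ t =>
        have := recS t k ht
        rw [hk t (by omega), hk (t + 1) ht, zero_add] at this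
        exact this.symm
    · intro hk t ht
      induction t with
      | zero => have := rec0 k; rwa [hk 0 ht, add_zero] at this
      | succ t ih =>
        have := recS t k ht
        rw [ih (by omega), hk (t + 1) ht, add_zero] at this
        exact this.symm
  have hall : ∀ k, (∀ t ≤ J, c t k = 0) ↔ (∀ t ≤ J, c t 0 = 0) := by
    intro k
    induction k using Int.induction_on with
    | zero => rfl
    | succ n ih => rw [hstep, add_sub_cancel_right, ih]
    | pred n ih => rw [← hstep, ih]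
  exact (hall k).mpr ((hall k0).mp h)

theorem comb_bern (ω : ℤ) (s : ℕ) (hs : s ≤ J) :
    ∑ x ∈ antidiagonal s, C ((-1) ^ (x.2 + 1) * c x.1 (ω + x.2)) * X ^ x.1 * (1 - X) ^ x.2 =
      ∑ j ∈ range (s + 1), C (c j (ω - 1)) * (X : K[X]) ^ j := by
  induction s with
  | zero =>
    have := rec0 ω
    have e : c 0 (ω - 1) = - c 0 ω := by linear_combination this
    simp [e]
  | succ s ih =>
    rw [sum_range_succ, ← ih (by omega)]
    let a : ℕ → ℕ → K := fun u v => (-1) ^ (v + 1) * c u (ω + v)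
    let A : ℕ × ℕ → K[X] := fun x =>
      C (if x.1 = 0 then 0 else a (x.1 - 1) x.2) * X ^ x.1 * (1 - X) ^ x.2
    let B : ℕ × ℕ → K[X] := fun x =>
      C (if x.2 = 0 then c x.1 (ω - 1) else a x.1 (x.2 - 1)) * X ^ x.1 * (1 - X) ^ x.2
    have h1 : ∑ x ∈ antidiagonal (s + 1),
        C ((-1) ^ (x.2 + 1) * c x.1 (ω + x.2)) * X ^ x.1 * (1 - X) ^ x.2 =
        ∑ x ∈ antidiagonal (s + 1), A x + ∑ x ∈ antidiagonal (s + 1), B x := by
      rw [← sum_add_distrib]
      refine sum_congr rfl fun x hx => ?_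
      obtain ⟨u, v⟩ := x
      have huv : u + v = s + 1 := mem_antidiagonal.mp hx
      simp only [A, B]
      rw [← add_mul, ← add_mul, ← C_add]
      congr 3
      rcases u with _ | u <;> rcases v with _ | v
      · omega
      · have := rec0 (ω + (v + 1 : ℕ))
        have e : ω + ((v + 1 : ℕ) : ℤ) - 1 = ω + v := by push_cast; ring
        rw [e] at this
        simp only [a, if_true, Nat.add_one_ne_zero, if_false, Nat.add_sub_cancel]
        linear_combination (-1) ^ v * this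
      · have := recS u ω (by omega)
        simp only [a, if_true, Nat.add_one_ne_zero, if_false, Nat.add_sub_cancel, Nat.cast_zero,
          add_zero]
        linear_combination this
      · have := recS u (ω + (v + 1 : ℕ)) (by omega)
        have e : ω + ((v + 1 : ℕ) : ℤ) - 1 = ω + v := by push_cast; ring
        rw [e] at this
        simp only [a, Nat.add_one_ne_zero, if_false, Nat.add_sub_cancel]
        linear_combination (-1) ^ (v + 1) * this
    rw [h1, Nat.sum_antidiagonal_succ, Nat.sum_antidiagonal_succ']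
    simp only [A, B, if_true, Nat.add_one_ne_zero, if_false, Nat.add_sub_cancel, C_0, zero_mul,
      zero_add, pow_zero, mul_one]
    rw [add_comm (C (c (s + 1) (ω - 1)) * X ^ (s + 1)), ← add_assoc, ← sum_add_distrib]
    congr 1
    refine sum_congr rfl fun x _ => ?_
    simp only [a]
    ring

theorem comb_main [CharZero K] (ω : ℤ) (n M α : ℕ) (hn : n ≤ J) (hM : M ≤ J)
    (hne : ∃ t ≤ J, ∃ k, c t k ≠ 0) (hα : ∀ t, n < t → t ≤ J → c t (ω - 1) = 0)
    (hβ : ∀ u v : ℕ, u + v = n → (-1) ^ u * c u (ω + v) + (-1) ^ v * c v (ω + u) = 0)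
    (hγ : ∀ t, 1 ≤ t → t ≤ M → c t (ω - 1 - (α + 1 : ℕ)) = 0) : 2 * M + 1 ≤ n := by
  obtain ⟨p, hp⟩ : ∃ p : K[X], p = ∑ j ∈ range (n + 1), C (c j (ω - 1)) * X ^ j := ⟨_, rfl⟩
  have hco : ∀ t, p.coeff t = if t ≤ n then c t (ω - 1) else 0 := by
    intro t
    simp only [hp, finsetSum_coeff, coeff_C_mul_X_pow, sum_ite_eq, mem_range, Nat.lt_succ_iff]
  have hco' : ∀ t ≤ J, p.coeff t = c t (ω - 1) := by
    intro t ht
    rw [hco]
    split_ifs with h
    · rfl
    · exact (hα t (by omega) ht).symm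
  have hdeg : p.natDegree ≤ n := by
    rw [natDegree_le_iff_coeff_eq_zero]
    intro t ht
    rw [hco, if_neg (by omega)]
  have hp0 : p ≠ 0 := by
    rintro h
    obtain ⟨t, ht, k, hk⟩ := hne
    refine hk (comb_zero c J rec0 recS (ω - 1) (fun t ht => ?_) k t ht)
    rw [← hco' t ht, h, coeff_zero]
  have hsym : p.comp (1 - X) = -p := by
    rw [hp, ← comb_bern c J rec0 recS ω n hn, Polynomial.sum_comp, ← Nat.sum_antidiagonal_swap,
      ← sum_neg_distrib]
    refine sum_congr rfl fun x hx => ?_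
    obtain ⟨u, v⟩ := x
    have huv : u + v = n := mem_antidiagonal.mp hx
    simp only [Prod.fst_swap, Prod.snd_swap, mul_comp, C_comp, pow_comp, X_comp, sub_comp,
      one_comp, sub_sub_cancel]
    have h := hβ u v huv
    have e : (-1) ^ (u + 1) * c v (ω + u) = -((-1) ^ (v + 1) * c u (ω + v)) := by
      have h1 : ((-1 : K) ^ u) * (-1) ^ u = 1 := by rw [← mul_pow]; simp
      have h2 : ((-1 : K) ^ v) * (-1) ^ v = 1 := by rw [← mul_pow]; simp
      linear_combination (-(-1) ^ u * (-1) ^ v) * h + (-1) ^ v * c u (ω + v) * h1 +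
        (-1) ^ u * c v (ω + u) * h2
    rw [e, C_neg]
    ring
  have hr : ∀ r : ℕ, ∀ t ≤ J, (p * (1 - X) ^ r).coeff t = (-1) ^ r * c t (ω - 1 - r) := by
    intro r
    induction r with
    | zero => intro t ht; simp [hco' t ht]
    | succ r ih =>
      intro t ht
      have e : ω - 1 - ((r + 1 : ℕ) : ℤ) = ω - 1 - r - 1 := by push_cast; ring
      rw [pow_succ, ← mul_assoc, mul_sub, mul_one, coeff_sub, ih t ht, e]
      cases t with
      | zero =>
        rw [coeff_mul_X_zero]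
        linear_combination (-1) ^ r * rec0 (ω - 1 - r)
      | succ t =>
        rw [coeff_mul_X, ih t (by omega)]
        linear_combination (-1) ^ (r + 1) * recS t (ω - 1 - r) ht
  have := poly_bound p hp0 hsym α M ((p * (1 - X) ^ (α + 1)).coeff 0) (by
    rw [X_pow_dvd_iff]
    intro t ht
    rw [coeff_sub, coeff_C]
    split_ifs with h
    · rw [h, sub_self]
    · rw [hr _ t (by omega), hγ t (by omega) (by omega), mul_zero, sub_zero])
  omega

end Comb

end Pool.Agent.Work.MP_3007d7_an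
end

-- merged part: Pool.Agent.Work.MP_3007d7_an.Core1
section
/- The bracket table of the two chains of vector fields. -/

namespace Pool.Agent.Work.MP_3007d7_an

open Module Finset

variable {K : Type*} [Field K] {Ω : Type*} [AddCommGroup Ω] [Module K Ω]

/-- Span of `g 0, ..., g τ`. -/
def Dl (g : ℤ → Dual K Ω) (τ : ℤ) : Submodule K (Dual K Ω) :=
  Submodule.span K (g '' Set.Icc 0 τ)

/-- Span of `g i, s i` for `0 ≤ i < t`. -/
def Wd (g s : ℤ → Dual K Ω) (t : ℕ) : Submodule K (Dual K Ω) :=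
  Dl g (t - 1) ⊔ Submodule.span K ((fun j : ℕ => s j) '' (range t : Finset ℕ))

/-- Fields killing a given form. -/
def Kil (v : Ω) : Submodule K (Dual K Ω) := LinearMap.ker (LinearMap.applyₗ v)

theorem mem_Kil {v : Ω} {X : Dual K Ω} : X ∈ (Kil v : Submodule K (Dual K Ω)) ↔ X v = 0 :=
  Iff.rfl

section Dl

variable {g s : ℤ → Dual K Ω}

theorem Dl_mono {a b : ℤ} (h : a ≤ b) : Dl g a ≤ Dl g b :=
  Submodule.span_mono (Set.image_mono (Set.Icc_subset_Icc_right h))

theorem mem_Dl {i τ : ℤ} (h0 : 0 ≤ i) (h1 : i ≤ τ) : g i ∈ Dl g τ :=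
  Submodule.subset_span ⟨i, ⟨h0, h1⟩, rfl⟩

theorem Dl_le {τ : ℤ} {U : Submodule K (Dual K Ω)} (h : ∀ i, 0 ≤ i → i ≤ τ → g i ∈ U) :
    Dl g τ ≤ U := by
  refine Submodule.span_le.mpr ?_
  rintro _ ⟨i, hi, rfl⟩
  exact h i hi.1 hi.2

theorem Dl_top {τ : ℤ} {X : Dual K Ω} (hX : X ∈ Dl g τ) : ∃ c : K, X - c • g τ ∈ Dl g (τ - 1) := by
  have : Dl g τ ≤ Submodule.span K {g τ} ⊔ Dl g (τ - 1) := by
    refine Dl_le fun i h0 h1 => ?_
    by_cases h : i = τ
    · exact Submodule.mem_sup_left (h ▸ Submodule.mem_span_singleton_self _)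
    · exact Submodule.mem_sup_right (mem_Dl h0 (by omega))
  obtain ⟨a, ha, u, hu, rfl⟩ := Submodule.mem_sup.mp (this hX)
  obtain ⟨c, rfl⟩ := Submodule.mem_span_singleton.mp ha
  exact ⟨c, by simpa using hu⟩

theorem Wd_le {t : ℕ} {U : Submodule K (Dual K Ω)} (h1 : ∀ i : ℤ, 0 ≤ i → i < t → g i ∈ U)
    (h2 : ∀ j : ℕ, j < t → s j ∈ U) : Wd g s t ≤ U := by
  refine sup_le (Dl_le fun i h0 h => h1 i h0 (by omega)) (Submodule.span_le.mpr ?_)
  rintro _ ⟨j, hj, rfl⟩
  exact h2 j (by simpa using hj)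

theorem Wd_decomp {d : ℕ} {τ : ℤ} (hd : d ≤ τ) {X : Dual K Ω} (hX : X ∈ Wd g s (d + 1) ⊔ Dl g τ) :
    ∃ c : ℕ → K, X - ∑ j ∈ range (d + 1), c j • s j ∈ Dl g τ := by
  have : Wd g s (d + 1) ⊔ Dl g τ ≤
      Submodule.span K ((fun j : ℕ => s j) '' (range (d + 1) : Finset ℕ)) ⊔ Dl g τ := by
    refine sup_le (sup_le (le_sup_of_le_right (Dl_mono (by push_cast; omega))) le_sup_left)
      le_sup_right
  obtain ⟨a, ha, u, hu, rfl⟩ := Submodule.mem_sup.mp (this hX)
  obtain ⟨c, rfl⟩ := (Submodule.mem_span_image_finset_iff_exists_fun' K).mp ha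
  exact ⟨c, by simpa using hu⟩

end Dl

theorem LR.br_zero_right (S : LR K Ω) (Z : Dual K Ω) : S.br Z 0 = 0 := by
  rw [S.br_skew, S.br_zero_left, neg_zero]

theorem LR.ad_Dl (S : LR K Ω) {D : Dual K Ω} {g : ℤ → Dual K Ω}
    (hg : ∀ i, S.br (g i) D = g (i + 1)) {τ : ℤ} {X : Dual K Ω} (hX : X ∈ Dl g τ) :
    S.br X D ∈ Dl g (τ + 1) := by
  refine S.br_mem_of_span D ?_ ?_ hX
  · rintro _ ⟨i, hi, rfl⟩
    exact mem_Dl hi.1 (by have := hi.2; omega)
  · rintro _ ⟨i, hi, rfl⟩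
    rw [hg]
    exact mem_Dl (by have := hi.1; omega) (by have := hi.2; omega)

theorem LR.Dl_kill (S : LR K Ω) {D : Dual K Ω} {g : ℤ → Dual K Ω}
    (hg : ∀ i, S.br (g i) D = g (i + 1)) {ψ : K} {r : ℤ} (h0 : ∀ i < r, g i (S.d ψ) = 0)
    {τ : ℤ} {X : Dual K Ω} (hX : X ∈ Dl g τ) (m : ℕ) (hm : τ + m < r) :
    X (S.d (S.it D m ψ)) = 0 := by
  have : Dl g τ ≤ Kil (S.d (S.it D m ψ)) :=
    Dl_le fun i _ hi => (S.rel_deg D g hg ψ r h0 m).1 i (by omega)
  exact this hX

/-- The data extracted from a flat output of low order. -/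
structure Hyp (S : LR K Ω) (D : Dual K Ω) (g s : ℤ → Dual K Ω) (Y Φ E : K) (L p : ℕ) (ρ : ℤ) :
    Prop where
  hg : ∀ i, S.br (g i) D = g (i + 1)
  hs : ∀ i, S.br (s i) D = s (i + 1)
  gs : ∀ i j, i < 0 → j < 0 → S.br (g i) (s j) = 0
  ss : ∀ i j, i < 0 → j < 0 → S.br (s i) (s j) = 0
  dY : D (S.d Y) = Φ * E
  E0 : E ≠ 0
  gE : ∀ i, g i (S.d E) = 0
  GE : ∀ i j, S.br (g i) (s j) (S.d E) = 0
  sY : ∀ k m : ℕ, p ≤ k → k + m = L + p → s (-1 - k) (S.d Y) = (-1) ^ m * S.it D m Φ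
  sΦ : ∀ j : ℤ, j < -1 - p → s j (S.d Φ) = 0
  gY0 : ∀ i < ρ, g i (S.d Y) = 0
  gY1 : g ρ (S.d Y) ≠ 0
  W1 : ∀ i : ℕ, g i ∈ Wd g s L
  W2 : ∀ (i : ℕ) (j : ℤ), j ≤ i → S.br (g i) (s j) ∈ Wd g s (i + 1)

namespace Hyp

variable {S : LR K Ω} {D : Dual K Ω} {g s : ℤ → Dual K Ω} {Y Φ E : K} {L p : ℕ} {ρ : ℤ}
  (h : Hyp S D g s Y Φ E L p ρ)

include h

theorem adG (i j : ℤ) :
    S.br (S.br (g i) (s j)) D = S.br (g (i + 1)) (s j) + S.br (g i) (s (j + 1)) := by
  rw [S.br_br, h.hg, h.hs]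

theorem G_zero (i j : ℤ) (hij : i + j + 1 < 0) : S.br (g i) (s j) = 0 := by
  have hA : ∀ n : ℕ, ∀ j : ℤ, n + j < 0 → S.br (g (n - 1)) (s j) = 0 := by
    intro n
    induction n with
    | zero => intro j hj; exact h.gs _ _ (by simp) (by simpa using hj)
    | succ n ih =>
      intro j hj
      push_cast at hj
      have := h.adG (n - 1) j
      rw [ih j (by omega), ih (j + 1) (by omega), S.br_zero_left, add_zero] at this
      rw [this]; congr 2; push_cast; ring
  have hB : ∀ n : ℕ, ∀ i : ℤ, n + i < 0 → S.br (g i) (s (n - 1)) = 0 := by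
    intro n
    induction n with
    | zero => intro j hj; exact h.gs _ _ (by simpa using hj) (by simp)
    | succ n ih =>
      intro j hj
      push_cast at hj
      have := h.adG j (n - 1)
      rw [ih j (by omega), ih (j + 1) (by omega), S.br_zero_left, zero_add] at this
      rw [this]; congr 2; push_cast; ring
  by_cases hi : 0 ≤ i
  · have := hA (i + 1).toNat j (by omega)
    rwa [show (((i + 1).toNat : ℕ) : ℤ) - 1 = i by omega] at this
  by_cases hj : 0 ≤ j
  · have := hB (j + 1).toNat i (by omega)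
    rwa [show (((j + 1).toNat : ℕ) : ℤ) - 1 = j by omega] at this
  exact h.gs i j (by omega) (by omega)

theorem anti {T τ : ℤ} (hT : ∀ i j, i + j + 1 = T - 1 → S.br (g i) (s j) ∈ Dl g (τ - 1))
    {U : Submodule K (Dual K Ω)} (hU : Dl g τ ≤ U) {i0 j0 : ℤ} (h0 : i0 + j0 + 1 = T)
    (hm : S.br (g i0) (s j0) ∈ U) (i j : ℤ) (hij : i + j + 1 = T) : S.br (g i) (s j) ∈ U := by
  have hstep : ∀ i, S.br (g i) (s (T - 1 - i)) ∈ U ↔ S.br (g (i + 1)) (s (T - 1 - (i + 1))) ∈ U := by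
    intro i
    have h1 := S.ad_Dl h.hg (hT i (T - 1 - (i + 1)) (by ring))
    rw [h.adG, sub_add_cancel, show T - 1 - (i + 1) + 1 = T - 1 - i by ring] at h1
    have h2 := hU h1
    constructor
    · intro h3; exact (U.add_mem_iff_left h3).mp h2
    · intro h3; exact (U.add_mem_iff_right h3).mp h2
  have hall : ∀ i, S.br (g i) (s (T - 1 - i)) ∈ U ↔ S.br (g 0) (s (T - 1 - 0)) ∈ U := by
    intro i
    induction i using Int.induction_on with
    | zero => rfl
    | succ n ih => rw [← hstep, ih]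
    | pred n ih => rw [hstep, sub_add_cancel, ih]
  obtain rfl : j = T - 1 - i := by omega
  obtain rfl : j0 = T - 1 - i0 := by omega
  exact (hall i).mpr ((hall i0).mp hm)

theorem low {j0 : ℤ} (hmin : ∀ τ : ℕ, τ < j0 → S.br (g τ) (s (-1)) ∈ Dl g τ) (i j : ℤ)
    (hij : i + j + 1 < j0) : S.br (g i) (s j) ∈ Dl g (i + j + 1) := by
  have hA : ∀ n : ℕ, (n : ℤ) - 1 < j0 → ∀ i j : ℤ, i + j + 1 = n - 1 →
      S.br (g i) (s j) ∈ Dl g (n - 1) := by
    intro n
    induction n with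
    | zero =>
      intro _ i j hij
      rw [h.G_zero i j (by omega)]
      exact zero_mem _
    | succ n ih =>
      intro hn i j hij
      push_cast at hn hij ⊢
      rw [add_sub_cancel_right] at hn hij ⊢
      exact h.anti (ih (by omega)) le_rfl (i0 := n) (j0 := -1) (by ring) (hmin n hn) i j hij
  by_cases h0 : i + j + 1 < 0
  · rw [h.G_zero i j h0]; exact zero_mem _
  · have := hA (i + j + 2).toNat (by omega) i j (by omega)
    rwa [show (((i + j + 2).toNat : ℕ) : ℤ) - 1 = i + j + 1 by omega] at this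

theorem gΦ (i : ℤ) (hi : i < ρ) : g (i + 1) (S.d Y) = E * g i (S.d Φ) := by
  rw [← h.hg, S.br_apply, h.dY, S.ap_mul, h.gE, h.gY0 i hi]
  simp

theorem gΦ0 (i : ℤ) (hi : i < ρ - 1) : g i (S.d Φ) = 0 := by
  have := h.gΦ i (by omega)
  rw [h.gY0 _ (by omega)] at this
  exact (mul_eq_zero.mp this.symm).resolve_left h.E0

theorem gΦ1 : g (ρ - 1) (S.d Φ) ≠ 0 := by
  intro h0
  have := h.gΦ (ρ - 1) (by omega)
  rw [h0, mul_zero, sub_add_cancel] at this
  exact h.gY1 this

theorem GY (i : ℤ) (hi : i < ρ) :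
    S.br (g i) (s (-1 - (L + p : ℕ))) (S.d Y) = g i (S.d Φ) := by
  rw [S.br_apply, h.sY (L + p) 0 (by omega) rfl, h.gY0 i hi]
  simp

theorem exists_j0 : ∃ j0 : ℕ, j0 + L + p + 1 ≤ ρ ∧ S.br (g j0) (s (-1)) ∉ Dl g j0 ∧
    ∀ τ : ℕ, (τ : ℤ) < j0 → S.br (g τ) (s (-1)) ∈ Dl g τ := by
  classical
  have hex : ∃ τ : ℕ, τ + L + p + 1 ≤ ρ ∧ S.br (g τ) (s (-1)) ∉ Dl g τ := by
    by_contra hne
    push Not at hne
    have h1 := h.low (j0 := ρ - L - p) (fun τ hτ => hne τ (by omega)) (ρ - 1) (-1 - (L + p : ℕ))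
      (by push_cast; omega)
    have h2 := S.Dl_kill h.hg h.gY0 h1 0 (by push_cast; omega)
    rw [S.it_zero, h.GY _ (by omega)] at h2
    exact h.gΦ1 h2
  refine ⟨Nat.find hex, (Nat.find_spec hex).1, (Nat.find_spec hex).2, fun τ hτ => ?_⟩
  have h1 := Nat.find_min hex (m := τ) (by exact_mod_cast hτ)
  have h2 := (Nat.find_spec hex).1
  by_contra h3
  exact h1 ⟨by omega, h3⟩

theorem br_s0 {j0 : ℤ} (hmin : ∀ τ : ℕ, τ < j0 → S.br (g τ) (s (-1)) ∈ Dl g τ) {τ : ℤ}
    (hτ : τ < j0) {X : Dual K Ω} (hX : X ∈ Dl g τ) : S.br X (s (-1)) ∈ Dl g τ := by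
  refine S.br_mem_of_span _ (fun _ hx => Submodule.subset_span hx) ?_ hX
  rintro _ ⟨i, hi, rfl⟩
  have := hi.2
  exact Dl_mono (by omega) (h.low hmin i (-1) (by omega))

theorem H_symm (i j k : ℤ) (hj : j < 0) (hk : k < 0) :
    S.br (S.br (g i) (s j)) (s k) = S.br (S.br (g i) (s k)) (s j) := by
  rw [S.br_br, h.ss j k hj hk, S.br_zero_right, add_zero]

theorem H_mem {j0 : ℤ} (hmin : ∀ τ : ℕ, τ < j0 → S.br (g τ) (s (-1)) ∈ Dl g τ) (i j k : ℤ)
    (hj : j < 0) (hk : k < 0) (hijk : i + j + k + 2 < j0) :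
    S.br (S.br (g i) (s j)) (s k) ∈ Dl g (i + j + k + 2) := by
  have hA : ∀ n : ℕ, ∀ j k : ℤ, j < 0 → k < 0 → n + j + k + 1 < j0 →
      S.br (S.br (g (n - 1)) (s j)) (s k) ∈ Dl g (n + j + k + 1) := by
    intro n
    induction n with
    | zero =>
      intro j k hj hk _
      rw [h.gs _ _ (by simp) hj, S.br_zero_left]
      exact zero_mem _
    | succ n ih =>
      intro j k hj hk hn
      push_cast at hn ⊢
      rw [add_sub_cancel_right]
      by_cases hk1 : k = -1
      · subst hk1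
        exact h.br_s0 hmin hn (Dl_mono (by omega) (h.low hmin n j (by omega)))
      by_cases hj1 : j = -1
      · subst hj1
        rw [h.H_symm _ _ _ hj hk]
        exact h.br_s0 hmin hn (Dl_mono (by omega) (h.low hmin n k (by omega)))
      have h1 := S.ad_Dl h.hg (ih j k hj hk (by omega))
      rw [S.br_br, h.adG, h.hs, S.br_add_left, sub_add_cancel] at h1
      have h2 := ih (j + 1) k (by omega) hk (by omega)
      have h3 := ih j (k + 1) hj (by omega) (by omega)
      rw [show (n : ℤ) + (j + 1) + k + 1 = n + j + k + 1 + 1 by ring] at h2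
      rw [show (n : ℤ) + j + (k + 1) + 1 = n + j + k + 1 + 1 by ring] at h3
      rw [show (n : ℤ) + 1 + j + k + 1 = n + j + k + 1 + 1 by ring]
      exact ((Dl g _).add_mem_iff_left h2).mp (((Dl g _).add_mem_iff_left h3).mp h1)
  by_cases hi : 0 ≤ i
  · have := hA (i + 1).toNat j k hj hk (by omega)
    rwa [show (((i + 1).toNat : ℕ) : ℤ) - 1 = i by omega,
      show (((i + 1).toNat : ℕ) : ℤ) + j + k + 1 = i + j + k + 2 by omega] at this
  · rw [h.gs i j (by omega) hj, S.br_zero_left]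
    exact zero_mem _

theorem gt_mem {j0 : ℕ} (hmin : ∀ τ : ℕ, (τ : ℤ) < j0 → S.br (g τ) (s (-1)) ∈ Dl g τ) :
    S.br (g j0) (s (-1)) ∈ Wd g s (j0 / 2 + 1) ⊔ Dl g j0 :=
  h.anti (T := j0) (τ := j0) (fun i j hij => hij ▸ h.low hmin i j (by omega)) le_sup_right
    (i0 := (j0 / 2 : ℕ)) (j0 := j0 - 1 - (j0 / 2 : ℕ)) (by ring)
    (Submodule.mem_sup_left (h.W2 _ _ (by omega))) _ _ (by ring)

theorem hankel (ψ : K) (m j : ℕ) : s (j : ℕ) (S.d (S.it D (m + 1) ψ)) =
    s (j + 1 : ℕ) (S.d (S.it D m ψ)) +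
      (D.toAddMonoidHom.comp S.d) (s (j : ℕ) (S.d (S.it D m ψ))) := by
  rw [S.ap_it_succ, h.hs]
  simp

theorem kernel_vec {j0 : ℕ} (hn : S.br (g j0) (s (-1)) ∉ Dl g j0)
    (hmin : ∀ τ : ℕ, (τ : ℤ) < j0 → S.br (g τ) (s (-1)) ∈ Dl g τ) {ψ : K} {r : ℤ}
    (h0 : ∀ i < r, g i (S.d ψ) = 0) (M : ℕ) (hM : j0 + M ≤ r)
    (hk : ∀ m < M, S.br (g j0) (s (-1)) (S.d (S.it D m ψ)) = 0) :
    ∃ c : ℕ → K, (∃ j ≤ j0 / 2, c j ≠ 0) ∧
      ∀ m < M, ∑ j ∈ range (j0 / 2 + 1), c j * s (j : ℕ) (S.d (S.it D m ψ)) = 0 := by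
  obtain ⟨c, hc⟩ := Wd_decomp (by omega) (h.gt_mem hmin)
  refine ⟨c, ?_, fun m hm => ?_⟩
  · by_contra hne
    push Not at hne
    rw [sum_eq_zero, sub_zero] at hc
    · exact hn hc
    · intro j hj
      rw [hne j (by have := mem_range.mp hj; omega), zero_smul]
  · have := S.Dl_kill h.hg h0 hc m (by omega)
    rw [LinearMap.sub_apply, hk m hm, zero_sub, neg_eq_zero, LinearMap.sum_apply] at this
    simpa using this

theorem fin {j0 : ℕ} (hn : S.br (g j0) (s (-1)) ∉ Dl g j0)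
    (hmin : ∀ τ : ℕ, (τ : ℤ) < j0 → S.br (g τ) (s (-1)) ∈ Dl g τ) {ψ : K} {r : ℤ}
    (h0 : ∀ i < r, g i (S.d ψ) = 0) (h1 : g r (S.d ψ) ≠ 0) (hM : j0 + L ≤ r)
    (hk : ∀ m < L, S.br (g j0) (s (-1)) (S.d (S.it D m ψ)) = 0) : False := by
  obtain ⟨c, hc0, hc⟩ := h.kernel_vec hn hmin h0 L hM hk
  obtain ⟨f, hf0, hf⟩ := hankel_pade (D.toAddMonoidHom.comp S.d) (fun a b => S.ap_mul D a b)
    (fun m j => s (j : ℕ) (S.d (S.it D m ψ))) (h.hankel ψ) c (j0 / 2) L hc0 hc
  have hev : ∀ X : Dual K Ω, X (∑ m ∈ range (j0 / 2 + 1), f m • S.d (S.it D m ψ)) =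
      ∑ m ∈ range (j0 / 2 + 1), f m * X (S.d (S.it D m ψ)) := by
    intro X; simp
  have hW : Wd g s L ≤ Kil (∑ m ∈ range (j0 / 2 + 1), f m • S.d (S.it D m ψ)) := by
    refine Wd_le (fun i _ hi => ?_) (fun j hj => ?_)
    · rw [mem_Kil, hev]
      refine sum_eq_zero fun m hm => ?_
      have := mem_range.mp hm
      rw [(S.rel_deg D g h.hg ψ r h0 m).1 i (by omega), mul_zero]
    · rw [mem_Kil, hev]; exact hf j hj
  refine tri_eval f (j0 / 2) hf0 (fun a b => g (b : ℕ) (S.d (S.it D a ψ))) r.toNat (by omega)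
    (fun a b hab => (S.rel_deg D g h.hg ψ r h0 a).1 b (by omega))
    (fun a b hab => ?_) (fun b => ?_)
  · rw [(S.rel_deg D g h.hg ψ r h0 a).2 b (by omega)]; exact h1
  · rw [← hev]; exact hW (h.W1 b)

theorem rho_le : ρ + 1 ≤ 2 * L := by
  by_contra hlt
  obtain ⟨j0, hj0, -⟩ := h.exists_j0
  obtain ⟨c, hc0, hc⟩ := pigeon (K := K) ⊥ (fun i : Fin (ρ.toNat + 1) => g (i : ℕ))
    (fun k : Fin L ⊕ Fin L => k.elim (fun a : Fin L => g (a : ℕ)) (fun a : Fin L => s (a : ℕ))) (fun i => by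
      refine Submodule.mem_sup_right (Wd_le (fun i h0 hi => ?_) (fun j hj => ?_) (h.W1 i))
      · refine Submodule.subset_span ⟨Sum.inl ⟨i.toNat, by omega⟩, ?_⟩
        simp only [Sum.elim_inl]
        congr 1; omega
      · exact Submodule.subset_span ⟨Sum.inr ⟨j, hj⟩, rfl⟩) (by simp; omega)
  let c' : ℕ → K := fun i => if hi : i < ρ.toNat + 1 then c ⟨i, hi⟩ else 0
  obtain ⟨i0, hi0⟩ := Function.ne_iff.mp hc0
  refine tri_eval c' ρ.toNat ⟨i0, by have := i0.2; omega, by simpa only [c', dif_pos i0.2]⟩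
    (fun a b => g (a : ℕ) (S.d (S.it D b Y))) ρ.toNat le_rfl
    (fun a b hab => (S.rel_deg D g h.hg Y ρ h.gY0 b).1 a (by omega))
    (fun a b hab => ?_) (fun b => ?_)
  · rw [(S.rel_deg D g h.hg Y ρ h.gY0 b).2 a (by omega)]; exact h.gY1
  · have := congrArg (fun X : Dual K Ω => X (S.d (S.it D b Y))) ((Submodule.mem_bot K).mp hc)
    simp only [LinearMap.sum_apply, LinearMap.smul_apply, smul_eq_mul, LinearMap.zero_apply]
      at this
    rw [← this, ← Fin.sum_univ_eq_sum_range (fun a => c' a * g (a : ℕ) (S.d (S.it D b Y)))]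
    refine sum_congr rfl fun m _ => ?_
    simp only [c', dif_pos m.2]

end Hyp

end Pool.Agent.Work.MP_3007d7_an
end
end

-- merged part: Pool.Agent.Work.MP_3007d7_an.Build
section
-- merged part: Pool.Agent.Work.MP_3007d7_an.Core2
section
/- The two cases of the main contradiction. -/

namespace Pool.Agent.Work.MP_3007d7_an

open Module Finset

variable {K : Type*} [Field K] {Ω : Type*} [AddCommGroup Ω] [Module K Ω]

namespace Hyp

variable {S : LR K Ω} {D : Dual K Ω} {g s : ℤ → Dual K Ω} {Y Φ E : K} {L p : ℕ} {ρ : ℤ}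
  (h : Hyp S D g s Y Φ E L p ρ)

include h

theorem gt_comm {j0 : ℕ} (hmin : ∀ τ : ℕ, (τ : ℤ) < j0 → S.br (g τ) (s (-1)) ∈ Dl g τ) (k : ℤ)
    (hk : k < -1) : S.br (S.br (g j0) (s (-1))) (s k) ∈ Dl g j0 :=
  Dl_mono (by omega) (h.H_mem hmin j0 (-1) k (by omega) (by omega) (by omega))

theorem lemA {j0 i1 : ℕ} (hmin : ∀ τ : ℕ, (τ : ℤ) < j0 → S.br (g τ) (s (-1)) ∈ Dl g τ)
    (hlt : j0 < i1) {lam : K} (hlam : lam ≠ 0)
    (hg1 : S.br (g j0) (s (-1)) - lam • g i1 ∈ Dl g (i1 - 1)) (t : ℕ) (ht : j0 + t < i1) :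
    (∀ i j : ℤ, i + j + 1 = j0 + t → S.br (g i) (s j) ∈ Dl g (i1 + t)) ∧
      (1 ≤ t → S.br (g i1) (s (j0 + t - 1 - i1)) ∈ Dl g (i1 + t - 1)) := by
  induction t using Nat.strong_induction_on with
  | _ t ih =>
    rcases Nat.eq_zero_or_pos t with rfl | htp
    · refine ⟨fun i j hij => ?_, fun h0 => absurd h0 (by omega)⟩
      refine h.anti (T := j0) (τ := i1)
        (fun i j hij => Dl_mono (by omega) (h.low hmin i j (by omega)))
        (Dl_mono (by simp)) (i0 := j0) (j0 := -1) (by ring) ?_ i j (by simpa using hij)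
      have := (Dl g (i1 + (0 : ℕ))).add_mem (Dl_mono (by omega) hg1)
        ((Dl g _).smul_mem lam (mem_Dl (i := i1) (by omega) (by omega)))
      simpa using this
    have hprev : ∀ i j : ℤ, i + j + 1 < j0 + t → S.br (g i) (s j) ∈ Dl g (i1 + t - 1) := by
      intro i j hij
      by_cases hl : i + j + 1 < j0
      · exact Dl_mono (by omega) (h.low hmin i j hl)
      · exact Dl_mono (by omega)
          ((ih (i + j + 1 - j0).toNat (by omega) (by omega)).1 i j (by omega))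
    have hkey : S.br (g i1) (s (j0 + t - 1 - i1)) ∈ Dl g (i1 + t - 1) := by
      have h1 : S.br (S.br (g j0) (s (-1)) - lam • g i1) (s (j0 + t - 1 - i1)) ∈
          Dl g (i1 + t - 1) := by
        refine S.br_mem_of_span _ ?_ ?_ hg1
        · rintro _ ⟨i, hi, rfl⟩
          exact mem_Dl hi.1 (by have := hi.2; omega)
        · rintro _ ⟨i, hi, rfl⟩
          exact hprev _ _ (by have := hi.2; omega)
      have h2 : S.br (S.br (g j0) (s (-1))) (s (j0 + t - 1 - i1)) ∈ Dl g (i1 + t - 1) :=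
        Dl_mono (by omega) (h.gt_comm hmin _ (by omega))
      rw [S.br_sub_left, S.br_smul_left] at h1
      have h3 := (Dl g _).sub_mem h2 h1
      rw [sub_sub_cancel] at h3
      have h4 := (Dl g _).add_mem h3 ((Dl g _).smul_mem (s (j0 + t - 1 - i1) (S.d lam))
        (mem_Dl (i := i1) (by omega) (by omega)))
      rw [sub_add_cancel] at h4
      exact ((Dl g _).smul_mem_iff hlam).mp h4
    refine ⟨fun i j hij => ?_, fun _ => hkey⟩
    exact h.anti (T := j0 + t) (τ := i1 + t) (fun i j hij => hprev i j (by omega)) le_rfl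
      (i0 := i1) (j0 := j0 + t - 1 - i1) (by ring) (Dl_mono (by omega) hkey) i j hij

theorem caseA [CharZero K] (W3 : ∀ t, Wd g s t ≤ Dl g ρ) {j0 : ℕ} (hj0 : j0 + L + p + 1 ≤ ρ)
    (hn : S.br (g j0) (s (-1)) ∉ Dl g j0)
    (hmin : ∀ τ : ℕ, (τ : ℤ) < j0 → S.br (g τ) (s (-1)) ∈ Dl g τ)
    (hY : S.br (g j0) (s (-1)) (S.d Y) = 0) : False := by
  classical
  have hex : ∃ τ : ℕ, S.br (g j0) (s (-1)) ∈ Dl g τ := by
    refine ⟨ρ.toNat, ?_⟩
    rw [show ((ρ.toNat : ℕ) : ℤ) = ρ by omega]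
    exact sup_le (W3 _) (Dl_mono (by omega)) (h.gt_mem hmin)
  obtain ⟨i1, hi1, hi1min⟩ : ∃ i1 : ℕ, S.br (g j0) (s (-1)) ∈ Dl g i1 ∧
      ∀ τ : ℕ, S.br (g j0) (s (-1)) ∈ Dl g τ → i1 ≤ τ :=
    ⟨Nat.find hex, Nat.find_spec hex, fun τ hτ => Nat.find_min' hex hτ⟩
  have hlt : j0 < i1 := by
    by_contra hle
    exact hn (Dl_mono (by omega) hi1)
  obtain ⟨lam, hg1⟩ := Dl_top hi1
  have hlam : lam ≠ 0 := by
    rintro rfl
    rw [zero_smul, sub_zero] at hg1
    have := hi1min (i1 - 1) (Dl_mono (by omega) hg1)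
    omega
  have hle : (i1 : ℤ) ≤ ρ := by
    have := hi1min ρ.toNat (by
      rw [show ((ρ.toNat : ℕ) : ℤ) = ρ by omega]
      exact sup_le (W3 _) (Dl_mono (by omega)) (h.gt_mem hmin))
    omega
  obtain ⟨M0, hM0⟩ : ∃ M0 : ℕ, i1 + M0 = ρ := ⟨(ρ - i1).toNat, by omega⟩
  have hev : S.br (g j0) (s (-1)) (S.d (S.it D M0 Y)) ≠ 0 := by
    have h1 := S.Dl_kill h.hg h.gY0 hg1 M0 (by omega)
    rw [LinearMap.sub_apply, LinearMap.smul_apply, (S.rel_deg D g h.hg Y ρ h.gY0 M0).2 i1 hM0,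
      sub_eq_zero] at h1
    rw [h1]
    exact mul_ne_zero hlam h.gY1
  have hM0p : 1 ≤ M0 := by
    by_contra h0
    obtain rfl : M0 = 0 := by omega
    exact hev hY
  have hA := h.lemA hmin hlt hlam hg1
  have he0 : S.br (g (i1 - 1)) (s (j0 - i1)) (S.d (S.it D M0 Y)) ≠ 0 := by
    intro h0
    refine hev (h.anti (T := j0) (τ := j0) (U := Kil (S.d (S.it D M0 Y)))
      (fun i j hij => hij ▸ h.low hmin i j (by omega))
      (fun X hX => S.Dl_kill h.hg h.gY0 hX M0 (by omega)) (by ring) h0 _ _ (by ring))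
  have he : ∀ t : ℕ, j0 + t < i1 → ∀ m : ℕ, i1 + t + m = ρ → ∀ r : ℕ, ∃ n : ℕ, 0 < n ∧
      S.br (g (i1 - 1 - r)) (s (j0 + t - i1 + r)) (S.d (S.it D m Y)) =
        (-1) ^ r * n * S.br (g (i1 - 1)) (s (j0 - i1)) (S.d (S.it D M0 Y)) := by
    intro t
    induction t with
    | zero =>
      intro _ m hm r
      obtain rfl : m = M0 := by omega
      refine ⟨1, one_pos, ?_⟩
      induction r with
      | zero => simp
      | succ r ih =>
        have h1 := S.Dl_kill h.hg h.gY0 (S.ad_Dl h.hg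
          (h.low hmin (i1 - 1 - (r + 1 : ℕ)) (j0 + (0 : ℕ) - i1 + r) (by push_cast; omega))) m
          (by push_cast; omega)
        rw [h.adG, LinearMap.add_apply, show (i1 : ℤ) - 1 - (r + 1 : ℕ) + 1 = i1 - 1 - r by
          push_cast; ring, ih, show (j0 : ℤ) + (0 : ℕ) - i1 + r + 1 =
          j0 + (0 : ℕ) - i1 + (r + 1 : ℕ) by push_cast; ring] at h1
        linear_combination h1
    | succ t ih =>
      intro ht m hm r
      have hstep : ∀ r : ℕ, S.br (g (i1 - 1 - r)) (s (j0 + t - i1 + r)) (S.d (S.it D (m + 1) Y)) =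
          S.br (g (i1 - r)) (s (j0 + t - i1 + r)) (S.d (S.it D m Y)) +
          S.br (g (i1 - 1 - r)) (s (j0 + (t + 1 : ℕ) - i1 + r)) (S.d (S.it D m Y)) := by
        intro r
        rw [S.ap_it_succ, S.Dl_kill h.hg h.gY0 ((hA t (by omega)).1 _ _ (by ring)) m
          (by push_cast at hm; omega), h.adG, map_zero, map_zero, add_zero, LinearMap.add_apply]
        congr 4 <;> push_cast <;> ring
      induction r with
      | zero =>
        obtain ⟨n, hn0, hn⟩ := ih (by omega) (m + 1) (by push_cast at hm ⊢; omega) 0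
        refine ⟨n, hn0, ?_⟩
        have h1 := S.Dl_kill h.hg h.gY0 ((hA (t + 1) ht).2 (by omega)) m (by omega)
        rw [← hn, hstep, show (i1 : ℤ) - (0 : ℕ) = i1 by simp, show (j0 : ℤ) + t - i1 + (0 : ℕ) =
          j0 + (t + 1 : ℕ) - 1 - i1 by push_cast; ring, h1, zero_add]
      | succ r ihr =>
        obtain ⟨n, hn0, hn⟩ := ih (by omega) (m + 1) (by push_cast at hm ⊢; omega) (r + 1)
        obtain ⟨n', -, hn'⟩ := ihr
        refine ⟨n + n', by omega, ?_⟩
        rw [hstep, show (i1 : ℤ) - (r + 1 : ℕ) = i1 - 1 - r by push_cast; ring,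
          show (j0 : ℤ) + t - i1 + (r + 1 : ℕ) = j0 + (t + 1 : ℕ) - i1 + r by push_cast; ring,
          hn'] at hn
        push_cast at hn ⊢
        linear_combination hn
  by_cases hL : i1 + L ≤ ρ
  · exact h.fin hn hmin h.gY0 h.gY1 (by omega)
      fun m hm => S.Dl_kill h.hg h.gY0 hi1 m (by omega)
  by_cases hθ : j0 + L + p + 1 ≤ i1
  · obtain ⟨n, hn0, hn⟩ := he (M0 - 1) (by omega) 1 (by omega) (i1 - j0 - (M0 - 1) - p - 2)
    rw [S.it_succ, S.it_zero, h.dY, S.ap_mul, h.GE, S.br_apply, h.sΦ _ (by omega),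
      h.gΦ0 _ (by omega)] at hn
    simp only [map_zero, mul_zero, sub_zero, add_zero] at hn
    exact mul_ne_zero (mul_ne_zero (pow_ne_zero _ (neg_ne_zero.mpr one_ne_zero))
      (Nat.cast_ne_zero.mpr hn0.ne')) he0 hn.symm
  · have h1 := (hA (ρ - L - p - 1 - j0).toNat (by omega)).1 (ρ - 1) (-1 - (L + p : ℕ))
      (by push_cast; omega)
    have h2 := S.Dl_kill h.hg h.gY0 h1 0 (by push_cast; omega)
    rw [S.it_zero, h.GY _ (by omega)] at h2
    exact h.gΦ1 h2

theorem sΦit (m : ℕ) (j : ℤ) (hj : j + m < -1 - p) : s j (S.d (S.it D m Φ)) = 0 :=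
  (S.rel_deg D s h.hs Φ (-1 - p) h.sΦ m).1 j hj

theorem gΦit (m : ℕ) (i : ℤ) (hi : i + m < ρ - 1) : g i (S.d (S.it D m Φ)) = 0 :=
  (S.rel_deg D g h.hg Φ (ρ - 1) h.gΦ0 m).1 i hi

theorem beta {j0 : ℕ} (hmin : ∀ τ : ℕ, (τ : ℤ) < j0 → S.br (g τ) (s (-1)) ∈ Dl g τ)
    (hj0 : j0 ≤ ρ) (i : ℤ) (hi : i < ρ) (k k' m m' : ℕ) (hk : p ≤ k) (hk' : p ≤ k')
    (hm : k + m = L + p) (hm' : k' + m' = L + p) (hkk : p + m < k') (hik : i - k - k' < j0) :
    (-1) ^ m * S.br (g i) (s (-1 - k')) (S.d (S.it D m Φ)) +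
      (-1) ^ m' * S.br (g i) (s (-1 - k)) (S.d (S.it D m' Φ)) = 0 := by
  have h1 := S.Dl_kill h.hg h.gY0
    (h.H_mem hmin i (-1 - k') (-1 - k) (by omega) (by omega) (by omega)) 0 (by omega)
  have h2 := congrArg (fun X : Dual K Ω => X (S.d Y))
    (h.ss (-1 - k) (-1 - k') (by omega) (by omega))
  have h3 := h.sΦit m (-1 - k') (by omega)
  have hsg : ∀ (X : Dual K Ω) (e : ℕ) (f : K), X (S.d ((-1) ^ e * f)) = (-1) ^ e * X (S.d f) := by
    intro X e f
    rw [S.ap_mul, S.d_negOnePow]; simp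
  simp only [S.br_apply, S.it_zero, h.sY k m hk hm, h.sY k' m' hk' hm', h.gY0 i hi, hsg, h3,
    map_zero, mul_zero, sub_zero, LinearMap.zero_apply] at h1 h2 ⊢
  have h4 : s (-1 - k) (S.d (S.it D m' Φ)) = 0 :=
    (mul_eq_zero.mp h2).resolve_left (pow_ne_zero _ (neg_ne_zero.mpr one_ne_zero))
  simp only [h4, map_zero]
  linear_combination h1

theorem gamma {j0 : ℕ} (hn : S.br (g j0) (s (-1)) ∉ Dl g j0)
    (hmin : ∀ τ : ℕ, (τ : ℤ) < j0 → S.br (g τ) (s (-1)) ∈ Dl g τ) (J : ℕ) (hJ : j0 + J ≤ ρ - 1)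
    (hlow : ∀ (i j : ℤ) (m : ℕ), i + j + 1 + m < j0 + J →
      S.br (g i) (s j) (S.d (S.it D m Φ)) = 0) :
    ∃ d : ℕ, d ≤ j0 / 2 ∧ ∀ (i : ℤ) (m : ℕ), d ≤ m → m < J → i + d + 1 + m = j0 + J →
      S.br (g i) (s d) (S.d (S.it D m Φ)) = 0 := by
  classical
  have hnorm : ∀ (c : ℕ → K) (d : ℕ), (∃ j ≤ d, c j ≠ 0) →
      (∀ m < J, ∑ j ∈ range (d + 1), c j * s (j : ℕ) (S.d (S.it D m Φ)) = 0) →
      ∃ e ≤ d, ∃ c' : ℕ → K, c' e = 1 ∧
        ∀ m < J, ∑ j ∈ range (e + 1), c' j * s (j : ℕ) (S.d (S.it D m Φ)) = 0 := by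
    intro c d hc0 hc
    obtain ⟨e, he, hce, hF⟩ := top_index c d hc0
    refine ⟨e, he, fun j => c j / c e, div_self hce, fun m hm => ?_⟩
    have := hc m hm
    rw [hF (fun j => s (j : ℕ) (S.d (S.it D m Φ)))] at this
    simp only [div_mul_eq_mul_div]
    rw [← sum_div, this, zero_div]
  obtain ⟨c0, hc00, hc0⟩ := h.kernel_vec hn hmin h.gΦ0 J hJ
    fun m hm => hlow _ _ _ (by omega)
  obtain ⟨e, he, hex'⟩ := hnorm c0 _ hc00 hc0
  have hex : ∃ e : ℕ, ∃ c' : ℕ → K, c' e = 1 ∧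
      ∀ m < J, ∑ j ∈ range (e + 1), c' j * s (j : ℕ) (S.d (S.it D m Φ)) = 0 := ⟨e, hex'⟩
  obtain ⟨d, hde, ⟨c, hc1, hc⟩, hdmin⟩ : ∃ d ≤ e, (∃ c' : ℕ → K, c' d = 1 ∧
      ∀ m < J, ∑ j ∈ range (d + 1), c' j * s (j : ℕ) (S.d (S.it D m Φ)) = 0) ∧
      ∀ e' < d, ¬ ∃ c' : ℕ → K, c' e' = 1 ∧
        ∀ m < J, ∑ j ∈ range (e' + 1), c' j * s (j : ℕ) (S.d (S.it D m Φ)) = 0 :=
    ⟨Nat.find hex, Nat.find_min' hex hex', Nat.find_spec hex, fun e' he' => Nat.find_min hex he'⟩
  refine ⟨d, by omega, fun i m0 hdm hmJ him => ?_⟩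
  have hrig := hankel_rigid (D.toAddMonoidHom.comp S.d) (fun a b => S.ap_mul D a b)
    (fun m j => s (j : ℕ) (S.d (S.it D m Φ))) (h.hankel Φ) c d J hc1 hc (by
      intro c' hc' j hj
      by_contra hne
      obtain ⟨d', rfl⟩ : ∃ d', d = d' + 1 := ⟨d - 1, by omega⟩
      obtain ⟨e', he', hh⟩ := hnorm c' d' ⟨j, by omega, hne⟩ hc'
      exact hdmin e' (by omega) hh)
  have happ : ∀ m ≤ m0, ∑ j ∈ range d, g i (S.d (c j)) * s (j : ℕ) (S.d (S.it D m Φ)) +
      S.br (g i) (s d) (S.d (S.it D m Φ)) = 0 := by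
    intro m hm
    have h1 := congrArg (fun f => g i (S.d f)) (hc m (by omega))
    simp only [map_sum, map_zero, S.ap_mul] at h1
    rw [sum_range_succ, hc1, S.d_one, map_zero, mul_zero, add_zero, one_mul] at h1
    rw [← h1, S.br_apply, h.gΦit m i (by omega), map_zero, map_zero, sub_zero]
    congr 1
    refine sum_congr rfl fun j hj => ?_
    have hj' := mem_range.mp hj
    have h2 := hlow i j m (by omega)
    rw [S.br_apply, h.gΦit m i (by omega), map_zero, map_zero, sub_zero] at h2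
    rw [h2]; ring
  have hz := hrig (fun j => g i (S.d (c j))) (fun m hm => by
    have := happ m (by omega)
    rwa [hlow i d m (by omega), add_zero] at this)
  have := happ m0 le_rfl
  rwa [sum_eq_zero, zero_add] at this
  intro j hj
  rw [hz j (mem_range.mp hj), zero_mul]

theorem caseB [CharZero K] {j0 : ℕ} (hj0 : j0 + L + p + 1 ≤ ρ)
    (hn : S.br (g j0) (s (-1)) ∉ Dl g j0)
    (hmin : ∀ τ : ℕ, (τ : ℤ) < j0 → S.br (g τ) (s (-1)) ∈ Dl g τ)
    (hY : S.br (g j0) (s (-1)) (S.d Y) ≠ 0) : False := by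
  classical
  have hρ : ρ = j0 + L + p + 1 := by
    by_contra hne
    refine hY (h.anti (T := j0) (τ := j0) (U := Kil (S.d Y))
      (fun i j hij => hij ▸ h.low hmin i j (by omega))
      (fun X hX => S.Dl_kill h.hg h.gY0 hX 0 (by omega)) (i0 := j0 + L + p)
      (j0 := -1 - (L + p : ℕ)) (by push_cast; ring) ?_ _ _ (by ring))
    rw [mem_Kil, h.GY _ (by omega), h.gΦ0 _ (by omega)]
  have hL := h.rho_le
  by_cases hk : ∀ m < L, S.br (g j0) (s (-1)) (S.d (S.it D m Φ)) = 0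
  · exact h.fin hn hmin h.gΦ0 h.gΦ1 (by omega) hk
  push Not at hk
  obtain ⟨m1, hm1, hk⟩ := hk
  have hex1 : ∃ (i j : ℤ) (m : ℕ), i + j + 1 + m = j0 + m1 ∧
      S.br (g i) (s j) (S.d (S.it D m Φ)) ≠ 0 := ⟨j0, -1, m1, by ring, hk⟩
  have hex : ∃ J : ℕ, ∃ (i j : ℤ) (m : ℕ), i + j + 1 + m = j0 + J ∧
      S.br (g i) (s j) (S.d (S.it D m Φ)) ≠ 0 := ⟨m1, hex1⟩
  obtain ⟨J, hJ, ⟨i0, k0, m0, hw0, hne0⟩, hJmin⟩ : ∃ J ≤ m1, (∃ (i j : ℤ) (m : ℕ),
      i + j + 1 + m = j0 + J ∧ S.br (g i) (s j) (S.d (S.it D m Φ)) ≠ 0) ∧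
      ∀ J' < J, ¬ ∃ (i j : ℤ) (m : ℕ), i + j + 1 + m = j0 + J' ∧
        S.br (g i) (s j) (S.d (S.it D m Φ)) ≠ 0 :=
    ⟨Nat.find hex, Nat.find_min' hex hex1, Nat.find_spec hex, fun e' he' => Nat.find_min hex he'⟩
  have hneg : ∀ (i j : ℤ) (m : ℕ), i + j + 1 < j0 → i + j + 1 + m ≤ j0 + J →
      S.br (g i) (s j) (S.d (S.it D m Φ)) = 0 := fun i j m h1 h2 =>
    S.Dl_kill h.hg h.gΦ0 (h.low hmin i j h1) m (by omega)
  have hlow : ∀ (i j : ℤ) (m : ℕ), i + j + 1 + m < j0 + J →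
      S.br (g i) (s j) (S.d (S.it D m Φ)) = 0 := by
    intro i j m hw
    by_cases h1 : i + j + 1 < j0
    · exact hneg i j m h1 (by omega)
    · by_contra hne
      exact hJmin (i + j + 1 + m - j0).toNat (by omega) ⟨i, j, m, by omega, hne⟩
  obtain ⟨c, hc⟩ : ∃ c : ℕ → ℤ → K, ∀ t k,
      c t k = S.br (g (j0 + t + k)) (s (-1 - k)) (S.d (S.it D (J - t) Φ)) := ⟨_, fun _ _ => rfl⟩
  have hstep : ∀ (i j : ℤ) (m : ℕ), i + j + 1 + m + 1 = j0 + J →
      S.br (g i) (s j) (S.d (S.it D (m + 1) Φ)) = S.br (g (i + 1)) (s j) (S.d (S.it D m Φ)) +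
        S.br (g i) (s (j + 1)) (S.d (S.it D m Φ)) := by
    intro i j m hw
    rw [S.ap_it_succ, hlow i j m (by omega), h.adG]
    simp
  have rec0 : ∀ k, c 0 k + c 0 (k - 1) = 0 := by
    intro k
    have h1 := S.Dl_kill h.hg h.gΦ0 (S.ad_Dl h.hg
      (h.low hmin (j0 + k - 1) (-1 - k) (by omega))) J (by omega)
    rw [h.adG, LinearMap.add_apply] at h1
    rw [hc, hc, ← h1, Nat.sub_zero]
    congr 4 <;> push_cast <;> ring
  have recS : ∀ t k, t + 1 ≤ J → c t k = c (t + 1) k + c (t + 1) (k - 1) := by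
    intro t k ht
    rw [hc, hc, hc, show J - t = J - (t + 1) + 1 by omega, hstep _ _ _ (by omega)]
    congr 4 <;> push_cast <;> ring
  have hne : ∃ t ≤ J, ∃ k, c t k ≠ 0 := by
    have h1 : ¬ i0 + k0 + 1 < j0 := fun h1 => hne0 (hneg _ _ _ h1 (by omega))
    refine ⟨J - m0, by omega, -1 - k0, ?_⟩
    rw [hc, show J - (J - m0) = m0 by omega, show -1 - (-1 - k0) = k0 by ring,
      show (j0 : ℤ) + (J - m0 : ℕ) + (-1 - k0) = i0 by omega]
    exact hne0
  obtain ⟨w, hw⟩ : ∃ w : ℕ, w + J = L + p := ⟨L + p - J, by omega⟩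
  have hα : ∀ t : ℕ, J + 1 + p < t + w → t ≤ J → c t (w - 1) = 0 := by
    intro t ht htJ
    rw [hc, S.br_apply, h.gΦit _ _ (by omega), h.sΦit _ _ (by omega)]
    simp
  by_cases hw1 : J + 1 + p < w
  · obtain ⟨t, ht, k, hk⟩ := hne
    exact hk (comb_zero c J rec0 recS (w - 1) (fun t ht => hα t (by omega) ht) k t ht)
  obtain ⟨n, hnw⟩ : ∃ n : ℕ, n + w = J + 1 + p := ⟨J + 1 + p - w, by omega⟩
  obtain ⟨d, hd, hγ⟩ := h.gamma hn hmin J (by omega) hlow
  have := comb_main c J rec0 recS w n (J - d) (w + d - 1) (by omega) (by omega) hne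
    (fun t ht htJ => hα t (by omega) htJ) (fun u v huv => by
      have h1 := h.beta hmin (by omega) (j0 + n + w) (by omega) (w + u) (w + v) (J - u) (J - v)
        (by omega) (by omega) (by omega) (by omega) (by omega) (by push_cast; omega)
      rw [hc, hc, show (j0 : ℤ) + u + (w + v) = j0 + n + w by omega,
        show (j0 : ℤ) + v + (w + u) = j0 + n + w by omega]
      push_cast at h1
      have e1 : (-1 : K) ^ J = (-1) ^ (J - u) * (-1) ^ u := by
        rw [← pow_add]; congr 1; omega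
      have e2 : (-1 : K) ^ J = (-1) ^ (J - v) * (-1) ^ v := by
        rw [← pow_add]; congr 1; omega
      have e3 : ((-1 : K) ^ (J - u)) * (-1) ^ (J - u) = 1 := by rw [← mul_pow]; simp
      have e4 : ((-1 : K) ^ (J - v)) * (-1) ^ (J - v) = 1 := by rw [← mul_pow]; simp
      have e5 : (-1 : K) ^ u = (-1) ^ J * (-1) ^ (J - u) := by
        rw [e1]; linear_combination (-(-1) ^ u) * e3
      have e6 : (-1 : K) ^ v = (-1) ^ J * (-1) ^ (J - v) := by
        rw [e2]; linear_combination (-(-1) ^ v) * e4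
      rw [e5, e6]
      linear_combination (-1) ^ J * h1) (fun t ht1 ht => by
      rw [hc, show -1 - ((w : ℤ) - 1 - (w + d - 1 + 1 : ℕ)) = d by omega]
      exact hγ _ _ (by omega) (by omega) (by omega))
  omega

theorem core [CharZero K] (W3 : ∀ t, Wd g s t ≤ Dl g ρ) : False := by
  obtain ⟨j0, hj0, hn, hmin⟩ := h.exists_j0
  by_cases hY : S.br (g j0) (s (-1)) (S.d Y) = 0
  · exact h.caseA W3 hj0 hn hmin hY
  · exact h.caseB hj0 hn hmin hY

end Hyp

end Pool.Agent.Work.MP_3007d7_an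
end

-- merged part: Pool.Agent.Work.MP_3007d7_an.Seq
section
/- Jets of a flat output: independence and the order lemma. -/

namespace Pool.Agent.Work.MP_3007d7_an

open Module Finset

variable {K : Type*} [Field K] {Ω : Type*} [AddCommGroup Ω] [Module K Ω]

/-- Span of the first `n` vectors. -/
def Fl (K : Type*) [Field K] {Ω : Type*} [AddCommGroup Ω] [Module K Ω] (v : ℕ → Ω) (n : ℕ) :
    Submodule K Ω := Submodule.span K (v '' Set.Iio n)

theorem Fl_mono (v : ℕ → Ω) {a b : ℕ} (h : a ≤ b) : Fl K v a ≤ Fl K v b :=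
  Submodule.span_mono (Set.image_mono (Set.Iio_subset_Iio h))

theorem mem_Fl (v : ℕ → Ω) {i n : ℕ} (h : i < n) : v i ∈ Fl K v n :=
  Submodule.subset_span ⟨i, h, rfl⟩

theorem Fl_le {v : ℕ → Ω} {n : ℕ} {U : Submodule K Ω} (h : ∀ i < n, v i ∈ U) : Fl K v n ≤ U := by
  refine Submodule.span_le.mpr ?_
  rintro _ ⟨i, hi, rfl⟩
  exact h i hi

theorem Fl_kill {v : ℕ → Ω} {n : ℕ} {X : Dual K Ω} (h : ∀ i < n, X (v i) = 0) {u : Ω}
    (hu : u ∈ Fl K v n) : X u = 0 :=
  (Fl_le (U := LinearMap.ker X) h) hu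

theorem mem_Fl_of_dual {v : ℕ → Ω} {n : ℕ} {u : Ω}
    (h : ∀ X : Dual K Ω, (∀ i < n, X (v i) = 0) → X u = 0) : u ∈ Fl K v n :=
  mem_of_forall_dual fun X hX => h X fun _ hi => hX _ (mem_Fl v hi)

theorem exists_Fl {v : ℕ → Ω} {u : Ω} (hu : u ∈ Submodule.span K (Set.range v)) :
    ∃ n, u ∈ Fl K v n := by
  induction hu using Submodule.span_induction with
  | mem x hx =>
    obtain ⟨l, rfl⟩ := hx
    exact ⟨l + 1, mem_Fl v (by omega)⟩
  | zero => exact ⟨0, Submodule.zero_mem _⟩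
  | add x y _ _ hx hy =>
    obtain ⟨a, ha⟩ := hx
    obtain ⟨b, hb⟩ := hy
    exact ⟨max a b, Submodule.add_mem _ (Fl_mono v (le_max_left a b) ha)
      (Fl_mono v (le_max_right a b) hb)⟩
  | smul c x _ hx =>
    obtain ⟨a, ha⟩ := hx
    exact ⟨a, Submodule.smul_mem _ _ ha⟩

theorem Fl_top {v : ℕ → Ω} {n : ℕ} {u : Ω} (hu : u ∈ Fl K v (n + 1)) :
    ∃ c : K, u - c • v n ∈ Fl K v n := by
  have : Fl K v (n + 1) ≤ Submodule.span K {v n} ⊔ Fl K v n := by
    refine Fl_le fun i h1 => ?_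
    by_cases h : i = n
    · exact Submodule.mem_sup_left (h ▸ Submodule.mem_span_singleton_self _)
    · exact Submodule.mem_sup_right (mem_Fl v (by omega))
  obtain ⟨a, ha, w, hw, rfl⟩ := Submodule.mem_sup.mp (this hu)
  obtain ⟨c, rfl⟩ := Submodule.mem_span_singleton.mp ha
  exact ⟨c, by simpa using hw⟩

theorem li_of_tri {v : ℕ → Ω} (h : ∀ n, v n ∉ Fl K v n) : LinearIndependent K v := by
  classical
  rw [linearIndependent_iff']
  intro s c hs
  by_contra hne
  push Not at hne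
  obtain ⟨i0, hi0, hc0⟩ := hne
  obtain ⟨n, hn, hmax⟩ := (s.filter fun i => c i ≠ 0).exists_max_image id
    ⟨i0, mem_filter.mpr ⟨hi0, hc0⟩⟩
  obtain ⟨hns, hcn⟩ := mem_filter.mp hn
  apply h n
  rw [← (Fl K v n).smul_mem_iff hcn]
  rw [← add_sum_erase s _ hns] at hs
  rw [eq_neg_of_add_eq_zero_left hs]
  refine neg_mem (Submodule.sum_mem _ fun i hi => ?_)
  obtain ⟨hin, his⟩ := mem_erase.mp hi
  by_cases hci : c i = 0
  · simp [hci]
  · have := hmax i (mem_filter.mpr ⟨his, hci⟩)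
    exact Submodule.smul_mem _ _ (mem_Fl v (lt_of_le_of_ne this hin))

namespace LR

variable (S : LR K Ω) (D : Dual K Ω)

theorem chain (p : ℕ → Dual K Ω) (hp : ∀ k, S.br (p (k + 1)) D = p k) :
    ∃ g : ℤ → Dual K Ω, (∀ k : ℕ, g (-1 - k) = p k) ∧ ∀ i, S.br (g i) D = g (i + 1) := by
  refine ⟨fun i => Int.casesOn i (fun n => (fun X => S.br X D)^[n + 1] (p 0)) p, fun k => ?_,
    fun i => ?_⟩
  · rw [show -1 - (k : ℤ) = Int.negSucc k by omega]
  · rcases i with n | k
    · exact (Function.iterate_succ_apply' (fun X => S.br X D) (n + 1) (p 0)).symm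
    · cases k with
      | zero => rfl
      | succ k => exact hp k

theorem Fl_shift {e : ℕ → K} (he : ∀ n, D (S.d (e n)) = e (n + 2)) {f : K} {n : ℕ}
    (hf : S.d f ∈ Fl K (fun i => S.d (e i)) n) :
    S.d (D (S.d f)) ∈ Fl K (fun i => S.d (e i)) (n + 2) := by
  refine mem_Fl_of_dual fun X hX => ?_
  have h1 : S.br X D (S.d f) = 0 := Fl_kill (fun i hi => by
    rw [S.br_apply, he, hX _ (by omega), hX _ (by omega)]; simp) hf
  rw [S.br_apply, Fl_kill (X := X) (fun i hi => hX i (by omega)) hf] at h1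
  simpa using h1

theorem it_seq {e : ℕ → K} (he : ∀ n, D (S.d (e n)) = e (n + 2)) (k n : ℕ) :
    S.it D k (e n) = e (n + 2 * k) := by
  induction k with
  | zero => rfl
  | succ k ih => rw [S.it_succ, ih, he]; rfl

theorem seq_li {e a : ℕ → K} (he : ∀ n, D (S.d (e n)) = e (n + 2))
    (ha : ∀ n, D (S.d (a n)) = a (n + 2)) (hli : LinearIndependent K fun n => S.d (a n))
    (hsp : ∀ n, S.d (a n) ∈ Submodule.span K (Set.range fun n => S.d (e n))) :
    LinearIndependent K fun n => S.d (e n) := by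
  refine li_of_tri fun n hn => ?_
  have h1 : ∀ k, S.d (e (n + 2 * k)) ∈ Fl K (fun i => S.d (e i)) (n + 2 * k) := by
    intro k
    induction k with
    | zero => exact hn
    | succ k ih =>
      have := S.Fl_shift D he ih
      rwa [he] at this
  obtain ⟨C0, hC0⟩ := exists_Fl (hsp 0)
  obtain ⟨C1, hC1⟩ := exists_Fl (hsp 1)
  have h2 : ∀ i, S.d (a i) ∈ Fl K (fun i => S.d (e i)) (C0 + C1 + i) := by
    intro i
    induction i using Nat.twoStepInduction with
    | zero => exact Fl_mono _ (by omega) hC0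
    | one => exact Fl_mono _ (by omega) hC1
    | more i ih _ =>
      have := S.Fl_shift D he ih
      rwa [ha] at this
  obtain ⟨k, hk⟩ : ∃ k, k = n + (C0 + C1) + 1 := ⟨_, rfl⟩
  let w : Fin n ⊕ Fin k → Ω := fun x =>
    x.elim (fun i : Fin n => S.d (e i)) (fun l : Fin k => S.d (e (n + 1 + 2 * l)))
  have h3 : ∀ i < n + 2 * k, S.d (e i) ∈ Submodule.span K (Set.range w) := by
    intro i
    induction i using Nat.strong_induction_on with
    | _ i ih =>
      intro hi
      by_cases h4 : i < n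
      · exact Submodule.subset_span ⟨Sum.inl ⟨i, h4⟩, rfl⟩
      by_cases h5 : (i - n) % 2 = 0
      · obtain ⟨l, rfl⟩ : ∃ l, i = n + 2 * l := ⟨(i - n) / 2, by omega⟩
        exact Fl_le (fun j hj => ih j hj (by omega)) (h1 l)
      · obtain ⟨l, rfl⟩ : ∃ l, i = n + 1 + 2 * l := ⟨(i - n) / 2, by omega⟩
        exact Submodule.subset_span ⟨Sum.inr ⟨l, by omega⟩, rfl⟩
  obtain ⟨c, hc0, hc⟩ := pigeon (K := K) ⊥ (fun i : Fin (n + k + 1) => S.d (a i)) w
    (fun i => Submodule.mem_sup_right (Fl_le h3 (Fl_mono _ (by have := i.2; omega) (h2 i))))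
    (by simp)
  have hli' := hli.comp (fun i : Fin (n + k + 1) => (i : ℕ)) Fin.val_injective
  exact hc0 (funext (Fintype.linearIndependent_iff.mp hli' c ((Submodule.mem_bot K).mp hc)))

/-- `X` kills all the derivatives of `f`. -/
def Kills (X : Dual K Ω) (f : K) : Prop := ∀ k, X (S.d (S.it D k f)) = 0

theorem Kills.ad {X : Dual K Ω} {f : K} (h : S.Kills D X f) : S.Kills D (S.br X D) f := by
  intro k
  rw [S.br_apply, ← S.it_succ, h, h]
  simp

theorem coord_shift {e : ℕ → K} (he : ∀ n, D (S.d (e n)) = e (n + 2)) (B : Basis ℕ K Ω)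
    (hB : ∀ n, B n = S.d (e n)) (n : ℕ) : S.br (B.coord (n + 2)) D = B.coord n := by
  classical
  refine B.ext fun i => ?_
  rw [hB, S.br_apply, he, ← hB, ← hB]
  simp [Finsupp.single_apply, S.d_ite]

theorem order {e : ℕ → K} (he : ∀ n, D (S.d (e n)) = e (n + 2)) (B : Basis ℕ K Ω)
    (hB : ∀ n, B n = S.d (e n)) (Y x : K) (N r r' : ℕ) (hr : r + r' = 1)
    (hsp : ∀ X, S.Kills D X Y → S.Kills D X x → X = 0)
    (hw : ∀ X : Dual K Ω, (∀ k < N, X (S.d (S.it D k Y)) = 0) → S.Kills D X x →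
      X (S.d (e r')) = 0) (k : ℕ) (hk : N ≤ k) : B.coord (r + 2 * k) (S.d x) = 0 := by
  classical
  by_contra hne
  have hco : ∀ i j, B.coord i (S.d (e j)) = if j = i then 1 else 0 := by
    intro i j
    rw [← hB]; simp [Finsupp.single_apply]
  obtain ⟨n0, hn0⟩ := exists_Fl (v := fun i => S.d (e i)) (u := S.d x) (by
    have := B.span_eq
    rw [show (B : ℕ → Ω) = fun i => S.d (e i) from funext hB] at this
    rw [this]; trivial)
  have hbig : ∀ l, n0 ≤ l → B.coord (r + 2 * l) (S.d x) = 0 := fun l hl =>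
    Fl_kill (fun i hi => by rw [hco, if_neg (by omega)]) hn0
  have hk0 : k ≤ n0 := by
    by_contra h
    exact hne (hbig k (by omega))
  obtain ⟨E, hkE, hE, hEmax⟩ : ∃ E, k ≤ E ∧ B.coord (r + 2 * E) (S.d x) ≠ 0 ∧
      ∀ l, E < l → B.coord (r + 2 * l) (S.d x) = 0 := by
    refine ⟨Nat.findGreatest (fun l => B.coord (r + 2 * l) (S.d x) ≠ 0) n0,
      Nat.le_findGreatest hk0 hne, Nat.findGreatest_spec (P := fun l =>
        B.coord (r + 2 * l) (S.d x) ≠ 0) hk0 hne, fun l hl => ?_⟩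
    by_cases h : l ≤ n0
    · simpa using Nat.findGreatest_is_greatest hl h
    · exact hbig l (by omega)
  obtain ⟨q, hq, hqs⟩ := S.chain D (fun l => B.coord (r + 2 * l))
    (fun l => S.coord_shift D he B hB (r + 2 * l))
  have hq0 : ∀ i < -1 - (E : ℤ), q i (S.d x) = 0 := by
    intro i hi
    rw [show i = -1 - ((-1 - i).toNat : ℕ) by omega, hq]
    exact hEmax _ (by omega)
  have htri : ∀ (M : Submodule K Ω), (∀ l, ∀ m ∈ M, B.coord (r + 2 * (E + l)) m = 0) →
      ∀ ρ ∈ M ⊔ Submodule.span K (Set.range fun l => S.d (S.it D l x)),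
      (∀ l, B.coord (r + 2 * (E + l)) ρ = 0) → ρ ∈ M := by
    intro M hM ρ hρ h4
    have := tri_mem M (fun l => S.d (S.it D l x)) (fun l => B.coord (r + 2 * (E + l))) 0
      (fun l _ => by
        rw [← hq, (S.rel_deg D q hqs x _ hq0 l).2 _ (by push_cast; ring), hq]; exact hE)
      (fun l l' _ hl => by
        rw [← hq]; exact (S.rel_deg D q hqs x _ hq0 l').1 _ (by push_cast; omega))
      (fun l _ => hM l) hρ (fun l _ => h4 l)
    simpa using this
  have hex : ∃ M, ∀ X : Dual K Ω, (∀ k < M, X (S.d (S.it D k Y)) = 0) → S.Kills D X x →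
      X (S.d (e r')) = 0 := ⟨N, hw⟩
  obtain ⟨M, hMN, hM, hMmin⟩ : ∃ M ≤ N, (∀ X : Dual K Ω, (∀ k < M, X (S.d (S.it D k Y)) = 0) →
      S.Kills D X x → X (S.d (e r')) = 0) ∧ ∀ M' < M, ¬ ∀ X : Dual K Ω,
      (∀ k < M', X (S.d (S.it D k Y)) = 0) → S.Kills D X x → X (S.d (e r')) = 0 :=
    ⟨Nat.find hex, Nat.find_min' hex hw, Nat.find_spec hex, fun M' h => Nat.find_min hex h⟩
  cases M with
  | zero =>
    have := htri ⊥ (fun l m hm => by rw [(Submodule.mem_bot K).mp hm, map_zero]) (S.d (e r'))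
      (mem_of_forall_dual fun X hX => hM X (by simp) fun l =>
        hX _ (Submodule.mem_sup_right (Submodule.subset_span ⟨l, rfl⟩)))
      (fun l => by rw [hco, if_neg (by omega)])
    have h1 := hco r' r'
    rw [(Submodule.mem_bot K).mp this] at h1
    simp at h1
  | succ M =>
    have hM0 := hMmin M (by omega)
    push Not at hM0
    obtain ⟨X0, hX0, hX0x, hX0w⟩ := hM0
    have hP : ∀ l, ∀ X : Dual K Ω, S.Kills D X (e r') → S.Kills D X x →
        (∀ k < M + l, X (S.d (S.it D k Y)) = 0) → X (S.d (S.it D (M + l) Y)) = 0 := by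
      intro l
      induction l with
      | zero =>
        intro X hXw hXx hXY
        have := hM (X0 (S.d (S.it D M Y)) • X - X (S.d (S.it D M Y)) • X0) (fun k hk => by
          rcases Nat.lt_succ_iff_lt_or_eq.mp hk with h | rfl
          · simp [hX0 k h, hXY k h]
          · simp [mul_comm]) (fun k => by simp [hXx k, hX0x k])
        have h1 : X (S.d (e r')) = 0 := hXw 0
        simp only [LinearMap.sub_apply, LinearMap.smul_apply, smul_eq_mul, h1, mul_zero, zero_sub,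
          neg_eq_zero] at this
        exact (mul_eq_zero.mp this).resolve_right hX0w
      | succ l ih =>
        intro X hXw hXx hXY
        rw [← add_assoc, S.ap_it_succ, hXY _ (by omega), ih _ hXw.ad hXx.ad fun k hk => by
          rw [S.br_apply, ← S.it_succ, hXY _ (by omega), hXY _ (by omega)]; simp]
        simp
    let R : Submodule K Ω := Submodule.span K (Set.range fun l => S.d (e (r' + 2 * l)))
    obtain ⟨c, hc0, hc⟩ := pigeon (K := K)
      (R ⊔ Submodule.span K (Set.range fun l => S.d (S.it D l x)))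
      (fun i : Fin E => S.d (e (r + 2 * i))) (fun i : Fin M => S.d (S.it D i Y))
      (fun i => mem_of_forall_dual fun X hX => by
        have hXw : S.Kills D X (e r') := fun l => by
          rw [S.it_seq D he]
          exact hX _ (Submodule.mem_sup_left (Submodule.mem_sup_left
            (Submodule.subset_span ⟨l, rfl⟩)))
        have hXx : S.Kills D X x := fun l => hX _ (Submodule.mem_sup_left (Submodule.mem_sup_right
            (Submodule.subset_span ⟨l, rfl⟩)))
        have hXY : S.Kills D X Y := by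
          intro m
          induction m using Nat.strong_induction_on with
          | _ m ih =>
            by_cases hm : m < M
            · exact hX _ (Submodule.mem_sup_right (Submodule.subset_span ⟨⟨m, hm⟩, rfl⟩))
            · obtain ⟨l, rfl⟩ : ∃ l, m = M + l := ⟨m - M, by omega⟩
              exact hP l X hXw hXx ih
        rw [hsp X hXY hXx, LinearMap.zero_apply]) (by simp; omega)
    have hR : ∀ l, ∀ m ∈ R, B.coord (r + 2 * l) m = 0 := fun l m hm => kill_span (by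
      rintro _ ⟨l', rfl⟩
      rw [hco, if_neg (by omega)]) hm
    have h1 := htri R (fun l => hR (E + l)) _ hc (fun l => by
      rw [map_sum]
      refine sum_eq_zero fun i _ => ?_
      rw [map_smul, hco, if_neg (by have := i.2; omega), smul_zero])
    obtain ⟨i0, hi0⟩ := Function.ne_iff.mp hc0
    have h2 := hR i0 _ h1
    rw [map_sum, sum_eq_single i0] at h2
    · rw [map_smul, hco, if_pos rfl, smul_eq_mul, mul_one] at h2
      exact hi0 h2
    · intro i _ hi
      rw [map_smul, hco, if_neg (fun h => hi (Fin.ext (by omega))), smul_zero]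
    · simp

end LR

end Pool.Agent.Work.MP_3007d7_an
end

-- merged part: Pool.Agent.Work.MP_3007d7_an.Build
section
/- No parametrisation of `Y' = Φ x^(N)` has order below `N` in both `x` and `Φ`. -/

namespace Pool.Agent.Work.MP_3007d7_an

open Module Finset

variable {K : Type*} [Field K] {Ω : Type*} [AddCommGroup Ω] [Module K Ω]

/-- Adapted coordinates. -/
structure Adapt (S : LR K Ω) (D : Dual K Ω) (e : ℕ → K) (P : ℕ → Dual K Ω) (x : K)
    (L n0 n1 : ℕ) : Prop where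
  idx : (n0 = 2 * L ∧ n1 = 2 * L + 1) ∨ (n0 = 2 * L + 1 ∧ n1 = 2 * L)
  ext : ∀ X : Dual K Ω, (∀ i, X (S.d (e i)) = 0) → X = 0
  co : ∀ n i, P n (S.d (e i)) = if i = n then 1 else 0
  sh : ∀ i, i + 2 ≠ n0 → D (S.d (e i)) = e (i + 2)
  sh0 : ∀ i, i + 2 = n0 → P n0 (S.d (D (S.d (e i)))) ≠ 0 ∧
    ∀ n, n0 < n → P n (S.d (D (S.d (e i)))) = 0
  ex : ∀ k, S.it D k x = e (n0 + 2 * k)

theorem LR.exists_adapt (S : LR K Ω) (D : Dual K Ω) {e : ℕ → K}
    (he : ∀ n, D (S.d (e n)) = e (n + 2)) (hli : LinearIndependent K fun n => S.d (e n))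
    (hsp : Submodule.span K (Set.range fun n => S.d (e n)) = ⊤) (x : K) (hx0 : S.d x ≠ 0) (M : ℕ)
    (hx : S.d x ∈ Fl K (fun i => S.d (e i)) M) :
    ∃ (e' : ℕ → K) (P : ℕ → Dual K Ω) (L n0 n1 : ℕ), Adapt S D e' P x L n0 n1 ∧ n0 < M ∧
      ∀ n, Fl K (fun i => S.d (e' i)) n = Fl K (fun i => S.d (e i)) n := by
  classical
  have hex : ∃ n, S.d x ∈ Fl K (fun i => S.d (e i)) n := ⟨M, hx⟩
  have hpos : Nat.find hex ≠ 0 := by
    intro h0
    have := Nat.find_spec hex
    rw [h0] at this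
    exact hx0 (by simpa [Fl] using this)
  obtain ⟨n0, hn0⟩ := Nat.exists_eq_succ_of_ne_zero hpos
  have hn0M : n0 < M := by have := Nat.find_min' hex hx; omega
  have hx1 : S.d x ∈ Fl K (fun i => S.d (e i)) (n0 + 1) := by
    have := Nat.find_spec hex
    rwa [hn0] at this
  obtain ⟨c, hc⟩ := Fl_top hx1
  have hc0 : c ≠ 0 := by
    rintro rfl
    exact Nat.find_min hex (m := n0) (by omega) (by simpa using hc)
  have ha : ∀ k, S.d (S.it D k x) - c • S.d (e (n0 + 2 * k)) ∈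
      Fl K (fun i => S.d (e i)) (n0 + 2 * k) := by
    intro k
    induction k with
    | zero => exact hc
    | succ k ih =>
      refine mem_Fl_of_dual fun X hX => ?_
      have h1 : S.br X D _ = 0 := Fl_kill (fun i hi => by
        rw [S.br_apply, he, hX _ (by omega), hX _ (by omega)]; simp) ih
      have h2 : X _ = 0 := Fl_kill (fun i hi => hX i (by omega)) ih
      simp only [map_sub, map_smul, S.br_apply, he, hX (n0 + 2 * k) (by omega), smul_zero,
        sub_zero, map_zero] at h1 h2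
      rw [h2, ← S.it_succ] at h1
      simpa [Nat.mul_succ, add_assoc] using h1
  obtain ⟨e', he'⟩ : ∃ e' : ℕ → K, ∀ n, e' n =
    if n0 ≤ n ∧ (n - n0) % 2 = 0 then S.it D ((n - n0) / 2) x else e n := ⟨_, fun _ => rfl⟩
  have hea : ∀ k, e' (n0 + 2 * k) = S.it D k x := by
    intro k
    rw [he', if_pos (by omega)]
    congr 1; omega
  have htri : ∀ n, ∃ c' : K, c' ≠ 0 ∧ S.d (e' n) - c' • S.d (e n) ∈ Fl K (fun i => S.d (e i)) n := by
    intro n
    by_cases h : n0 ≤ n ∧ (n - n0) % 2 = 0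
    · obtain ⟨k, rfl⟩ : ∃ k, n = n0 + 2 * k := ⟨(n - n0) / 2, by omega⟩
      exact ⟨c, hc0, hea k ▸ ha k⟩
    · exact ⟨1, one_ne_zero, by rw [he', if_neg h]; simp⟩
  have hFl : ∀ n, Fl K (fun i => S.d (e' i)) n = Fl K (fun i => S.d (e i)) n := by
    intro n
    apply le_antisymm
    · refine Fl_le fun i hi => ?_
      obtain ⟨c', -, h⟩ := htri i
      have := Submodule.add_mem _ (Fl_mono _ hi.le h)
        (Submodule.smul_mem _ c' (mem_Fl (fun i => S.d (e i)) hi))
      simpa using this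
    · induction n with
      | zero => exact Fl_le fun i hi => absurd hi (by omega)
      | succ n ih =>
        refine Fl_le fun i hi => ?_
        rcases Nat.lt_succ_iff_lt_or_eq.mp hi with h | rfl
        · exact Fl_mono _ (by omega) (ih (mem_Fl _ h))
        · obtain ⟨c', hc', h⟩ := htri i
          rw [← Submodule.smul_mem_iff _ hc']
          have := Submodule.sub_mem _ (mem_Fl (fun i => S.d (e' i)) hi)
            (Fl_mono _ (Nat.le_succ i) (ih h))
          simpa using this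
  have hli' : LinearIndependent K fun n => S.d (e' n) := by
    refine li_of_tri fun n hn => ?_
    obtain ⟨c', hc', h⟩ := htri n
    rw [hFl] at hn
    have h1 := Submodule.sub_mem _ hn h
    rw [sub_sub_cancel, Submodule.smul_mem_iff _ hc'] at h1
    exact hli.notMem_span_image (s := Set.Iio n) (by simp) h1
  have hsp' : ⊤ ≤ Submodule.span K (Set.range fun n => S.d (e' n)) := by
    intro v _
    obtain ⟨n, hn⟩ := exists_Fl (v := fun i => S.d (e i)) (u := v) (by rw [hsp]; trivial)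
    rw [← hFl] at hn
    exact Submodule.span_mono (Set.image_subset_range _ _) hn
  let B := Basis.mk hli' hsp'
  have hB : ∀ n, B n = S.d (e' n) := fun n => Basis.mk_apply _ _ n
  have hco : ∀ n i, B.coord n (S.d (e' i)) = if i = n then 1 else 0 := by
    intro n i
    rw [← hB]; simp [Finsupp.single_apply]
  have hkill : ∀ n m, m ≤ n → ∀ v ∈ Fl K (fun i => S.d (e i)) m, B.coord n v = 0 := by
    intro n m hm v hv
    rw [← hFl] at hv
    exact Fl_kill (fun i hi => by rw [hco, if_neg (by omega)]) hv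
  refine ⟨e', B.coord, n0 / 2, n0, if n0 % 2 = 0 then n0 + 1 else n0 - 1, ⟨?_, ?_, hco, ?_, ?_,
    fun k => (hea k).symm⟩, hn0M, hFl⟩
  · split_ifs <;> omega
  · intro X hX
    exact B.ext fun i => by rw [hB, hX, LinearMap.zero_apply]
  · intro i hi
    by_cases h : n0 ≤ i ∧ (i - n0) % 2 = 0
    · obtain ⟨k, rfl⟩ : ∃ k, i = n0 + 2 * k := ⟨(i - n0) / 2, by omega⟩
      rw [hea, ← S.it_succ, ← hea]; rfl
    · rw [he' i, if_neg h, he' (i + 2), if_neg (by omega), he]
  · intro i hi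
    rw [he' i, if_neg (by omega), he, hi]
    refine ⟨fun h0 => ?_, fun n hn => hkill n (n0 + 1) hn _ (mem_Fl _ (by omega))⟩
    have h1 := hkill n0 n0 le_rfl _ hc
    have h2 := hco n0 n0
    rw [map_sub, map_smul, h0, smul_zero, sub_zero] at h1
    have h3 : e' n0 = x := hea 0
    rw [h3, h1] at h2
    simp at h2

/-- Fields supported on the top `t` layers of the low coordinates. -/
def InW (S : LR K Ω) (e : ℕ → K) (L t : ℕ) (X : Dual K Ω) : Prop :=
  ∀ i, (2 * L ≤ i ∨ i + 2 * t < 2 * L) → X (S.d (e i)) = 0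

namespace Adapt

variable {S : LR K Ω} {D : Dual K Ω} {e : ℕ → K} {P : ℕ → Dual K Ω} {x : K} {L n0 n1 : ℕ}
  (h : Adapt S D e P x L n0 n1)

include h

theorem ext' {X Y : Dual K Ω} (hXY : ∀ i, X (S.d (e i)) = Y (S.d (e i))) : X = Y :=
  sub_eq_zero.mp (h.ext _ fun i => by rw [LinearMap.sub_apply, hXY, sub_self])

theorem adP (n : ℕ) (hn : 2 * L ≤ n) : S.br (P (n + 2)) D = P n := by
  have := h.idx
  refine h.ext' fun i => ?_
  rw [S.br_apply, h.co, S.d_ite, map_zero, sub_zero, h.co]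
  by_cases hi : i + 2 = n0
  · rw [(h.sh0 i hi).2 _ (by omega), if_neg (by omega)]
  · rw [h.sh i hi, h.co]; simp

theorem comm (n m : ℕ) : S.br (P n) (P m) = 0 :=
  h.ext _ fun i => by rw [S.br_apply, h.co, h.co, S.d_ite, S.d_ite]; simp

theorem inW_ad {t : ℕ} {X : Dual K Ω} (hX : InW S e L t X) : InW S e L (t + 1) (S.br X D) := by
  have := h.idx
  intro i hi
  rw [S.br_apply, h.sh i (by omega), hX _ (by omega), hX _ (by omega)]
  simp

theorem chain_inW {q : ℤ → Dual K Ω} (hq : ∀ i, S.br (q i) D = q (i + 1)) {n : ℕ}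
    (hn : n = n0 ∨ n = n1) (h0 : q (-1) = P n) (t : ℕ) : InW S e L (t + 1) (q t) := by
  have := h.idx
  induction t with
  | zero =>
    intro i hi
    rw [show ((0 : ℕ) : ℤ) = -1 + 1 by simp, ← hq, h0, S.br_apply, h.co, S.d_ite,
      h.sh i (by omega), h.co, if_neg (by omega)]
    simp
  | succ t ih =>
    have := h.inW_ad ih
    rwa [hq] at this

theorem chain_val {q : ℤ → Dual K Ω} (hq : ∀ i, S.br (q i) D = q (i + 1)) {n : ℕ}
    (hn : n = n0 ∨ n = n1) (h0 : q (-1) = P n) (t i j : ℕ) (hj : i + 2 * t = j) (hjL : j < 2 * L) :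
    (2 * L ≤ j + 2) → q t (S.d (e i)) = P n (S.d (D (S.d (e j)))) := by
  have := h.idx
  intro hj2
  induction t generalizing i with
  | zero =>
    obtain rfl : i = j := by omega
    rw [show ((0 : ℕ) : ℤ) = -1 + 1 by simp, ← hq, h0, S.br_apply, h.co, S.d_ite]
    simp
  | succ t ih =>
    rw [Nat.cast_succ, ← hq, S.br_apply, h.sh i (by omega), ih (i + 2) (by omega),
      h.chain_inW hq hn h0 t i (by omega)]
    simp

theorem W_le {g s : ℤ → Dual K Ω} (hg : ∀ i, S.br (g i) D = g (i + 1))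
    (hs : ∀ i, S.br (s i) D = s (i + 1)) (g0 : g (-1) = P n1) (s0 : s (-1) = P n0) (t : ℕ) :
    ∀ X, InW S e L t X → X ∈ Wd g s t := by
  have hidx := h.idx
  induction t with
  | zero =>
    intro X hX
    rw [h.ext X fun i => hX i (by omega)]
    exact zero_mem _
  | succ t ih =>
    intro X hX
    have hmono : Wd g s t ≤ Wd g s (t + 1) :=
      Wd_le (fun i h0 hi => Submodule.mem_sup_left (mem_Dl h0 (by push_cast; omega)))
        (fun j hj => Submodule.mem_sup_right (Submodule.subset_span ⟨j, by simp; omega, rfl⟩))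
    by_cases ht : L ≤ t
    · exact hmono (ih X fun i hi => hX i (by omega))
    obtain ⟨a, ha⟩ : ∃ a, a + 2 * t + 2 = n1 := ⟨n1 - 2 - 2 * t, by omega⟩
    obtain ⟨b, hb⟩ : ∃ b, b + 2 * t + 2 = n0 := ⟨n0 - 2 - 2 * t, by omega⟩
    have hga : g t (S.d (e a)) = 1 := by
      rw [h.chain_val hg (Or.inr rfl) g0 t a _ rfl (by omega) (by omega), h.sh _ (by omega), h.co,
        if_pos ha]
    have hsa : s t (S.d (e a)) = 0 := by
      rw [h.chain_val hs (Or.inl rfl) s0 t a _ rfl (by omega) (by omega), h.sh _ (by omega), h.co,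
        if_neg (by omega)]
    have hsb : s t (S.d (e b)) ≠ 0 := by
      rw [h.chain_val hs (Or.inl rfl) s0 t b _ rfl (by omega) (by omega)]
      exact (h.sh0 _ hb).1
    have h1 := ih (X - X (S.d (e a)) • g t -
      ((X (S.d (e b)) - X (S.d (e a)) * g t (S.d (e b))) / s t (S.d (e b))) • s t) (by
        intro i hi
        simp only [LinearMap.sub_apply, LinearMap.smul_apply, smul_eq_mul]
        by_cases hia : i = a
        · rw [hia, hga, hsa]; ring
        by_cases hib : i = b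
        · rw [hib]; field_simp; ring
        rw [hX i (by omega), h.chain_inW hg (Or.inr rfl) g0 t i (by omega),
          h.chain_inW hs (Or.inl rfl) s0 t i (by omega)]
        ring)
    have h2 : g t ∈ Wd g s (t + 1) := Submodule.mem_sup_left (mem_Dl (by omega) (by simp))
    have h3 : s t ∈ Wd g s (t + 1) :=
      Submodule.mem_sup_right (Submodule.subset_span ⟨t, by simp, rfl⟩)
    exact (Submodule.sub_mem_iff_left _ (Submodule.smul_mem _ _ h2)).mp
      ((Submodule.sub_mem_iff_left _ (Submodule.smul_mem _ _ h3)).mp (hmono h1))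

theorem fin_supp (f : K) : ∃ M, ∀ n, M ≤ n → P n (S.d f) = 0 := by
  obtain ⟨M, hM⟩ := exists_Fl (K := K) (v := fun i => S.d (e i)) (u := S.d f)
    (mem_of_forall_dual fun X hX => by
      rw [h.ext X fun i => hX _ (Submodule.subset_span ⟨i, rfl⟩), LinearMap.zero_apply])
  exact ⟨M, fun n hn => Fl_kill (fun i hi => by rw [h.co, if_neg (by omega)]) hM⟩

theorem false [CharZero K] {Y Φ : K} {p : ℕ} (hY : D (S.d Y) = Φ * S.it D (L + p + 1) x)
    (hΦ : S.d Φ ∈ Fl K (fun i => S.d (e i)) (2 * (L + p + 1)))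
    (hsp : ∀ X, S.Kills D X Y → S.Kills D X x → X = 0) : False := by
  have hidx := h.idx
  obtain ⟨g, hgP, hg⟩ := S.chain D (fun k => P (n1 + 2 * k)) fun k => h.adP (n1 + 2 * k) (by omega)
  obtain ⟨s, hsP, hs⟩ := S.chain D (fun k => P (n0 + 2 * k)) fun k => h.adP (n0 + 2 * k) (by omega)
  have g0 : g (-1) = P n1 := by simpa using hgP 0
  have s0 : s (-1) = P n0 := by simpa using hsP 0
  have hneg : ∀ i : ℤ, i < 0 → ∃ k : ℕ, i = -1 - k := fun i hi => ⟨(-1 - i).toNat, by omega⟩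
  have hgW := h.chain_inW hg (Or.inr rfl) g0
  have hsW := h.chain_inW hs (Or.inl rfl) s0
  have hgx : ∀ i, S.Kills D (g i) x := by
    intro i k
    rw [h.ex]
    rcases lt_or_ge i 0 with hi | hi
    · obtain ⟨l, rfl⟩ := hneg i hi
      rw [hgP, h.co, if_neg (by omega)]
    · obtain ⟨l, rfl⟩ := Int.eq_ofNat_of_zero_le hi
      exact hgW l _ (by omega)
  have hsd : ∀ (j : ℤ) (t i : ℕ), j < t → (2 * L ≤ i ∨ i + 2 * t < 2 * L) →
      S.d (s j (S.d (e i))) = 0 := by
    intro j t i hj hi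
    rcases lt_or_ge j 0 with h0 | h0
    · obtain ⟨l, rfl⟩ := hneg j h0
      rw [hsP, h.co, S.d_ite]
    · obtain ⟨l, rfl⟩ := Int.eq_ofNat_of_zero_le h0
      rw [hsW l _ (by omega), map_zero]
  have hsΦ : ∀ j : ℤ, j < -1 - p → s j (S.d Φ) = 0 := by
    intro j hj
    obtain ⟨l, rfl⟩ := hneg j (by omega)
    rw [hsP]
    exact Fl_kill (fun i hi => by rw [h.co, if_neg (by omega)]) hΦ
  have hrec : ∀ k : ℕ, p ≤ k → s (-1 - k) (S.d Y) = (if k = L + p then Φ else 0) -
      D (S.d (s (-1 - (k + 1 : ℕ)) (S.d Y))) := by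
    intro k hk
    rw [show -1 - (k : ℤ) = -1 - (k + 1 : ℕ) + 1 by push_cast; ring, ← hs, S.br_apply, hY,
      S.ap_mul, hsΦ _ (by push_cast; omega), h.ex, hsP, h.co]
    congr 1
    by_cases hk' : k = L + p
    · rw [if_pos hk', if_pos (by omega)]; simp
    · rw [if_neg hk', if_neg (by omega)]; simp
  obtain ⟨M, hM⟩ := h.fin_supp Y
  have hbig : ∀ m k : ℕ, L + p < k → M ≤ k + m → s (-1 - k) (S.d Y) = 0 := by
    intro m
    induction m with
    | zero => intro k _ hk; rw [hsP]; exact hM _ (by omega)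
    | succ m ih =>
      intro k hk hk'
      rw [hrec k (by omega), if_neg (by omega), ih (k + 1) (by omega) (by omega)]
      simp
  have hsY : ∀ k m : ℕ, p ≤ k → k + m = L + p → s (-1 - k) (S.d Y) = (-1) ^ m * S.it D m Φ := by
    intro k m
    induction m generalizing k with
    | zero =>
      intro hk hkm
      rw [hrec k hk, if_pos (by omega), hbig M (k + 1) (by omega) (by omega)]
      simp
    | succ m ih =>
      intro hk hkm
      rw [hrec k hk, if_neg (by omega), ih (k + 1) (by omega) (by omega), ← S.it_sign,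
        ← S.it_succ, S.it_sign]
      ring
  obtain ⟨ρ, hρ1, hρ0⟩ : ∃ ρ : ℤ, g ρ (S.d Y) ≠ 0 ∧ ∀ z, g z (S.d Y) ≠ 0 → ρ ≤ z := by
    refine Int.exists_least_of_bdd ⟨-1 - M, fun z hz => ?_⟩ ?_
    · by_contra hlt
      obtain ⟨l, rfl⟩ := hneg z (by omega)
      rw [hgP] at hz
      exact hz (hM _ (by omega))
    · by_contra hne
      push Not at hne
      have h1 := hsp (g (-1)) (fun m => (S.rel_deg D g hg Y m (fun i _ => hne i) m).1 _ (by omega))
        (hgx _)
      have h2 := h.co n1 n1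
      rw [← g0, h1] at h2
      simp at h2
  have hgY0 : ∀ i < ρ, g i (S.d Y) = 0 := fun i hi => by
    by_contra hne
    have := hρ0 i hne
    omega
  have H : Hyp S D g s Y Φ (S.it D (L + p + 1) x) L p ρ :=
    { hg := hg
      hs := hs
      gs := fun i j hi hj => by
        obtain ⟨k, rfl⟩ := hneg i hi
        obtain ⟨l, rfl⟩ := hneg j hj
        rw [hgP, hsP, h.comm]
      ss := fun i j hi hj => by
        obtain ⟨k, rfl⟩ := hneg i hi
        obtain ⟨l, rfl⟩ := hneg j hj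
        rw [hsP, hsP, h.comm]
      dY := hY
      E0 := fun h0 => by
        have h2 := h.co (n0 + 2 * (L + p + 1)) (n0 + 2 * (L + p + 1))
        rw [← h.ex, h0] at h2
        simp at h2
      gE := fun i => hgx i _
      GE := fun i j => by
        rw [S.br_apply, hgx i, h.ex, hsd j (j.toNat + 1) _ (by omega) (by omega)]
        simp
      sY := hsY
      sΦ := hsΦ
      gY0 := hgY0
      gY1 := hρ1
      W1 := fun i => h.W_le hg hs g0 s0 L _ fun k hk => hgW i k (by omega)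
      W2 := fun i j hj => h.W_le hg hs g0 s0 _ _ fun k hk => by
        rw [S.br_apply, hgW i k hk, hsd j (i + 1) k (by push_cast; omega) hk]
        simp }
  obtain ⟨j0, hj0, -⟩ := H.exists_j0
  obtain ⟨r, rfl⟩ := Int.eq_ofNat_of_zero_le (show 0 ≤ ρ by omega)
  have hsep : ∀ X, InW S e L L X → (∀ m < r + 1, X (S.d (S.it D m Y)) = 0) → X = 0 := by
    intro X hX hXY
    refine h.ext X fun i => ?_
    by_cases hi : 2 * L ≤ i
    · exact hX i (Or.inl hi)
    have h1 := tri_mem (Submodule.span K (Set.range fun k => S.d (S.it D k x)))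
      (fun l => S.d (S.it D l Y)) (fun l => g (r - l)) (r + 1)
      (fun l _ => by rw [(S.rel_deg D g hg Y r hgY0 l).2 _ (by ring)]; exact hρ1)
      (fun l l' _ hl => (S.rel_deg D g hg Y r hgY0 l').1 _ (by omega))
      (fun l _ m hm => kill_span (by rintro _ ⟨k, rfl⟩; exact hgx _ k) hm) (ρ := S.d (e i))
      (mem_of_forall_dual fun Z hZ => by
        rw [hsp Z (fun k => hZ _ (Submodule.mem_sup_right (Submodule.subset_span ⟨k, rfl⟩)))
          (fun k => hZ _ (Submodule.mem_sup_left (Submodule.subset_span ⟨k, rfl⟩))),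
          LinearMap.zero_apply])
      (fun l hl => by
        obtain ⟨k, hk⟩ := hneg (r - l) (by omega)
        rw [hk, hgP, h.co, if_neg (by omega)])
    obtain ⟨a, ha, b, hb, hab⟩ := Submodule.mem_sup.mp h1
    rw [← hab, map_add, kill_span (by
      rintro _ ⟨k, rfl⟩
      simp only [h.ex]; exact hX _ (by omega)) ha, kill_span (by
      rintro _ ⟨k, hk, rfl⟩
      exact hXY k hk) hb, add_zero]
  have helim : ∀ X, InW S e L L X → X ∈ Dl g r := by
    intro X hX
    have : ∀ m ≤ r + 1, ∃ Z ∈ Dl g r, InW S e L L (X - Z) ∧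
        ∀ l < m, (X - Z) (S.d (S.it D l Y)) = 0 := by
      intro m
      induction m with
      | zero => exact fun _ => ⟨0, zero_mem _, by simpa using hX, by simp⟩
      | succ m ih =>
        intro hm
        obtain ⟨Z, hZ, hZW, hZY⟩ := ih (by omega)
        obtain ⟨a, ha⟩ : ∃ a : ℕ, a + m = r := ⟨r - m, by omega⟩
        refine ⟨Z + ((X - Z) (S.d (S.it D m Y)) / g r (S.d Y)) • g a,
          Submodule.add_mem _ hZ (Submodule.smul_mem _ _ (mem_Dl (by omega) (by omega))),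
          fun i hi => ?_, fun l hl => ?_⟩
        · rw [← sub_sub, LinearMap.sub_apply, hZW i hi, LinearMap.smul_apply, hgW a i (by omega)]
          simp
        · rw [← sub_sub, LinearMap.sub_apply, LinearMap.smul_apply]
          rcases Nat.lt_succ_iff_lt_or_eq.mp hl with hl' | rfl
          · rw [hZY l hl', (S.rel_deg D g hg Y r hgY0 l).1 _ (by omega)]
            simp
          · rw [(S.rel_deg D g hg Y r hgY0 l).2 _ (by omega), smul_eq_mul,
              div_mul_cancel₀ _ hρ1, sub_self]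
    obtain ⟨Z, hZ, hZW, hZY⟩ := this (r + 1) le_rfl
    rwa [sub_eq_zero.mp (hsep _ hZW hZY)]
  refine H.core fun t => Wd_le (fun i h0 _ => ?_) (fun j _ => ?_)
  · obtain ⟨l, rfl⟩ := Int.eq_ofNat_of_zero_le h0
    exact helim _ fun k hk => hgW l k (by omega)
  · exact helim _ fun k hk => hsW j k (by omega)

end Adapt

theorem LR.no_low_param [CharZero K] (S : LR K Ω) (D : Dual K Ω) {e : ℕ → K}
    (he : ∀ n, D (S.d (e n)) = e (n + 2)) (hli : LinearIndependent K fun n => S.d (e n))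
    (hsp : Submodule.span K (Set.range fun n => S.d (e n)) = ⊤) (x Y Φ : K) (hx0 : S.d x ≠ 0)
    (N : ℕ) (hx : S.d x ∈ Fl K (fun i => S.d (e i)) (2 * N))
    (hΦ : S.d Φ ∈ Fl K (fun i => S.d (e i)) (2 * N)) (hY : D (S.d Y) = Φ * S.it D N x)
    (hYx : ∀ X, S.Kills D X Y → S.Kills D X x → X = 0) : False := by
  obtain ⟨e', P, L, n0, n1, h, hn0, hFl⟩ := S.exists_adapt D he hli hsp x hx0 _ hx
  have := h.idx
  obtain ⟨p, rfl⟩ : ∃ p, N = L + p + 1 := ⟨N - L - 1, by omega⟩
  exact h.false hY (by rw [hFl]; exact hΦ) hYx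

end Pool.Agent.Work.MP_3007d7_an
end
end

-- merged part: Pool.Agent.Work.MP_3007d7_an.Main
section
-- merged part: Pool.Agent.Work.MP_3007d7_an.Sys
section
/- The algebraic theorem for the bilinear system, and the calculus attached to a family of
commuting derivations. -/

namespace Pool.Agent.Work.MP_3007d7_an

open Module Finset

variable {K : Type*} [Field K] {Ω : Type*} [AddCommGroup Ω] [Module K Ω]

namespace LR

variable (S : LR K Ω) (D : Dual K Ω)

theorem by_parts (x1 x2 : K) (a : ℕ) : ∀ (b : ℕ) (f : K),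
    D (S.d f) = S.it D a x1 * S.it D b x2 →
    ∃ Y, D (S.d Y) = (-1) ^ a * x1 * S.it D (a + b) x2 ∧ ∀ X : Dual K Ω, S.Kills D X x2 →
      (∀ k < a, X (S.d (S.it D k x1)) = 0) → X (S.d Y) = X (S.d f) := by
  induction a with
  | zero => exact fun b f hf => ⟨f, by simpa using hf, fun _ _ _ => rfl⟩
  | succ a ih =>
    intro b f hf
    obtain ⟨Y, hY, hX⟩ := ih (b + 1) (S.it D a x1 * S.it D b x2 - f) (by
      rw [map_sub, map_sub, S.ap_mul, hf, ← S.it_succ, ← S.it_succ]; ring)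
    refine ⟨-Y, ?_, fun X h2 h1 => ?_⟩
    · rw [map_neg, map_neg, hY, show a + (b + 1) = a + 1 + b by ring]; ring
    · rw [map_neg, map_neg, hX X h2 fun k hk => h1 k (by omega), map_sub, map_sub, S.ap_mul, h2,
        h1 a (by omega)]
      ring

theorem half (x1 x2 x3 : K) (α1 α2 σ : ℕ) (hσ : σ < α2)
    (h3 : D (S.d x3) = S.it D α1 x1 * S.it D α2 x2) (hE : S.it D (α1 + α2) x2 ≠ 0)
    (hext : ∀ X, S.Kills D X x1 → S.Kills D X x2 → X (S.d x3) = 0 → X = 0) :
    ∃ Y, D (S.d Y) = (-1) ^ α1 * x1 * S.it D (α1 + α2) x2 ∧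
      (∀ X, S.Kills D X Y → S.Kills D X x2 → X = 0) ∧
      ∀ X : Dual K Ω, (∀ k < α1 + α2, X (S.d (S.it D k Y)) = 0) → S.Kills D X x2 →
        (∀ k < α1 + σ, X (S.d (S.it D k x1)) = 0) ∧ X (S.d x3) = 0 := by
  obtain ⟨Y, hY, hX⟩ := S.by_parts D x1 x2 α1 α2 x3 h3
  have hQ : ∀ k, ∀ X : Dual K Ω, S.Kills D X x2 → (∀ l < k + 2, X (S.d (S.it D l Y)) = 0) →
      X (S.d (S.it D k x1)) = 0 := by
    intro k
    induction k with
    | zero =>
      intro X h2 h1
      have := h1 1 (by omega)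
      rw [S.it_succ, S.it_zero, hY, S.ap_mul, h2, S.ap_mul, S.d_negOnePow] at this
      simp only [mul_zero, zero_add, map_zero, add_zero, mul_eq_zero, hE, false_or] at this
      exact this.resolve_left (pow_ne_zero _ (neg_ne_zero.mpr one_ne_zero))
    | succ k ih =>
      intro X h2 h1
      rw [S.ap_it_succ, ih X h2 fun l hl => h1 l (by omega), ih _ h2.ad fun l hl => by
        rw [S.br_apply, ← S.it_succ, h1 _ (by omega), h1 _ (by omega)]; simp]
      simp
  refine ⟨Y, hY, fun X hXY h2 => ?_, fun X hXY h2 => ?_⟩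
  · have h1 : S.Kills D X x1 := fun k => hQ k X h2 fun l _ => hXY l
    exact hext X h1 h2 (by rw [← hX X h2 fun k _ => h1 k]; exact hXY 0)
  · have h1 : ∀ k < α1 + σ, X (S.d (S.it D k x1)) = 0 := fun k hk =>
      hQ k X h2 fun l hl => hXY l (by omega)
    exact ⟨h1, by rw [← hX X h2 fun k hk => h1 k (by omega)]; exact hXY 0 (by omega)⟩

/-- The algebraic form of the theorem. -/
theorem no_flat [CharZero K] {a e : ℕ → K} (x3 : K) (α1 α2 σ : ℕ) (hσ1 : σ < α1) (hσ2 : σ < α2)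
    (ha : ∀ n, D (S.d (a n)) = a (n + 2)) (h3 : D (S.d x3) = a (2 * α1) * a (1 + 2 * α2))
    (hli : LinearIndependent K fun n => S.d (a n))
    (hext : ∀ X : Dual K Ω, (∀ n, X (S.d (a n)) = 0) → X (S.d x3) = 0 → X = 0)
    (he : ∀ n, D (S.d (e n)) = e (n + 2))
    (hz : ∀ r < 2, ∀ X : Dual K Ω, (∀ k < α1 + σ, X (S.d (a (2 * k))) = 0) →
      (∀ k < α2 + σ, X (S.d (a (1 + 2 * k))) = 0) → X (S.d x3) = 0 → X (S.d (e r)) = 0)
    (hx : ∀ X : Dual K Ω, (∀ n, X (S.d (e n)) = 0) →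
      X (S.d (a 0)) = 0 ∧ X (S.d (a 1)) = 0 ∧ X (S.d x3) = 0) : False := by
  classical
  have hall : ∀ n, ∀ X : Dual K Ω, (∀ n, X (S.d (e n)) = 0) → X (S.d (a n)) = 0 := by
    intro n
    induction n using Nat.twoStepInduction with
    | zero => exact fun X hX => (hx X hX).1
    | one => exact fun X hX => (hx X hX).2.1
    | more n ih _ =>
      intro X hX
      have := ih (S.br X D) fun m => by rw [S.br_apply, he, hX, hX]; simp
      rw [S.br_apply, ha, ih X hX] at this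
      simpa using this
  have hsp : Submodule.span K (Set.range fun n => S.d (e n)) = ⊤ := by
    refine eq_top_iff.mpr fun v _ => mem_of_forall_dual fun X hX => ?_
    have h1 : ∀ n, X (S.d (e n)) = 0 := fun n => hX _ (Submodule.subset_span ⟨n, rfl⟩)
    rw [hext X (fun n => hall n X h1) (hx X h1).2.2, LinearMap.zero_apply]
  have hlie := S.seq_li D he ha hli fun n => by rw [hsp]; trivial
  let B := Basis.mk hlie hsp.ge
  have hB : ∀ n, B n = S.d (e n) := fun n => Basis.mk_apply _ _ n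
  have i0 : ∀ k, S.it D k (a 0) = a (2 * k) := fun k => by rw [S.it_seq D ha, zero_add]
  have i1 : ∀ k, S.it D k (a 1) = a (1 + 2 * k) := fun k => S.it_seq D ha k 1
  have hne : ∀ n, a n ≠ 0 := fun n h => hli.ne_zero n (by rw [h, map_zero])
  have hext' : ∀ X, S.Kills D X (a 0) → S.Kills D X (a 1) → X (S.d x3) = 0 → X = 0 := by
    intro X h0 h1 h2
    refine hext X (fun n => ?_) h2
    by_cases hn : n % 2 = 0
    · rw [show n = 2 * (n / 2) by omega, ← i0]; exact h0 _
    · rw [show n = 1 + 2 * (n / 2) by omega, ← i1]; exact h1 _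
  obtain ⟨Y, hY, hYs, hYz⟩ := S.half D (a 0) (a 1) x3 α1 α2 σ hσ2 (by rw [h3, i0, i1])
    (by rw [i1]; exact hne _) hext'
  obtain ⟨Y', -, hYs', hYz'⟩ := S.half D (a 1) (a 0) x3 α2 α1 σ hσ1
    (by rw [h3, i0, i1, mul_comm]) (by rw [i0]; exact hne _) fun X h1 h0 => hext' X h0 h1
  have hFl : ∀ (x Y : K) (N : ℕ), (∀ X, S.Kills D X Y → S.Kills D X x → X = 0) →
      (∀ r < 2, ∀ X : Dual K Ω, (∀ k < N, X (S.d (S.it D k Y)) = 0) → S.Kills D X x →
        X (S.d (e r)) = 0) → S.d x ∈ Fl K (fun i => S.d (e i)) (2 * N) := by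
    intro x Y N h1 h2
    rw [Fl, ← funext hB, B.mem_span_image]
    intro n hn
    by_contra hlt
    have h3 := S.order D he B hB Y x N (n % 2) (1 - n % 2) (by omega) h1 (h2 _ (by omega)) (n / 2)
      (by simp only [Set.mem_Iio] at hlt; omega)
    rw [Nat.mod_add_div] at h3
    exact Finsupp.mem_support_iff.mp hn h3
  refine S.no_low_param D he hlie hsp (a 1) Y ((-1) ^ α1 * a 0) (hli.ne_zero 1) (α1 + α2)
    (hFl _ Y _ hYs fun r hr X h1 h2 => hz r hr X (fun k hk => by
      rw [← i0]; exact (hYz X h1 h2).1 k hk) (fun k _ => by rw [← i1]; exact h2 k)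
      (hYz X h1 h2).2) ?_ hY hYs
  rw [S.d_mul, S.d_negOnePow, smul_zero, add_zero, add_comm α1]
  exact Submodule.smul_mem _ _ (hFl _ Y' _ hYs' fun r hr X h1 h2 => hz r hr X (fun k _ => by
      rw [← i0]; exact h2 k) (fun k hk => by rw [← i1]; exact (hYz' X h1 h2).1 k hk)
      (hYz' X h1 h2).2)

end LR

/-- A field with commuting coordinate derivations. -/
structure Derivs (K : Type*) [Field K] (ι : Type*) [DecidableEq ι] where
  pd : ι → K →+ K
  mul : ∀ i f g, pd i (f * g) = f * pd i g + g * pd i f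
  comm : ∀ i j f, pd i (pd j f) = pd j (pd i f)
  fin : ∀ f, (Function.support fun i => pd i f).Finite
  q : ι → K
  pd_q : ∀ i j, pd i (q j) = if j = i then 1 else 0

namespace Derivs

variable {ι : Type*} [DecidableEq ι] (T : Derivs K ι)

/-- The differential. -/
noncomputable def d : K →+ (ι →₀ K) where
  toFun f := Finsupp.ofSupportFinite (fun i => T.pd i f) (T.fin f)
  map_zero' := by ext i; simp [Finsupp.ofSupportFinite_coe]
  map_add' f g := by ext i; simp [Finsupp.ofSupportFinite_coe]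

theorem d_apply (f : K) (i : ι) : T.d f i = T.pd i f := rfl

theorem d_q (j : ι) : T.d (T.q j) = Finsupp.single j 1 := by
  ext i
  rw [d_apply, T.pd_q, Finsupp.single_apply]

theorem ap_d (X : Dual K (ι →₀ K)) (f : K) (F : Finset ι) (hF : ∀ i ∉ F, T.pd i f = 0) :
    X (T.d f) = ∑ i ∈ F, T.pd i f * X (Finsupp.single i 1) := by
  have : T.d f = ∑ i ∈ F, T.pd i f • Finsupp.single i (1 : K) := by
    ext j
    simp only [d_apply, Finsupp.smul_single, smul_eq_mul, mul_one, Finsupp.finsetSum_apply,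
      Finsupp.single_apply, sum_ite_eq']
    split_ifs with h
    · rfl
    · exact hF j h
  rw [this, map_sum]
  simp only [map_smul, smul_eq_mul]

theorem d_mul (f g : K) : T.d (f * g) = f • T.d g + g • T.d f := by
  ext i
  simp [d_apply, T.mul]

/-- The calculus of vector fields in coordinates. -/
noncomputable def lr : LR K (ι →₀ K) where
  d := T.d
  d_mul := T.d_mul
  span_d := by
    refine eq_top_iff.mpr ?_
    rw [← (Finsupp.basisSingleOne (R := K) (ι := ι)).span_eq]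
    refine Submodule.span_mono ?_
    rintro _ ⟨i, rfl⟩
    exact ⟨T.q i, by rw [d_q]; rfl⟩
  br X Y := Finsupp.linearCombination K fun i =>
    X (T.d (Y (Finsupp.single i 1))) - Y (T.d (X (Finsupp.single i 1)))
  br_apply X Y f := by
    have hF : ∀ i ∉ (T.d f).support, T.pd i f = 0 := fun i hi => by
      simpa [d_apply] using hi
    have hF' : ∀ j, ∀ i ∉ (T.d f).support, T.pd i (T.pd j f) = 0 := fun j i hi => by
      rw [T.comm, hF i hi, map_zero]
    rw [T.ap_d _ f _ hF, T.ap_d Y f _ hF, T.ap_d X f _ hF]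
    simp only [map_sum, T.d_mul, map_add, map_smul, smul_eq_mul,
      Finsupp.linearCombination_single, one_mul, T.ap_d X _ _ (hF' _), T.ap_d Y _ _ (hF' _),
      mul_sum, sum_add_distrib, mul_sub, sum_sub_distrib]
    rw [sum_comm (f := fun x i => X (Finsupp.single x 1) * (T.pd i (T.pd x f) *
      Y (Finsupp.single i 1)))]
    have : ∑ y ∈ (T.d f).support, ∑ x ∈ (T.d f).support,
        X (Finsupp.single x 1) * (T.pd y (T.pd x f) * Y (Finsupp.single y 1)) =
        ∑ y ∈ (T.d f).support, ∑ x ∈ (T.d f).support,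
        Y (Finsupp.single y 1) * (T.pd x (T.pd y f) * X (Finsupp.single x 1)) :=
      sum_congr rfl fun y _ => sum_congr rfl fun x _ => by rw [T.comm]; ring
    rw [this]
    ring

end Derivs

/-- The total derivative of the system on the coordinates. -/
def sysW (q : Option ℕ → K) (α1 α2 : ℕ) : Option ℕ → K
  | none => q (some (2 * α1)) * q (some (1 + 2 * α2))
  | some n => q (some (n + 2))

theorem Derivs.no_flat [CharZero K] (T : Derivs K (Option ℕ)) {e : ℕ → K} (α1 α2 σ : ℕ)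
    (hσ1 : σ < α1) (hσ2 : σ < α2)
    (he : ∀ n, Finsupp.linearCombination K (sysW T.q α1 α2) (T.d (e n)) = e (n + 2))
    (hz : ∀ r < 2, ∀ X : Dual K (Option ℕ →₀ K), (∀ k < α1 + σ, X (T.d (T.q (some (2 * k)))) = 0) →
      (∀ k < α2 + σ, X (T.d (T.q (some (1 + 2 * k)))) = 0) → X (T.d (T.q none)) = 0 →
      X (T.d (e r)) = 0)
    (hx : ∀ X : Dual K (Option ℕ →₀ K), (∀ n, X (T.d (e n)) = 0) →
      X (T.d (T.q (some 0))) = 0 ∧ X (T.d (T.q (some 1))) = 0 ∧ X (T.d (T.q none)) = 0) :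
    False := by
  have hD : ∀ i, Finsupp.linearCombination K (sysW T.q α1 α2) (T.d (T.q i)) = sysW T.q α1 α2 i :=
    fun i => by rw [T.d_q, Finsupp.linearCombination_single, one_smul]
  refine T.lr.no_flat (Finsupp.linearCombination K (sysW T.q α1 α2)) (a := fun n => T.q (some n))
    (T.q none) α1 α2 σ hσ1 hσ2 (fun n => hD _) (hD none) ?_ (fun X h1 h2 => ?_) he hz hx
  · have := (Finsupp.basisSingleOne (R := K) (ι := Option ℕ)).linearIndependent.comp some
      (Option.some_injective ℕ)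
    convert! this using 1
    funext n
    exact T.d_q _
  · refine Finsupp.basisSingleOne.ext fun i => ?_
    rw [Finsupp.coe_basisSingleOne, LinearMap.zero_apply]
    simp only [← T.d_q]
    cases i with
    | none => exact h2
    | some n => exact h1 n

end Pool.Agent.Work.MP_3007d7_an
end

-- merged part: Pool.Agent.Work.MP_3007d7_an.Germ
section
/- The differential field of generic germs of smooth functions of finitely many coordinates. -/

namespace Pool.Agent.Work.MP_3007d7_an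

open Module Finset Filter Topology
open scoped ContDiff

variable {X : Type*} [NormedAddCommGroup X] [NormedSpace ℝ X] {ι : Type*}

/-- Derivative in the direction of a basis vector. -/
noncomputable def pdf (b : Basis ι ℝ X) (j : ι) (f : X → ℝ) : X → ℝ := fun q => fderiv ℝ f q (b j)

/-- Smooth on `W` and depending on finitely many coordinates. -/
def Good (b : Basis ι ℝ X) (f : X → ℝ) (W : Set X) : Prop :=
  ContDiffOn ℝ ∞ f W ∧ ∃ F : Finset ι, ∀ q ∈ W, ∀ j ∉ F, pdf b j f q = 0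

section Good

variable {b : Basis ι ℝ X} {f g : X → ℝ} {W : Set X}

theorem Good.mono (h : Good b f W) {W' : Set X} (hW : W' ⊆ W) : Good b f W' :=
  ⟨h.1.mono hW, h.2.imp fun _ hF q hq => hF q (hW hq)⟩

theorem Good.diff (h : Good b f W) (hW : IsOpen W) {q : X} (hq : q ∈ W) : DifferentiableAt ℝ f q :=
  (h.1.contDiffAt (hW.mem_nhds hq)).differentiableAt (by simp)

theorem pdf_congr {q : X} (h : f =ᶠ[𝓝 q] g) (j : ι) : pdf b j f q = pdf b j g q := by
  simp only [pdf, h.fderiv_eq]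

theorem pdf_comm (h : ContDiffOn ℝ ∞ f W) (hW : IsOpen W) {q : X} (hq : q ∈ W) (i j : ι) :
    pdf b i (pdf b j f) q = pdf b j (pdf b i f) q := by
  have h1 : DifferentiableAt ℝ (fderiv ℝ f) q :=
    ((h.fderiv_of_isOpen (m := ∞) hW (by simp)).contDiffAt (hW.mem_nhds hq)).differentiableAt
      (by simp)
  have h2 : ∀ v w, fderiv ℝ (fun y => fderiv ℝ f y v) q w = fderiv ℝ (fderiv ℝ f) q w v := by
    intro v w
    rw [fderiv_clm_apply h1 (differentiableAt_const _)]
    simp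
  have h3 := (h.contDiffAt (hW.mem_nhds hq)).isSymmSndFDerivAt
    (by simp only [minSmoothness_of_isRCLikeNormedField]; exact ENat.LEInfty.out)
  exact (h2 _ _).trans ((h3 _ _).trans (h2 _ _).symm)

theorem Good.pdf (h : Good b f W) (hW : IsOpen W) (j : ι) : Good b (pdf b j f) W := by
  refine ⟨(h.1.fderiv_of_isOpen (m := ∞) hW (by simp)).clm_apply contDiffOn_const, ?_⟩
  obtain ⟨F, hF⟩ := h.2
  refine ⟨F, fun q hq i hi => ?_⟩
  rw [pdf_comm h.1 hW hq, pdf_congr (g := fun _ => 0)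
    (Filter.mem_of_superset (hW.mem_nhds hq) fun y hy => hF y hy i hi)]
  simp [Pool.Agent.Work.MP_3007d7_an.pdf]

theorem pdf_comp {κ : Type*} [Fintype κ] [DecidableEq κ] {H : κ → X → ℝ}
    (hH : ∀ l, Good b (H l) W) (hW : IsOpen W) {O : Set (κ → ℝ)} (hO : IsOpen O)
    {F : (κ → ℝ) → ℝ} (hF : ContDiffOn ℝ ∞ F O) (hm : ∀ q ∈ W, (fun l => H l q) ∈ O) {q : X}
    (hq : q ∈ W) (j : ι) : pdf b j (fun q => F fun l => H l q) q =
      ∑ l, fderiv ℝ F (fun l => H l q) (Pi.single l 1) * pdf b j (H l) q := by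
  have h1 : HasFDerivAt (fun q l => H l q) (ContinuousLinearMap.pi fun l => fderiv ℝ (H l) q) q :=
    hasFDerivAt_pi.mpr fun l => ((hH l).diff hW hq).hasFDerivAt
  have h2 := ((hF.contDiffAt (hO.mem_nhds (hm q hq))).differentiableAt
    (by simp)).hasFDerivAt.comp q h1
  have h3 : pdf b j (fun q => F fun l => H l q) q =
      fderiv ℝ F (fun l => H l q) (fun l => pdf b j (H l) q) :=
    congrArg (fun A : X →L[ℝ] ℝ => A (b j)) h2.fderiv
  rw [h3, pi_eq_sum_univ' (fun l => pdf b j (H l) q), map_sum]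
  refine sum_congr rfl fun l _ => ?_
  rw [map_smul, smul_eq_mul, mul_comm]

theorem Good.comp {κ : Type*} [Fintype κ] {H : κ → X → ℝ}
    (hH : ∀ l, Good b (H l) W) (hW : IsOpen W) {O : Set (κ → ℝ)} (hO : IsOpen O)
    {F : (κ → ℝ) → ℝ} (hF : ContDiffOn ℝ ∞ F O) (hm : ∀ q ∈ W, (fun l => H l q) ∈ O) :
    Good b (fun q => F fun l => H l q) W := by
  classical
  refine ⟨hF.comp (contDiffOn_pi.mpr fun l => (hH l).1) hm, ?_⟩
  choose G hG using fun l => (hH l).2
  refine ⟨univ.biUnion G, fun q hq j hj => ?_⟩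
  rw [pdf_comp hH hW hO hF hm hq]
  refine sum_eq_zero fun l _ => ?_
  rw [hG l q hq j fun h => hj (mem_biUnion.mpr ⟨l, mem_univ _, h⟩), mul_zero]

theorem good_const (c : ℝ) : Good b (fun _ => c) W :=
  ⟨contDiffOn_const, ∅, fun _ _ _ _ => by simp [pdf]⟩

theorem pdf_add (hf : Good b f W) (hg : Good b g W) (hW : IsOpen W) {q : X} (hq : q ∈ W) (j : ι) :
    pdf b j (f + g) q = pdf b j f q + pdf b j g q := by
  simp only [pdf, fderiv_add (hf.diff hW hq) (hg.diff hW hq), add_apply]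

theorem pdf_mul (hf : Good b f W) (hg : Good b g W) (hW : IsOpen W) {q : X} (hq : q ∈ W) (j : ι) :
    pdf b j (f * g) q = f q * pdf b j g q + g q * pdf b j f q := by
  simp only [pdf, fderiv_mul (hf.diff hW hq) (hg.diff hW hq), add_apply,
    smul_apply, smul_eq_mul]

theorem Good.add (hf : Good b f W) (hg : Good b g W) (hW : IsOpen W) : Good b (f + g) W := by
  classical
  obtain ⟨F, hF⟩ := hf.2
  obtain ⟨G, hG⟩ := hg.2
  refine ⟨hf.1.add hg.1, F ∪ G, fun q hq j hj => ?_⟩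
  rw [pdf_add hf hg hW hq, hF q hq j fun h => hj (mem_union_left _ h),
    hG q hq j fun h => hj (mem_union_right _ h), add_zero]

theorem Good.mul (hf : Good b f W) (hg : Good b g W) (hW : IsOpen W) : Good b (f * g) W := by
  classical
  obtain ⟨F, hF⟩ := hf.2
  obtain ⟨G, hG⟩ := hg.2
  refine ⟨hf.1.mul hg.1, F ∪ G, fun q hq j hj => ?_⟩
  rw [pdf_mul hf hg hW hq, hF q hq j fun h => hj (mem_union_left _ h),
    hG q hq j fun h => hj (mem_union_right _ h)]
  simp

theorem Good.sum {κ : Type*} (s : Finset κ) {u : κ → X → ℝ} (hu : ∀ l, Good b (u l) W)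
    (hW : IsOpen W) : Good b (∑ l ∈ s, u l) W := by
  classical
  induction s using Finset.induction_on with
  | empty => exact good_const 0
  | insert a s ha ih => rw [sum_insert ha]; exact (hu a).add ih hW

theorem Good.inv (hf : Good b f W) (hW : IsOpen W) (h0 : ∀ q ∈ W, f q ≠ 0) : Good b f⁻¹ W :=
  Good.comp (κ := Unit) (H := fun _ => f) (fun _ => hf) hW (O := {y | y () ≠ 0})
    (isOpen_ne_fun (continuous_apply _) continuous_const) (F := fun y => (y ())⁻¹)
    ((contDiff_apply ℝ ℝ ()).contDiffOn.inv fun _ hy => hy) h0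

theorem pdf_coord [DecidableEq ι] (hb : ∀ i, Continuous (b.coord i)) (i j : ι) (q : X) :
    pdf b i (b.coord j) q = if j = i then 1 else 0 := by
  have : fderiv ℝ (b.coord j) q = (⟨b.coord j, hb j⟩ : X →L[ℝ] ℝ) :=
    (⟨b.coord j, hb j⟩ : X →L[ℝ] ℝ).fderiv
  simp only [pdf, this]
  simp [Finsupp.single_apply, eq_comm]

theorem good_coord (hb : ∀ i, Continuous (b.coord i)) (j : ι) : Good b (b.coord j) W := by
  classical
  refine ⟨(⟨b.coord j, hb j⟩ : X →L[ℝ] ℝ).contDiff.contDiffOn, {j}, fun q _ i hi => ?_⟩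
  rw [pdf_coord hb, if_neg fun h => hi (by simp [h])]

end Good

omit [NormedSpace ℝ X] in
theorem exists_generic {O : Set X} (hO : IsOpen O) (hne : O.Nonempty) :
    ∃ 𝒰 : Ultrafilter X, O ∈ 𝒰 ∧ ∀ s ∈ 𝒰, interior (closure s) ∈ 𝒰 := by
  let G : Filter X :=
    { sets := {s | Dense (interior s)}
      univ_sets := by simp
      sets_of_superset := fun hs hst => Dense.mono (interior_mono hst) hs
      inter_sets := fun hs ht => by
        simp only [Set.mem_ofPred_eq, interior_inter]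
        exact Dense.inter_of_isOpen_left hs ht isOpen_interior }
  have hG : (G ⊓ 𝓟 O).NeBot := by
    rw [inf_principal_neBot_iff]
    intro s hs
    obtain ⟨x, hx1, hx2⟩ := Dense.inter_open_nonempty hs O hO hne
    exact ⟨x, interior_subset hx2, hx1⟩
  refine ⟨Ultrafilter.of (G ⊓ 𝓟 O), Ultrafilter.of_le _ (mem_inf_of_right (mem_principal_self O)),
    fun s hs => ?_⟩
  have h1 : interior (closure s) ∪ (closure s)ᶜ ∈ G := by
    show Dense (interior _)
    rw [(isOpen_interior.union isClosed_closure.isOpen_compl).interior_eq]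
    intro x
    rw [closure_union, closure_compl]
    by_cases hx : x ∈ interior (closure s)
    · exact Or.inl (subset_closure hx)
    · exact Or.inr hx
  rcases Ultrafilter.union_mem_iff.mp (Ultrafilter.of_le (G ⊓ 𝓟 O) (mem_inf_of_left h1)) with h | h
  · exact h
  · exact absurd (mem_of_superset hs subset_closure) (Ultrafilter.compl_mem_iff_notMem.mp h)

/-- Good on an open member of the ultrafilter. -/
def UGood (b : Basis ι ℝ X) (𝒰 : Ultrafilter X) (f : X → ℝ) : Prop :=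
  ∃ W ∈ 𝒰, IsOpen W ∧ Good b f W

section Field

variable {b : Basis ι ℝ X} {𝒰 : Ultrafilter X} {f g : X → ℝ}

theorem UGood.both (hf : UGood b 𝒰 f) (hg : UGood b 𝒰 g) :
    ∃ W ∈ 𝒰, IsOpen W ∧ Good b f W ∧ Good b g W := by
  obtain ⟨W, hW, hWo, hf⟩ := hf
  obtain ⟨W', hW', hWo', hg⟩ := hg
  exact ⟨W ∩ W', inter_mem hW hW', hWo.inter hWo', hf.mono Set.inter_subset_left,
    hg.mono Set.inter_subset_right⟩

theorem UGood.add (hf : UGood b 𝒰 f) (hg : UGood b 𝒰 g) : UGood b 𝒰 (f + g) := by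
  obtain ⟨W, hW, hWo, hf, hg⟩ := hf.both hg
  exact ⟨W, hW, hWo, hf.add hg hWo⟩

theorem UGood.mul (hf : UGood b 𝒰 f) (hg : UGood b 𝒰 g) : UGood b 𝒰 (f * g) := by
  obtain ⟨W, hW, hWo, hf, hg⟩ := hf.both hg
  exact ⟨W, hW, hWo, hf.mul hg hWo⟩

theorem UGood.pdf (hf : UGood b 𝒰 f) (j : ι) : UGood b 𝒰 (pdf b j f) := by
  obtain ⟨W, hW, hWo, hf⟩ := hf
  exact ⟨W, hW, hWo, hf.pdf hWo j⟩

theorem ugood_const (c : ℝ) : UGood b 𝒰 (fun _ => c) := ⟨_, univ_mem, isOpen_univ, good_const c⟩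

/-- The field of generic germs. -/
def GF (b : Basis ι ℝ X) (𝒰 : Ultrafilter X) : Subfield (Germ (𝒰 : Filter X) ℝ) where
  carrier := {φ | ∃ f, UGood b 𝒰 f ∧ φ = (f : Germ (𝒰 : Filter X) ℝ)}
  mul_mem' := by
    rintro _ _ ⟨f, hf, rfl⟩ ⟨g, hg, rfl⟩
    exact ⟨f * g, hf.mul hg, rfl⟩
  one_mem' := ⟨_, ugood_const 1, rfl⟩
  add_mem' := by
    rintro _ _ ⟨f, hf, rfl⟩ ⟨g, hg, rfl⟩
    exact ⟨f + g, hf.add hg, rfl⟩
  zero_mem' := ⟨_, ugood_const 0, rfl⟩
  neg_mem' := by
    rintro _ ⟨f, hf, rfl⟩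
    refine ⟨_, (ugood_const (-1)).mul hf, ?_⟩
    rw [← Germ.coe_neg]
    congr 1
    funext q; simp
  inv_mem' := by
    rintro _ ⟨f, ⟨W, hW, hWo, hf⟩, rfl⟩
    by_cases h0 : (f : Germ (𝒰 : Filter X) ℝ) = 0
    · exact ⟨_, ugood_const 0, by rw [h0, inv_zero]; rfl⟩
    have h1 : {q | f q ≠ 0} ∈ 𝒰 :=
      Ultrafilter.compl_mem_iff_notMem.mpr fun h => h0 (Germ.coe_eq.mpr h)
    have h2 : IsOpen (W ∩ f ⁻¹' {0}ᶜ) :=
      hf.1.continuousOn.isOpen_inter_preimage hWo isOpen_compl_singleton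
    exact ⟨f⁻¹, ⟨_, inter_mem hW h1, h2, (hf.mono Set.inter_subset_left).inv h2 fun q hq => hq.2⟩,
      rfl⟩

/-- The germ of a good function. -/
def mk (f : X → ℝ) (hf : UGood b 𝒰 f) : GF b 𝒰 := ⟨f, f, hf, rfl⟩

theorem mk_surj (φ : GF b 𝒰) : ∃ f hf, φ = mk f hf := by
  obtain ⟨_, f, hf, rfl⟩ := φ
  exact ⟨f, hf, rfl⟩

theorem mk_congr {hf : UGood b 𝒰 f} {hg : UGood b 𝒰 g} (h : ∀ᶠ q in (𝒰 : Filter X), f q = g q) :
    mk f hf = mk g hg := Subtype.ext (Germ.coe_eq.mpr h)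

theorem mk_sum {κ : Type*} (s : Finset κ) {u v : κ → X → ℝ} (hu : ∀ l, UGood b 𝒰 (u l))
    (hv : ∀ l, UGood b 𝒰 (v l)) (hf : UGood b 𝒰 f)
    (h : ∀ᶠ q in (𝒰 : Filter X), f q = ∑ l ∈ s, u l q * v l q) :
    mk f hf = ∑ l ∈ s, mk (u l) (hu l) * mk (v l) (hv l) := by
  apply Subtype.ext
  have h1 : (f : Germ (𝒰 : Filter X) ℝ) = Germ.coeRingHom (𝒰 : Filter X) (∑ l ∈ s, u l * v l) :=
    Germ.coe_eq.mpr (h.mono fun q hq => by rw [hq]; simp)
  rw [map_sum] at h1
  rw [AddSubmonoidClass.coe_finsetSum]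
  exact h1

variable (hU : ∀ s ∈ 𝒰, interior (closure s) ∈ 𝒰)

include hU

theorem generic_eq (hf : UGood b 𝒰 f) (hg : UGood b 𝒰 g)
    (h : (f : Germ (𝒰 : Filter X) ℝ) = g) : ∀ᶠ q in (𝒰 : Filter X), f =ᶠ[𝓝 q] g := by
  obtain ⟨W, hW, hWo, hf, hg⟩ := hf.both hg
  filter_upwards [hW, hU _ (Germ.coe_eq.mp h)] with q hq hq'
  filter_upwards [hWo.mem_nhds hq, mem_interior_iff_mem_nhds.mp hq'] with y hy hy'
  by_contra hne
  have h1 : ∀ᶠ z in 𝓝 y, f z ≠ g z :=
    (ContinuousAt.eventually_ne (g := f - g) ((hf.diff hWo hy).continuousAt.sub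
      (hg.diff hWo hy).continuousAt) (sub_ne_zero.mpr hne)).mono fun z hz => sub_ne_zero.mp hz
  obtain ⟨z, hz1, hz2⟩ := mem_closure_iff_nhds.mp hy' _ h1
  exact hz1 hz2

omit hU in
/-- Derivative of a germ. -/
noncomputable def pdK (j : ι) (φ : GF b 𝒰) : GF b 𝒰 :=
  mk (pdf b j φ.2.choose) (φ.2.choose_spec.1.pdf j)

theorem pdK_mk (j : ι) (hf : UGood b 𝒰 f) : pdK j (mk f hf) = mk (pdf b j f) (hf.pdf j) :=
  mk_congr ((generic_eq hU (mk f hf).2.choose_spec.1 hf (mk f hf).2.choose_spec.2.symm).mono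
    fun _ hq => pdf_congr hq j)

/-- The coordinate derivations on the field of generic germs. -/
noncomputable def derivs [DecidableEq ι] (hb : ∀ i, Continuous (b.coord i)) :
    Derivs (GF b 𝒰) ι where
  pd j := AddMonoidHom.mk' (pdK j) (by
    intro φ ψ
    obtain ⟨f, hf, rfl⟩ := mk_surj φ
    obtain ⟨g, hg, rfl⟩ := mk_surj ψ
    obtain ⟨W, hW, hWo, hf', hg'⟩ := hf.both hg
    rw [show mk f hf + mk g hg = mk (f + g) (hf.add hg) from rfl, pdK_mk hU, pdK_mk hU, pdK_mk hU]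
    exact mk_congr (hg := (hf.pdf j).add (hg.pdf j))
      (mem_of_superset hW fun q hq => pdf_add hf' hg' hWo hq j))
  mul j φ ψ := by
    obtain ⟨f, hf, rfl⟩ := mk_surj φ
    obtain ⟨g, hg, rfl⟩ := mk_surj ψ
    obtain ⟨W, hW, hWo, hf', hg'⟩ := hf.both hg
    simp only [AddMonoidHom.mk'_apply]
    rw [show mk f hf * mk g hg = mk (f * g) (hf.mul hg) from rfl, pdK_mk hU, pdK_mk hU, pdK_mk hU]
    exact mk_congr (hg := (hf.mul (hg.pdf j)).add (hg.mul (hf.pdf j)))
      (mem_of_superset hW fun q hq => pdf_mul hf' hg' hWo hq j)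
  comm i j φ := by
    obtain ⟨f, hf, rfl⟩ := mk_surj φ
    simp only [AddMonoidHom.mk'_apply, pdK_mk hU]
    obtain ⟨W, hW, hWo, hf'⟩ := id hf
    exact mk_congr (mem_of_superset hW fun q hq => pdf_comm hf'.1 hWo hq i j)
  fin φ := by
    obtain ⟨f, hf, rfl⟩ := mk_surj φ
    obtain ⟨W, hW, hWo, -, F, hF⟩ := id hf
    refine F.finite_toSet.subset fun j hj => ?_
    by_contra hjF
    refine hj ?_
    simp only [AddMonoidHom.mk'_apply, pdK_mk hU]
    exact mk_congr (hg := ugood_const 0) (mem_of_superset hW fun q hq => hF q hq j hjF)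
  q j := mk (b.coord j) ⟨_, univ_mem, isOpen_univ, good_coord hb j⟩
  pd_q i j := by
    simp only [AddMonoidHom.mk'_apply, pdK_mk hU]
    split_ifs with h
    · exact mk_congr (hg := ugood_const 1) (Eventually.of_forall fun q => by
        rw [pdf_coord hb, if_pos h])
    · exact mk_congr (hg := ugood_const 0) (Eventually.of_forall fun q => by
        rw [pdf_coord hb, if_neg h])

theorem derivs_pd [DecidableEq ι] (hb : ∀ i, Continuous (b.coord i)) (j : ι) (hf : UGood b 𝒰 f) :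
    (derivs hU hb).pd j (mk f hf) = mk (pdf b j f) (hf.pdf j) := pdK_mk hU j hf

theorem chain_rule [DecidableEq ι] (hb : ∀ i, Continuous (b.coord i)) {W : Set X} (hW : W ∈ 𝒰)
    (hWo : IsOpen W) {κ : Type*} [Fintype κ] {H : κ → X → ℝ} (hH : ∀ l, Good b (H l) W)
    {O : Set (κ → ℝ)} (hO : IsOpen O) {F : (κ → ℝ) → ℝ} (hF : ContDiffOn ℝ ∞ F O)
    (hm : ∀ q ∈ W, (fun l => H l q) ∈ O) (hf : UGood b 𝒰 f)
    (hfF : ∀ q ∈ W, f q = F fun l => H l q) (Z : Dual (GF b 𝒰) (ι →₀ GF b 𝒰))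
    (hZ : ∀ l, Z ((derivs hU hb).d (mk (H l) ⟨W, hW, hWo, hH l⟩)) = 0) :
    Z ((derivs hU hb).d (mk f hf)) = 0 := by
  classical
  have hc : ∀ l, UGood b 𝒰 fun q => fderiv ℝ F (fun l => H l q) (Pi.single l 1) := fun l =>
    ⟨W, hW, hWo, Good.comp hH hWo hO (F := fun y => fderiv ℝ F y (Pi.single l 1))
      ((hF.fderiv_of_isOpen (m := ∞) hO (by simp)).clm_apply contDiffOn_const) hm⟩
  have : (derivs hU hb).d (mk f hf) =
      ∑ l, mk _ (hc l) • (derivs hU hb).d (mk (H l) ⟨W, hW, hWo, hH l⟩) := by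
    ext1 j
    simp only [Finsupp.finsetSum_apply, Finsupp.smul_apply, Derivs.d_apply, derivs_pd,
      smul_eq_mul]
    refine mk_sum _ _ _ _ (mem_of_superset hW fun q hq => ?_)
    rw [Set.mem_ofPred_eq, ← pdf_comp hH hWo hO hF hm hq j]
    exact pdf_congr (mem_of_superset (hWo.mem_nhds hq) hfF) j
  rw [this, map_sum]
  exact sum_eq_zero fun l _ => by rw [map_smul, hZ, smul_zero]

end Field

end Pool.Agent.Work.MP_3007d7_an
end

-- merged part: Pool.Agent.Work.MP_3007d7_an.Curve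
section
/- Polynomial trajectories and the total derivative. -/

namespace Pool.Agent.Work.MP_3007d7_an

open Module Finset Filter Topology
open scoped ContDiff

variable {X : Type*} [NormedAddCommGroup X] [NormedSpace ℝ X] {ι : Type*}

theorem coord_sum [DecidableEq ι] (b : Basis ι ℝ X) (F : Finset ι) (c : ι → ℝ) (j : ι) :
    b.coord j (∑ i ∈ F, c i • b i) = if j ∈ F then c j else 0 := by
  simp [Finsupp.single_apply]

/-- An integral curve of the field with components `w`, inside a finite coordinate space. -/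
def IsCurve (b : Basis ι ℝ X) (w : ι → X → ℝ) (γ : ℝ → X) : Prop :=
  ∃ F : Finset ι, (∀ t, ∀ j ∉ F, b.coord j (γ t) = 0) ∧
    ∀ j t, HasDerivAt (fun t => b.coord j (γ t)) (w j (γ t)) t

theorem IsCurve.deriv {b : Basis ι ℝ X} {w : ι → X → ℝ} {γ : ℝ → X} (h : IsCurve b w γ) :
    ∃ F : Finset ι, ∀ t, (∀ j ∉ F, w j (γ t) = 0) ∧ HasDerivAt γ (∑ j ∈ F, w j (γ t) • b j) t := by
  classical
  obtain ⟨F, h1, h2⟩ := h
  refine ⟨F, fun t => ⟨fun j hj => ?_, ?_⟩⟩
  · have := h2 j t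
    rw [show (fun t => b.coord j (γ t)) = fun _ => 0 from funext fun t => h1 t j hj] at this
    exact this.unique (hasDerivAt_const t 0)
  · have h3 : γ = fun t => ∑ j ∈ F, b.coord j (γ t) • b j := by
      funext t
      refine b.ext_elem fun j => ?_
      have := coord_sum b F (fun j => b.coord j (γ t)) j
      rw [Basis.coord_apply] at this
      rw [this]
      split_ifs with hj
      · rfl
      · exact h1 t j hj
    have h4 := HasDerivAt.fun_sum (u := F) fun j _ => (h2 j t).smul_const (b j)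
    rwa [← h3] at h4

theorem IsCurve.continuous {b : Basis ι ℝ X} {w : ι → X → ℝ} {γ : ℝ → X} (h : IsCurve b w γ) :
    Continuous γ := by
  obtain ⟨F, hF⟩ := h.deriv
  exact continuous_iff_continuousAt.mpr fun t => (hF t).2.continuousAt

theorem IsCurve.comp {b : Basis ι ℝ X} {w : ι → X → ℝ} {γ : ℝ → X} (h : IsCurve b w γ)
    {H : X → ℝ} {t : ℝ} (hH : DifferentiableAt ℝ H (γ t)) (G : Finset ι)
    (hG : ∀ j ∉ G, pdf b j H (γ t) = 0) :
    HasDerivAt (fun t => H (γ t)) (∑ j ∈ G, pdf b j H (γ t) * w j (γ t)) t := by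
  classical
  obtain ⟨F, hF⟩ := h.deriv
  refine (hH.hasFDerivAt.comp_hasDerivAt t (hF t).2).congr_deriv ?_
  rw [map_sum, sum_subset (subset_union_left (s₂ := G)) fun j _ hj => by
    rw [(hF t).1 j hj, zero_smul, map_zero],
    sum_subset (subset_union_right (s₁ := F) (s₂ := G)) fun j _ hj => by rw [hG j hj, zero_mul]]
  exact sum_congr rfl fun j _ => by rw [map_smul, smul_eq_mul, mul_comm]; rfl

theorem prolong [DecidableEq ι] {b : Basis ι ℝ X} {𝒰 : Ultrafilter X}
    (hU : ∀ s ∈ 𝒰, interior (closure s) ∈ 𝒰) (hb : ∀ i, Continuous (b.coord i)) {W : Set X}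
    (hW : W ∈ 𝒰) (hWo : IsOpen W) {w : ι → X → ℝ} (hw : ∀ j, Good b (w j) W) {H0 : X → ℝ}
    (h0 : Good b H0 W) : ∃ H : ℕ → X → ℝ, ∃ hH : ∀ i, Good b (H i) W, H 0 = H0 ∧
      (∀ i, Finsupp.linearCombination (GF b 𝒰) (fun j => mk (w j) ⟨W, hW, hWo, hw j⟩)
        ((derivs hU hb).d (mk (H i) ⟨W, hW, hWo, hH i⟩)) =
        mk (H (i + 1)) ⟨W, hW, hWo, hH (i + 1)⟩) ∧
      ∀ i γ t, IsCurve b w γ → γ t ∈ W → HasDerivAt (fun t => H i (γ t)) (H (i + 1) (γ t)) t := by
  have hstep : ∀ H : {H // Good b H W}, ∃ H' : {H // Good b H W},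
      Finsupp.linearCombination (GF b 𝒰) (fun j => mk (w j) ⟨W, hW, hWo, hw j⟩)
        ((derivs hU hb).d (mk H.1 ⟨W, hW, hWo, H.2⟩)) = mk H'.1 ⟨W, hW, hWo, H'.2⟩ ∧
      ∀ γ t, IsCurve b w γ → γ t ∈ W → HasDerivAt (fun t => H.1 (γ t)) (H'.1 (γ t)) t := by
    rintro ⟨H, hH⟩
    obtain ⟨F, hF⟩ := hH.2
    refine ⟨⟨∑ j ∈ F, pdf b j H * w j, Good.sum F (fun j => (hH.pdf hWo j).mul (hw j) hWo) hWo⟩,
      ?_, fun γ t hγ ht => ?_⟩
    · rw [Derivs.ap_d _ _ _ F fun j hj => by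
        rw [derivs_pd]
        exact mk_congr (hg := ugood_const 0) (mem_of_superset hW fun q hq => hF q hq j hj)]
      simp only [derivs_pd, Finsupp.linearCombination_single, one_smul]
      exact (mk_sum _ _ _ _ (Eventually.of_forall fun q => by simp)).symm
    · simpa using hγ.comp (hH.diff hWo ht) F (hF _ ht)
  choose P hP1 hP2 using hstep
  refine ⟨fun i => (P^[i] ⟨H0, h0⟩).1, fun i => (P^[i] ⟨H0, h0⟩).2, rfl, fun i => ?_,
    fun i γ t hγ ht => ?_⟩
  · simp only [Function.iterate_succ_apply']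
    exact hP1 _
  · simp only [Function.iterate_succ_apply']
    exact hP2 _ γ t hγ ht

omit [NormedSpace ℝ X] in
theorem iteratedDeriv_pair {γ : ℝ → X} (hγ : Continuous γ) {W : Set X} (hWo : IsOpen W)
    {H G : ℕ → X → ℝ} (hH : ∀ i t, γ t ∈ W → HasDerivAt (fun t => H i (γ t)) (H (i + 1) (γ t)) t)
    (hG : ∀ i t, γ t ∈ W → HasDerivAt (fun t => G i (γ t)) (G (i + 1) (γ t)) t) (i : ℕ) :
    ∀ t, γ t ∈ W → iteratedDeriv i (fun t => (H 0 (γ t), G 0 (γ t))) t = (H i (γ t), G i (γ t)) := by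
  induction i with
  | zero => intro t _; simp
  | succ i ih =>
    intro t ht
    rw [iteratedDeriv_succ, Filter.EventuallyEq.deriv_eq (f := fun t => (H i (γ t), G i (γ t)))
      (mem_of_superset ((hWo.preimage hγ).mem_nhds ht) ih)]
    exact ((hH i t ht).prodMk (hG i t ht)).deriv

theorem exists_poly (c : ℕ → ℝ) (L : ℕ) (hc : ∀ k, L ≤ k → c k = 0) : ∃ f : ℝ → ℝ,
    ContDiff ℝ ∞ f ∧ (∀ k, iteratedDeriv k f 0 = c k) ∧
      ∀ k, L ≤ k → ∀ t, iteratedDeriv k f t = 0 := by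
  obtain ⟨P, hP⟩ : ∃ P : Polynomial ℝ, ∀ k, P.coeff k = c k / k.factorial := by
    refine ⟨∑ k ∈ range L, Polynomial.monomial k (c k / k.factorial), fun k => ?_⟩
    simp only [Polynomial.finsetSum_coeff, Polynomial.coeff_monomial, sum_ite_eq', mem_range]
    split_ifs with h
    · rfl
    · rw [hc k (by omega), zero_div]
  have h1 : ∀ k, iteratedDeriv k (fun t => P.eval t) =
      fun t => (Polynomial.derivative^[k] P).eval t := by
    intro k
    induction k with
    | zero => simp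
    | succ k ih =>
      funext t
      rw [iteratedDeriv_succ, ih, Function.iterate_succ_apply', Polynomial.deriv]
  refine ⟨fun t => P.eval t, P.contDiff_aeval ∞, fun k => ?_, fun k hk t => ?_⟩
  · rw [h1]
    simp only [← Polynomial.coeff_zero_eq_eval_zero, Polynomial.coeff_iterate_derivative, zero_add,
      hP, Nat.descFactorial_self, nsmul_eq_mul]
    field_simp
  · have : Polynomial.derivative^[k] P = 0 := by
      ext m
      rw [Polynomial.coeff_iterate_derivative, hP, hc _ (by omega)]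
      simp
    rw [h1, this]; simp

/-- Components of the total derivative. -/
noncomputable def wfun (b : Basis (Option ℕ) ℝ X) (α₁ α₂ : ℕ) : Option ℕ → X → ℝ
  | none => b.coord (some (2 * α₁)) * b.coord (some (1 + 2 * α₂))
  | some n => b.coord (some (n + 2))

/-- The point of the jet space given by finitely many coordinates. -/
noncomputable def emb (b : Basis (Option ℕ) ℝ X) (α₁ α₂ : ℕ) (q : X) : State α₁ α₂ × (ℕ → ℝ × ℝ) :=
  ((fun i => b.coord (some (2 * i)) q, fun i => b.coord (some (1 + 2 * i)) q, b.coord none q),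
    fun k => (b.coord (some (2 * (α₁ + k))) q, b.coord (some (1 + 2 * (α₂ + k))) q))

theorem exists_traj (b : Basis (Option ℕ) ℝ X) (α₁ α₂ : ℕ) (q : X) :
    ∃ (T : Traj α₁ α₂) (γ : ℝ → X), γ 0 = q ∧ IsCurve b (wfun b α₁ α₂) γ ∧
      ∀ t, emb b α₁ α₂ (γ t) = (T.state t, fun i => T.input i t) := by
  classical
  obtain ⟨L, hL⟩ : ∃ L, ∀ n, L ≤ n → b.coord (some n) q = 0 := by
    refine ⟨((b.repr q).support.sup fun j => j.getD 0) + 1, fun n hn => ?_⟩
    by_contra hne
    have : n ≤ (b.repr q).support.sup fun j => j.getD 0 :=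
      le_sup (f := fun j : Option ℕ => j.getD 0) (b := some n) (Finsupp.mem_support_iff.mpr hne)
    omega
  obtain ⟨x₁, s1, i1, z1⟩ := exists_poly (fun k => b.coord (some (2 * k)) q) L
    fun k hk => hL _ (by omega)
  obtain ⟨x₂, s2, i2, z2⟩ := exists_poly (fun k => b.coord (some (1 + 2 * k)) q) L
    fun k hk => hL _ (by omega)
  have hsm : ∀ {f : ℝ → ℝ}, ContDiff ℝ ∞ f → ∀ k, ContDiff ℝ ∞ (iteratedDeriv k f) := by
    intro f hf k
    rw [iteratedDeriv_eq_iterate]
    exact hf.iterate_deriv k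
  have hder : ∀ {f : ℝ → ℝ}, ContDiff ℝ ∞ f → ∀ k t,
      HasDerivAt (iteratedDeriv k f) (iteratedDeriv (k + 1) f t) t := by
    intro f hf k t
    rw [iteratedDeriv_succ]
    exact ((hsm hf k).differentiable (by simp) t).hasDerivAt
  have hu := (hsm s1 α₁).mul (hsm s2 α₂)
  let x₃ : ℝ → ℝ := fun t =>
    b.coord none q + ∫ τ in (0 : ℝ)..t, iteratedDeriv α₁ x₁ τ * iteratedDeriv α₂ x₂ τ
  have d3 : ∀ t, HasDerivAt x₃ (iteratedDeriv α₁ x₁ t * iteratedDeriv α₂ x₂ t) t := fun t =>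
    (hu.continuous.integral_hasStrictDerivAt 0 t).hasDerivAt.const_add _
  have s3 : ContDiff ℝ ∞ x₃ := by
    rw [contDiff_infty_iff_deriv]
    refine ⟨fun t => (d3 t).differentiableAt, ?_⟩
    rw [show deriv x₃ = _ from funext fun t => (d3 t).deriv]
    exact hu
  let c : Option ℕ → ℝ → ℝ := fun j => j.elim x₃ fun n =>
    iteratedDeriv (n / 2) (if n % 2 = 0 then x₁ else x₂)
  have c1 : ∀ k, c (some (2 * k)) = iteratedDeriv k x₁ := fun k => by
    simp only [c, Option.elim_some]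
    rw [if_pos (by omega), show 2 * k / 2 = k by omega]
  have c2 : ∀ k, c (some (1 + 2 * k)) = iteratedDeriv k x₂ := fun k => by
    simp only [c, Option.elim_some]
    rw [if_neg (by omega), show (1 + 2 * k) / 2 = k by omega]
  have hpar : ∀ n : ℕ, (∃ k, n = 2 * k) ∨ ∃ k, n = 1 + 2 * k := fun n => by
    by_cases h : n % 2 = 0
    · exact Or.inl ⟨n / 2, by omega⟩
    · exact Or.inr ⟨n / 2, by omega⟩
  let F : Finset (Option ℕ) := insertNone (range (2 * L))
  have hF : ∀ t, ∀ j ∉ F, c j t = 0 := by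
    intro t j hj
    cases j with
    | none => exact absurd none_mem_insertNone hj
    | some n =>
      have hn : ¬ n < 2 * L := fun h => hj (some_mem_insertNone.mpr (mem_range.mpr h))
      rcases hpar n with ⟨k, rfl⟩ | ⟨k, rfl⟩
      · rw [c1]; exact z1 k (by omega) t
      · rw [c2]; exact z2 k (by omega) t
  have hco : ∀ j t, b.coord j (∑ i ∈ F, c i t • b i) = c j t := by
    intro j t
    rw [coord_sum b F (fun i => c i t)]
    split_ifs with h
    · rfl
    · exact (hF t j h).symm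
  have hit : ∀ (f : ℝ → ℝ) (a k : ℕ), iteratedDeriv k (iteratedDeriv a f) =
      iteratedDeriv (a + k) f := fun f a k => by
    simp only [iteratedDeriv_eq_iterate]
    rw [add_comm, Function.iterate_add_apply]
  refine ⟨⟨x₁, x₂, x₃, iteratedDeriv α₁ x₁, iteratedDeriv α₂ x₂, s1, s2, s3, fun _ => rfl,
    fun _ => rfl, fun t => (d3 t).deriv⟩, fun t => ∑ i ∈ F, c i t • b i, ?_,
    ⟨F, fun t j hj => by rw [hco, hF t j hj], fun j t => ?_⟩, fun t => ?_⟩
  · refine b.ext_elem fun j => (hco j 0).trans ?_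
    cases j with
    | none => simp [c, x₃]
    | some n =>
      rcases hpar n with ⟨k, rfl⟩ | ⟨k, rfl⟩
      · rw [c1]; exact i1 k
      · rw [c2]; exact i2 k
  · simp only [hco]
    cases j with
    | none =>
      simp only [wfun, Pi.mul_apply, hco, c1, c2]
      exact d3 t
    | some n =>
      simp only [wfun, hco]
      rcases hpar n with ⟨k, rfl⟩ | ⟨k, rfl⟩
      · rw [c1, show 2 * k + 2 = 2 * (k + 1) by ring, c1]; exact hder s1 k t
      · rw [c2, show 1 + 2 * k + 2 = 1 + 2 * (k + 1) by ring, c2]; exact hder s2 k t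
  · simp only [emb, hco, c1, c2, Traj.state, Traj.input, hit]
    rfl

theorem emb_continuous (b : Basis (Option ℕ) ℝ X) (hb : ∀ i, Continuous (b.coord i))
    (α₁ α₂ : ℕ) : Continuous (emb b α₁ α₂) := by
  unfold emb
  fun_prop

theorem emb_dense (b : Basis (Option ℕ) ℝ X) (α₁ α₂ : ℕ) {U : Set (State α₁ α₂ × (ℕ → ℝ × ℝ))}
    (hU : IsOpen U) (hne : U.Nonempty) : (emb b α₁ α₂ ⁻¹' U).Nonempty := by
  classical
  obtain ⟨u, hu⟩ := hne
  let c : Option ℕ → ℝ := fun j => j.elim u.1.2.2 fun n =>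
    if n % 2 = 0 then (if h : n / 2 < α₁ then u.1.1 ⟨_, h⟩ else (u.2 (n / 2 - α₁)).1)
    else (if h : n / 2 < α₂ then u.1.2.1 ⟨_, h⟩ else (u.2 (n / 2 - α₂)).2)
  have hc : ∀ (j : Option ℕ) (a : ℝ), c j = a → Tendsto
      (fun L : ℕ => b.coord j (∑ i ∈ insertNone (range L), c i • b i)) atTop (𝓝 a) := by
    rintro j a rfl
    refine tendsto_const_nhds.congr' ?_
    filter_upwards [eventually_gt_atTop (j.getD 0)] with L hL
    rw [coord_sum, if_pos]
    cases j with
    | none => exact none_mem_insertNone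
    | some n => exact some_mem_insertNone.mpr (mem_range.mpr hL)
  have e1 : ∀ k : ℕ, 2 * k / 2 = k := fun k => by omega
  have e2 : ∀ k : ℕ, (1 + 2 * k) / 2 = k := fun k => by omega
  have e3 : ∀ k : ℕ, 2 * k % 2 = 0 := fun k => by omega
  have e4 : ∀ k : ℕ, ¬ (1 + 2 * k) % 2 = 0 := fun k => by omega
  have ht : Tendsto (fun L : ℕ => emb b α₁ α₂ (∑ i ∈ insertNone (range L), c i • b i)) atTop
      (𝓝 u) := by
    refine Tendsto.prodMk_nhds (Tendsto.prodMk_nhds (tendsto_pi_nhds.mpr fun i => hc _ _ ?_)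
      (Tendsto.prodMk_nhds (tendsto_pi_nhds.mpr fun i => hc _ _ ?_) (hc _ _ rfl)))
      (tendsto_pi_nhds.mpr fun k => Tendsto.prodMk_nhds (hc _ _ ?_) (hc _ _ ?_))
    · simp only [c, Option.elim_some, e1, e3, if_true, i.2, dif_pos]
    · simp only [c, Option.elim_some, e2, e4, if_false, i.2, dif_pos]
    · simp only [c, Option.elim_some, e1, e3, if_true]
      rw [dif_neg (by omega), Nat.add_sub_cancel_left]
    · simp only [c, Option.elim_some, e2, e4, if_false]
      rw [dif_neg (by omega), Nat.add_sub_cancel_left]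
  obtain ⟨L, hL⟩ := (ht.eventually (hU.mem_nhds hu)).exists
  exact ⟨_, hL⟩

end Pool.Agent.Work.MP_3007d7_an
end

-- merged part: Pool.Agent.Work.MP_3007d7_an.Main
section
/- Assembly of the theorem. -/

namespace Pool.Agent.Work.MP_3007d7_an

open Module Finset Filter Topology
open scoped ContDiff

variable {X : Type*} [NormedAddCommGroup X] [NormedSpace ℝ X]

theorem main_abs (b : Basis (Option ℕ) ℝ X) (hb : ∀ i, Continuous (b.coord i)) (α₁ α₂ σ : ℕ)
    (h1 : σ < α₁) (h2 : σ < α₂) (U : Set (State α₁ α₂ × (ℕ → ℝ × ℝ)))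
    (V : Set (State α₁ α₂ × (Fin σ → ℝ × ℝ))) (h : State α₁ α₂ × (Fin σ → ℝ × ℝ) → ℝ × ℝ)
    (k : ℕ) (O : Set (Fin (k + 1) → ℝ × ℝ)) (Ψ : (Fin (k + 1) → ℝ × ℝ) → State α₁ α₂ × (ℝ × ℝ))
    (hU : IsOpen U) (hne : U.Nonempty) (hV : IsOpen V)
    (hUV : ∀ p ∈ U, (p.1, fun i : Fin σ => p.2 i) ∈ V) (hh : ContDiffOn ℝ ∞ h V) (hO : IsOpen O)
    (hΨ : ContDiffOn ℝ ∞ Ψ O)
    (hflat : ∀ (T : Traj α₁ α₂) (y : ℝ → ℝ × ℝ),
      (∀ τ, y τ = h (T.state τ, fun i : Fin σ => T.input i τ)) →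
      ∀ t, (T.state t, fun i : ℕ => T.input i t) ∈ U →
        (fun i : Fin (k + 1) => iteratedDeriv i y t) ∈ O ∧
        (T.state t, T.input 0 t) = Ψ fun i : Fin (k + 1) => iteratedDeriv i y t) : False := by
  classical
  have hWo : IsOpen (emb b α₁ α₂ ⁻¹' U) := hU.preimage (emb_continuous b hb α₁ α₂)
  obtain ⟨𝒰, hW, h𝒰⟩ := exists_generic hWo (emb_dense b α₁ α₂ hU hne)
  set W := emb b α₁ α₂ ⁻¹' U with hWdef
  have hw : ∀ j, Good b (wfun b α₁ α₂ j) W := by
    intro j
    cases j with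
    | none => exact (good_coord hb _).mul (good_coord hb _) hWo
    | some n => exact good_coord hb _
  let idx : (Fin α₁ ⊕ Fin α₂ ⊕ Unit) ⊕ (Fin σ ⊕ Fin σ) → Option ℕ :=
    Sum.elim (Sum.elim (fun i => some (2 * i)) (Sum.elim (fun i => some (1 + 2 * i)) fun _ => none))
      (Sum.elim (fun i => some (2 * (α₁ + i))) fun i => some (1 + 2 * (α₂ + i)))
  let T1 : ((Fin α₁ ⊕ Fin α₂ ⊕ Unit) ⊕ (Fin σ ⊕ Fin σ) → ℝ) → State α₁ α₂ × (Fin σ → ℝ × ℝ) :=
    fun y => ((fun i => y (.inl (.inl i)), fun i => y (.inl (.inr (.inl i))),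
      y (.inl (.inr (.inr ())))), fun i => (y (.inr (.inl i)), y (.inr (.inr i))))
  have hT1 : ContDiff ℝ ∞ T1 := by fun_prop
  have hT1e : ∀ q, T1 (fun l => b.coord (idx l) q) =
      ((emb b α₁ α₂ q).1, fun i : Fin σ => (emb b α₁ α₂ q).2 i) := fun q => rfl
  have hO1 : IsOpen (T1 ⁻¹' V) := hV.preimage hT1.continuous
  have hm1 : ∀ q ∈ W, (fun l => b.coord (idx l) q) ∈ T1 ⁻¹' V := fun q hq => hUV _ hq
  have hhT : ContDiffOn ℝ ∞ (fun y => h (T1 y)) (T1 ⁻¹' V) :=
    hh.comp hT1.contDiffOn fun _ hy => hy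
  obtain ⟨H, hH, H0, HD, Hd⟩ := prolong h𝒰 hb hW hWo hw
    (Good.comp (H := fun l => b.coord (idx l)) (fun l => good_coord hb _) hWo hO1 hhT.fst hm1)
  obtain ⟨G, hG, G0, GD, Gd⟩ := prolong h𝒰 hb hW hWo hw
    (Good.comp (H := fun l => b.coord (idx l)) (fun l => good_coord hb _) hWo hO1 hhT.snd hm1)
  obtain ⟨e, he1, he2⟩ : ∃ e : ℕ → GF b 𝒰, (∀ i, e (2 * i) = mk (H i) ⟨W, hW, hWo, hH i⟩) ∧
      ∀ i, e (1 + 2 * i) = mk (G i) ⟨W, hW, hWo, hG i⟩ := by
    refine ⟨fun n => if n % 2 = 0 then mk (H (n / 2)) ⟨W, hW, hWo, hH _⟩ else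
      mk (G (n / 2)) ⟨W, hW, hWo, hG _⟩, fun i => ?_, fun i => ?_⟩
    · simp only [show 2 * i % 2 = 0 by omega, show 2 * i / 2 = i by omega, if_true]
    · simp only [show ¬ (1 + 2 * i) % 2 = 0 by omega, show (1 + 2 * i) / 2 = i by omega, if_false]
  have hsys : sysW (derivs h𝒰 hb).q α₁ α₂ = fun j => mk (wfun b α₁ α₂ j) ⟨W, hW, hWo, hw j⟩ := by
    funext j
    cases j <;> rfl
  let T2 : (Fin (k + 1) ⊕ Fin (k + 1) → ℝ) → Fin (k + 1) → ℝ × ℝ :=
    fun y i => (y (.inl i), y (.inr i))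
  have hT2 : ContDiff ℝ ∞ T2 := by fun_prop
  let HG : Fin (k + 1) ⊕ Fin (k + 1) → X → ℝ := Sum.elim (fun i => H i) fun i => G i
  have hHG : ∀ l, Good b (HG l) W := by
    rintro (i | i)
    · exact hH i
    · exact hG i
  have hq : ∀ q ∈ W, T2 (fun l => HG l q) ∈ O ∧ (emb b α₁ α₂ q).1 = (Ψ (T2 fun l => HG l q)).1 := by
    intro q hq
    obtain ⟨T, γ, rfl, hγ, hT⟩ := exists_traj b α₁ α₂ q
    have h3 := hflat T (fun τ => (H 0 (γ τ), G 0 (γ τ))) (fun τ => by
      rw [H0, G0]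
      simp only [hT1e, hT]) 0 (by rw [← hT]; exact hq)
    have h4 : (fun i : Fin (k + 1) => iteratedDeriv i (fun τ => (H 0 (γ τ), G 0 (γ τ))) 0) =
        T2 fun l => HG l (γ 0) := funext fun i =>
      iteratedDeriv_pair hγ.continuous hWo (fun i t ht => Hd i γ t hγ ht)
        (fun i t ht => Gd i γ t hγ ht) i 0 hq
    rw [h4] at h3
    exact ⟨h3.1, by rw [← h3.2, hT]⟩
  have hO2 : IsOpen (T2 ⁻¹' O) := hO.preimage hT2.continuous
  have hΨT : ContDiffOn ℝ ∞ (fun y => (Ψ (T2 y)).1) (T2 ⁻¹' O) :=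
    (hΨ.comp hT2.contDiffOn fun _ hy => hy).fst
  refine (derivs h𝒰 hb).no_flat (e := e) α₁ α₂ σ h1 h2 (fun n => ?_) (fun r hr Z z1 z2 z3 => ?_)
    (fun Z hZ => ?_)
  · rw [hsys]
    by_cases hn : n % 2 = 0
    · obtain ⟨i, rfl⟩ : ∃ i, n = 2 * i := ⟨n / 2, by omega⟩
      rw [he1, HD, show 2 * i + 2 = 2 * (i + 1) by ring, he1]
    · obtain ⟨i, rfl⟩ : ∃ i, n = 1 + 2 * i := ⟨n / 2, by omega⟩
      rw [he2, GD, show 1 + 2 * i + 2 = 1 + 2 * (i + 1) by ring, he2]
  · have hZ : ∀ l, Z ((derivs h𝒰 hb).d ((derivs h𝒰 hb).q (idx l))) = 0 := by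
      rintro ((i | i | _) | (i | i))
      · exact z1 i (by have := i.2; omega)
      · exact z2 i (by have := i.2; omega)
      · exact z3
      · exact z1 _ (by have := i.2; omega)
      · exact z2 _ (by have := i.2; omega)
    obtain rfl | rfl : r = 2 * 0 ∨ r = 1 + 2 * 0 := by omega
    · rw [he1]
      exact chain_rule h𝒰 hb hW hWo (H := fun l => b.coord (idx l)) (fun l => good_coord hb _) hO1
        hhT.fst hm1 _ (fun q _ => by rw [H0]) Z hZ
    · rw [he2]
      exact chain_rule h𝒰 hb hW hWo (H := fun l => b.coord (idx l)) (fun l => good_coord hb _) hO1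
        hhT.snd hm1 _ (fun q _ => by rw [G0]) Z hZ
  · have hZ' : ∀ l, Z ((derivs h𝒰 hb).d (mk (HG l) ⟨W, hW, hWo, hHG l⟩)) = 0 := by
      rintro (i | i)
      · have := hZ (2 * i); rwa [he1] at this
      · have := hZ (1 + 2 * i); rwa [he2] at this
    refine ⟨?_, ?_, ?_⟩
    · exact chain_rule h𝒰 hb hW hWo hHG hO2 (contDiffOn_pi.mp hΨT.fst ⟨0, by omega⟩)
        (fun q hq' => (hq q hq').1) ⟨W, hW, hWo, good_coord hb _⟩
        (fun q hq' => by rw [← (hq q hq').2]; rfl) Z hZ'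
    · exact chain_rule h𝒰 hb hW hWo hHG hO2 (contDiffOn_pi.mp hΨT.snd.fst ⟨0, by omega⟩)
        (fun q hq' => (hq q hq').1) ⟨W, hW, hWo, good_coord hb _⟩
        (fun q hq' => by rw [← (hq q hq').2]; rfl) Z hZ'
    · exact chain_rule h𝒰 hb hW hWo hHG hO2 hΨT.snd.snd
        (fun q hq' => (hq q hq').1) ⟨W, hW, hWo, good_coord hb _⟩
        (fun q hq' => by rw [← (hq q hq').2]; rfl) Z hZ'

theorem main (α₁ α₂ : ℕ) (s : ℤ) (h1 : (s + 1).toNat < α₁) (h2 : (s + 1).toNat < α₂) :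
    ¬ HasFlatOutputOfOrderLE α₁ α₂ s := by
  classical
  rintro ⟨U, V, h, k, O, Ψ, hU, hne, hV, hUV, hh, hO, hΨ, hflat⟩
  let v : Option ℕ → lp (fun _ : Option ℕ => ℝ) 1 := fun i => lp.single 1 i 1
  have hv : ∀ i j, lp.evalCLM ℝ (fun _ : Option ℕ => ℝ) 1 j (v i) = if i = j then 1 else 0 := by
    intro i j
    simp [v, lp.evalCLM, lp.single_apply, Pi.single_apply, eq_comm]
  have hli : LinearIndependent ℝ v := by
    rw [linearIndependent_iff']
    intro s c hs i hi
    have := congrArg (lp.evalCLM ℝ (fun _ : Option ℕ => ℝ) 1 i) hs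
    simpa [map_sum, hv, hi] using this
  refine main_abs (Basis.span hli) (fun j => ?_) α₁ α₂ _ h1 h2 U V h k O Ψ hU hne hV hUV hh hO hΨ
    hflat
  have : (Basis.span hli).coord j = (lp.evalCLM ℝ (fun _ : Option ℕ => ℝ) 1 j).toLinearMap.comp
      (Submodule.subtype _) := by
    refine (Basis.span hli).ext fun i => ?_
    rw [Basis.coord_apply, Basis.repr_self, Finsupp.single_apply]
    simp [hv]
  rw [this]
  exact (lp.evalCLM ℝ (fun _ : Option ℕ => ℝ) 1 j).continuous.comp continuous_subtype_val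

end Pool.Agent.Work.MP_3007d7_an
end
end
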